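import Mathlib

/-!
# Arcs, Dirichlet approximations, and the number of arcs near rational numbers of small denominator
-/

set_option autoImplicit false

namespace Pool.Agent.H83HL

open Finset

theorem second {κ θ : ℝ} (hκ : 0 < κ) {p q : ℤ} (hpq : IsCoprime p q) {ρ : ℝ}
    (hρ : ρ = max |(q : ℝ) / κ| |κ * (q * θ - p)|) (h0 : 0 < ρ) (h1 : ρ ≤ 1) :
    ∃ p' q' : ℤ, p * q' - p' * q = 1 ∧ |(q' : ℝ) / κ| ≤ 2 / ρ ∧ |κ * (q' * θ - p')| ≤ 2 / ρ := by
  obtain ⟨u, v, huv⟩ := hpq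
  -- the vectors
  obtain ⟨a, ha⟩ : ∃ a : ℝ, a = (q : ℝ) / κ := ⟨_, rfl⟩
  obtain ⟨b, hb⟩ : ∃ b : ℝ, b = κ * (q * θ - p) := ⟨_, rfl⟩
  have la : |a| ≤ ρ := by rw [ha, hρ]; exact le_max_left _ _
  have lb : |b| ≤ ρ := by rw [hb, hρ]; exact le_max_right _ _
  have gen : ∀ n : ℤ, p * (u + n * q) - (-v + n * p) * q = 1 := by
    intro n; linear_combination huv
  have det : ∀ n : ℤ, a * (κ * (((u + n * q : ℤ) : ℝ) * θ - ((-v + n * p : ℤ) : ℝ))) -
      (((u + n * q : ℤ) : ℝ) / κ) * b = 1 := by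
    intro n
    have h := gen n
    have h' : (p : ℝ) * ((u + n * q : ℤ) : ℝ) - ((-v + n * p : ℤ) : ℝ) * q = 1 := by
      exact_mod_cast h
    rw [ha, hb]
    field_simp
    linear_combination h'
  have hmax : ρ = |a| ∨ ρ = |b| := by
    rw [hρ, ← ha, ← hb]; exact max_choice _ _
  have h2 : ρ / 2 ≤ 2 / ρ := by
    rw [div_le_div_iff₀ (by norm_num) h0]; nlinarith
  rcases hmax with hm | hm
  · have ha0 : a ≠ 0 := by
      intro h; rw [h, abs_zero] at hm; linarith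
    obtain ⟨n, hn⟩ : ∃ n : ℤ, n = -round ((u : ℝ) / κ / a) := ⟨_, rfl⟩
    refine ⟨-v + n * p, u + n * q, gen n, ?_, ?_⟩
    · have e : ((u + n * q : ℤ) : ℝ) / κ = ((u : ℝ) / κ / a - round ((u : ℝ) / κ / a)) * a := by
        rw [hn]; push_cast
        have : (q : ℝ) = a * κ := by rw [ha]; field_simp
        rw [this]; field_simp
        ring
      rw [e, abs_mul, ← hm]
      have := abs_sub_round ((u : ℝ) / κ / a)
      calc |(u : ℝ) / κ / a - round ((u : ℝ) / κ / a)| * ρ ≤ 1 / 2 * ρ :=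
            mul_le_mul_of_nonneg_right this h0.le
        _ = ρ / 2 := by ring
        _ ≤ _ := h2
    · have e : ((u + n * q : ℤ) : ℝ) / κ = ((u : ℝ) / κ / a - round ((u : ℝ) / κ / a)) * a := by
        rw [hn]; push_cast
        have : (q : ℝ) = a * κ := by rw [ha]; field_simp
        rw [this]; field_simp
        ring
      have hd := det n
      have l1 : |((u + n * q : ℤ) : ℝ) / κ| ≤ ρ / 2 := by
        rw [e, abs_mul, ← hm]
        have := abs_sub_round ((u : ℝ) / κ / a)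
        nlinarith
      have l2 : |((u + n * q : ℤ) : ℝ) / κ * b| ≤ ρ / 2 * ρ := by
        rw [abs_mul]; exact mul_le_mul l1 lb (abs_nonneg _) (by positivity)
      rw [le_div_iff₀ h0, hm, ← abs_mul]
      have e2 : κ * (((u + n * q : ℤ) : ℝ) * θ - ((-v + n * p : ℤ) : ℝ)) * a =
          1 + ((u + n * q : ℤ) : ℝ) / κ * b := by linear_combination hd
      rw [e2]
      calc |1 + ((u + n * q : ℤ) : ℝ) / κ * b| ≤ |(1 : ℝ)| + |((u + n * q : ℤ) : ℝ) / κ * b| :=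
            abs_add_le _ _
        _ ≤ 1 + ρ / 2 * ρ := by rw [abs_one]; linarith
        _ ≤ 2 := by nlinarith
  · have hb0 : b ≠ 0 := by
      intro h; rw [h, abs_zero] at hm; linarith
    obtain ⟨n, hn⟩ : ∃ n : ℤ, n = -round (κ * (u * θ + v) / b) := ⟨_, rfl⟩
    have e : κ * (((u + n * q : ℤ) : ℝ) * θ - ((-v + n * p : ℤ) : ℝ)) =
        (κ * (u * θ + v) / b - round (κ * (u * θ + v) / b)) * b := by
      rw [sub_mul, div_mul_cancel₀ _ hb0, hn]
      push_cast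
      rw [hb]; ring
    have l1 : |κ * (((u + n * q : ℤ) : ℝ) * θ - ((-v + n * p : ℤ) : ℝ))| ≤ ρ / 2 := by
      rw [e, abs_mul, ← hm]
      have := abs_sub_round (κ * (u * θ + v) / b)
      nlinarith
    refine ⟨-v + n * p, u + n * q, gen n, ?_, l1.trans h2⟩
    have hd := det n
    have l2 : |a * (κ * (((u + n * q : ℤ) : ℝ) * θ - ((-v + n * p : ℤ) : ℝ)))| ≤ ρ * (ρ / 2) := by
      rw [abs_mul]; exact mul_le_mul la l1 (abs_nonneg _) (by positivity)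
    rw [le_div_iff₀ h0, hm, ← abs_mul]
    have e2 : ((u + n * q : ℤ) : ℝ) / κ * b =
        a * (κ * (((u + n * q : ℤ) : ℝ) * θ - ((-v + n * p : ℤ) : ℝ))) - 1 := by
      linear_combination -hd
    rw [e2]
    calc |a * (κ * (((u + n * q : ℤ) : ℝ) * θ - ((-v + n * p : ℤ) : ℝ))) - 1|
        ≤ |a * (κ * (((u + n * q : ℤ) : ℝ) * θ - ((-v + n * p : ℤ) : ℝ)))| + |(1 : ℝ)| := abs_sub _ _
      _ ≤ ρ * (ρ / 2) + 1 := by rw [abs_one]; linarith
      _ ≤ 2 := by nlinarith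

/-- number of naturals in an interval -/
theorem nat_card {S : Finset ℕ} {c w : ℝ} (hw : 0 ≤ w) (h : ∀ k ∈ S, |(k : ℝ) - c| ≤ w) :
    (S.card : ℝ) ≤ 2 * w + 1 := by
  rcases S.eq_empty_or_nonempty with rfl | hne
  · simp; linarith
  have h1 : S ⊆ Icc (S.min' hne) (S.max' hne) := fun k hk =>
    mem_Icc.2 ⟨min'_le _ _ hk, le_max' _ _ hk⟩
  have h2 := card_le_card h1
  rw [Nat.card_Icc] at h2
  have h3 := abs_le.1 (h _ (min'_mem S hne))
  have h4 := abs_le.1 (h _ (max'_mem S hne))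
  have h5 : S.min' hne ≤ S.max' hne := min'_le _ _ (max'_mem S hne)
  have h6 : (S.card : ℝ) ≤ ((S.max' hne + 1 - S.min' hne : ℕ) : ℝ) := by exact_mod_cast h2
  rw [Nat.cast_sub (by omega)] at h6
  push_cast at h6
  linarith

theorem arc_count {K : ℕ} {κ : ℝ} (hκ0 : 0 < κ) (hκ : κ ^ 2 = K) {r : ℝ} (hr : 0 < r)
    (S : Finset ℕ)
    (hS : ∀ k ∈ S, ∃ p q : ℕ, 1 ≤ q ∧ p ≤ q ∧ (q : ℝ) ≤ r * κ ∧
      |(q : ℝ) * (k / K) - p| ≤ r / κ) :
    (S.card : ℝ) ≤ 6 * r ^ 2 * K := by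
  classical
  have hK0 : (0 : ℝ) < K := by rw [← hκ]; positivity
  set n := ⌊r * κ⌋₊ with hn
  have hnr : (n : ℝ) ≤ r * κ := Nat.floor_le (by positivity)
  have hsub : S ⊆ (Icc 1 n).biUnion fun q => (range (q + 1)).biUnion fun p =>
      S.filter fun k : ℕ => |(q : ℝ) * ((k : ℝ) / K) - p| ≤ r / κ := by
    intro k hk
    obtain ⟨p, q, h1, h2, h3, h4⟩ := hS k hk
    rw [mem_biUnion]
    refine ⟨q, mem_Icc.2 ⟨h1, Nat.le_floor h3⟩, ?_⟩
    rw [mem_biUnion]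
    exact ⟨p, mem_range.2 (by omega), mem_filter.2 ⟨hk, h4⟩⟩
  have hpiece : ∀ q ∈ Icc 1 n, ∀ p ∈ range (q + 1),
      (((S.filter fun k : ℕ => |(q : ℝ) * ((k : ℝ) / K) - p| ≤ r / κ).card : ℕ) : ℝ) ≤
        2 * (r * κ / q) + 1 := by
    intro q hq p hp
    have hq1 : 1 ≤ q := (mem_Icc.1 hq).1
    have hq0 : (0 : ℝ) < q := by exact_mod_cast hq1
    refine nat_card (c := p * K / q) (by positivity) ?_
    intro k hk
    have h := (mem_filter.1 hk).2
    have e : (k : ℝ) - p * K / q = ((q : ℝ) * (k / K) - p) * (K / q) := by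
      field_simp
    rw [e, abs_mul, abs_of_pos (by positivity : (0 : ℝ) < K / q)]
    calc |(q : ℝ) * (k / K) - p| * (K / q) ≤ r / κ * (K / q) :=
          mul_le_mul_of_nonneg_right h (by positivity)
      _ = r * κ / q := by rw [← hκ]; field_simp
  have h1 : (S.card : ℝ) ≤ ∑ q ∈ Icc 1 n, ∑ p ∈ range (q + 1), (2 * (r * κ / (q : ℝ)) + 1) := by
    calc (S.card : ℝ) ≤ ((((Icc 1 n).biUnion fun q => (range (q + 1)).biUnion fun p =>
          S.filter fun k : ℕ => |(q : ℝ) * ((k : ℝ) / K) - p| ≤ r / κ).card : ℕ) : ℝ) := by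
          exact_mod_cast card_le_card hsub
      _ ≤ ∑ q ∈ Icc 1 n, ((((range (q + 1)).biUnion fun p =>
          S.filter fun k : ℕ => |(q : ℝ) * ((k : ℝ) / K) - p| ≤ r / κ).card : ℕ) : ℝ) := by
          exact_mod_cast card_biUnion_le
      _ ≤ ∑ q ∈ Icc 1 n, ∑ p ∈ range (q + 1), (2 * (r * κ / (q : ℝ)) + 1) := by
          refine sum_le_sum fun q hq => ?_
          calc ((((range (q + 1)).biUnion fun p =>
              S.filter fun k : ℕ => |(q : ℝ) * ((k : ℝ) / K) - p| ≤ r / κ).card : ℕ) : ℝ)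
              ≤ ∑ p ∈ range (q + 1),
                (((S.filter fun k : ℕ => |(q : ℝ) * ((k : ℝ) / K) - p| ≤ r / κ).card : ℕ) : ℝ) := by
                exact_mod_cast card_biUnion_le
            _ ≤ _ := sum_le_sum fun p hp => hpiece q hq p hp
  refine h1.trans ?_
  have h2 : ∀ q ∈ Icc 1 n, ∑ p ∈ range (q + 1), (2 * (r * κ / (q : ℝ)) + 1) ≤
      4 * (r * κ) + 2 * n := by
    intro q hq
    have hq1 : 1 ≤ q := (mem_Icc.1 hq).1
    have hqn : (q : ℝ) ≤ n := by exact_mod_cast (mem_Icc.1 hq).2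
    have hq0 : (1 : ℝ) ≤ q := by exact_mod_cast hq1
    rw [sum_const, card_range, nsmul_eq_mul]
    push_cast
    have e : (2 * (q : ℝ)) * (2 * (r * κ / (q : ℝ)) + 1) = 4 * (r * κ) + 2 * q := by
      field_simp; ring
    calc ((q : ℝ) + 1) * (2 * (r * κ / (q : ℝ)) + 1) ≤ (2 * (q : ℝ)) * (2 * (r * κ / (q : ℝ)) + 1) :=
          mul_le_mul_of_nonneg_right (by linarith) (by positivity)
      _ = 4 * (r * κ) + 2 * q := e
      _ ≤ _ := by linarith
  calc ∑ q ∈ Icc 1 n, ∑ p ∈ range (q + 1), (2 * (r * κ / (q : ℝ)) + 1)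
      ≤ ∑ q ∈ Icc 1 n, (4 * (r * κ) + 2 * (n : ℝ)) := sum_le_sum h2
    _ = n * (4 * (r * κ) + 2 * n) := by
        rw [sum_const, Nat.card_Icc, nsmul_eq_mul, Nat.add_sub_cancel]
    _ ≤ (r * κ) * (4 * (r * κ) + 2 * (r * κ)) :=
        mul_le_mul hnr (by linarith) (by positivity) (by positivity)
    _ = 6 * r ^ 2 * K := by rw [← hκ]; ring

/-- Dirichlet approximation of `k / K` -/
theorem dirichlet {K k : ℕ} (hk : k < K) {κ : ℝ} (hκ0 : 0 < κ) (hκ : κ ^ 2 = K) :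
    ∃ p q : ℕ, 1 ≤ q ∧ p ≤ q ∧ IsCoprime (p : ℤ) (q : ℤ) ∧ (q : ℝ) ≤ κ ∧
      |(q : ℝ) * (k / K) - p| ≤ 1 / κ := by
  have hK : 0 < K := by omega
  have hK0 : (0 : ℝ) < K := by exact_mod_cast hK
  set n := Nat.sqrt K with hn
  have hn1 : 0 < n := Nat.sqrt_pos.2 hK
  have hnκ : (n : ℝ) ≤ κ := by
    have : (n : ℝ) ^ 2 ≤ κ ^ 2 := by
      rw [hκ]
      have := Nat.sqrt_le' K
      exact_mod_cast this
    exact (pow_le_pow_iff_left₀ (by positivity) hκ0.le (by norm_num)).1 this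
  have hκn : κ ≤ n + 1 := by
    have : κ ^ 2 ≤ ((n : ℝ) + 1) ^ 2 := by
      rw [hκ]
      have := Nat.lt_succ_sqrt' K
      have h2 : K ≤ (n + 1) ^ 2 := by
        rw [hn]; exact this.le
      exact_mod_cast h2
    exact (pow_le_pow_iff_left₀ hκ0.le (by positivity) (by norm_num)).1 this
  obtain ⟨x, hx1, hx2⟩ := Real.exists_rat_abs_sub_le_and_den_le ((k : ℝ) / K) hn1
  have hden : (0 : ℝ) < x.den := by exact_mod_cast x.den_pos
  have hxx : (x : ℝ) = x.num / x.den := by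
    exact_mod_cast (Rat.num_div_den x).symm
  have h3 : |(x.den : ℝ) * (k / K) - x.num| ≤ 1 / (n + 1) := by
    have e : (x.den : ℝ) * (k / K) - x.num = ((k : ℝ) / K - x) * x.den := by
      rw [hxx]; field_simp
    rw [e, abs_mul, abs_of_pos hden]
    calc |(k : ℝ) / K - x| * x.den ≤ 1 / ((n + 1) * x.den) * x.den :=
          mul_le_mul_of_nonneg_right hx1 hden.le
      _ = 1 / (n + 1) := by field_simp
  have h4 : (1 : ℝ) / (n + 1) < 1 := by
    rw [div_lt_one (by positivity)]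
    have : (0 : ℝ) < n := by exact_mod_cast hn1
    linarith
  have h5 := abs_le.1 h3
  have hθ0 : (0 : ℝ) ≤ (k : ℝ) / K := by positivity
  have hθ1 : (k : ℝ) / K < 1 := by
    rw [div_lt_one hK0]; exact_mod_cast hk
  have hnum0 : 0 ≤ x.num := by
    have : (-1 : ℝ) < x.num := by
      have : 0 ≤ (x.den : ℝ) * (k / K) := by positivity
      linarith
    have h6 : (-1 : ℤ) < x.num := by exact_mod_cast this
    omega
  have hnumd : x.num ≤ x.den := by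
    have : (x.num : ℝ) < x.den + 1 := by
      have : (x.den : ℝ) * (k / K) < x.den := by
        calc (x.den : ℝ) * (k / K) < x.den * 1 := mul_lt_mul_of_pos_left hθ1 hden
          _ = x.den := mul_one _
      linarith
    have h6 : x.num < x.den + 1 := by exact_mod_cast this
    omega
  refine ⟨x.num.toNat, x.den, x.den_pos, by omega, ?_, ?_, ?_⟩
  · rw [Int.toNat_of_nonneg hnum0]
    exact (Int.isCoprime_iff_gcd_eq_one).2 (by
      have := x.reduced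
      rw [Int.gcd]
      simpa using this)
  · exact le_trans (by exact_mod_cast hx2) hnκ
  · have e : ((x.num.toNat : ℕ) : ℝ) = (x.num : ℝ) := by
      have : ((x.num.toNat : ℕ) : ℤ) = x.num := Int.toNat_of_nonneg hnum0
      exact_mod_cast congrArg (fun z : ℤ => (z : ℝ)) this
    rw [e]
    exact h3.trans (one_div_le_one_div_of_le hκ0 hκn)

/-- sums of powers over the arcs -/
theorem sum_arcs {S : Finset ℕ} {ρ : ℕ → ℝ} {ρ0 Kr : ℝ} (h0 : 0 < ρ0) (h01 : ρ0 ≤ 1)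
    (hS : ∀ k ∈ S, ρ0 ≤ ρ k ∧ ρ k ≤ 1)
    (hc : ∀ r : ℝ, 0 < r → r ≤ 1 → (((S.filter fun k => ρ k ≤ r).card : ℕ) : ℝ) ≤ 6 * r ^ 2 * Kr)
    (hK : 0 ≤ Kr) :
    ∑ k ∈ S, 1 / ρ k ^ 4 ≤ 128 * Kr / ρ0 ^ 2 ∧ ∑ k ∈ S, 1 / ρ k ^ 3 ≤ 96 * Kr / ρ0 := by
  classical
  obtain ⟨I, hI1, hI2⟩ := exists_nat_pow_near_of_lt_one h0 h01
    (by norm_num : (0 : ℝ) < 1 / 2) (by norm_num : (1 / 2 : ℝ) < 1)
  have key : ∀ e : ℕ, ∑ k ∈ S, 1 / ρ k ^ e ≤
      ∑ i ∈ range (I + 1), (2 : ℝ) ^ (e * (i + 1)) * (6 * ((1 / 2) ^ i) ^ 2 * Kr) := by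
    intro e
    have h1 : ∀ k ∈ S, 1 / ρ k ^ e ≤ ∑ i ∈ range (I + 1),
        if ρ k ≤ (1 / 2) ^ i then (2 : ℝ) ^ (e * (i + 1)) else 0 := by
      intro k hk
      obtain ⟨a1, a2⟩ := hS k hk
      have hρ : 0 < ρ k := by linarith
      obtain ⟨i, hi1, hi2⟩ := exists_nat_pow_near_of_lt_one hρ a2
        (by norm_num : (0 : ℝ) < 1 / 2) (by norm_num : (1 / 2 : ℝ) < 1)
      have hiI : i < I + 1 := by
        by_contra hcon
        push Not at hcon
        have : (1 / 2 : ℝ) ^ i ≤ (1 / 2) ^ (I + 1) :=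
          pow_le_pow_of_le_one (by norm_num) (by norm_num) hcon
        linarith
      have h2 : 1 / ρ k ^ e ≤ (2 : ℝ) ^ (e * (i + 1)) := by
        rw [div_le_iff₀ (by positivity), mul_comm e, pow_mul, ← mul_pow]
        refine one_le_pow₀ ?_
        have : (2 : ℝ) ^ (i + 1) * (1 / 2) ^ (i + 1) = 1 := by
          rw [← mul_pow]; norm_num
        calc (1 : ℝ) = (2 : ℝ) ^ (i + 1) * (1 / 2) ^ (i + 1) := this.symm
          _ ≤ (2 : ℝ) ^ (i + 1) * ρ k := mul_le_mul_of_nonneg_left hi1.le (by positivity)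
      refine h2.trans ?_
      have h3 := single_le_sum (f := fun i => if ρ k ≤ (1 / 2) ^ i then (2 : ℝ) ^ (e * (i + 1)) else 0)
        (s := range (I + 1)) (fun j _ => by positivity) (mem_range.2 hiI)
      have h4 : (if ρ k ≤ (1 / 2) ^ i then (2 : ℝ) ^ (e * (i + 1)) else 0) =
          2 ^ (e * (i + 1)) := if_pos hi2
      rw [← h4]
      exact h3
    calc ∑ k ∈ S, 1 / ρ k ^ e ≤ ∑ k ∈ S, ∑ i ∈ range (I + 1),
          (if ρ k ≤ (1 / 2) ^ i then (2 : ℝ) ^ (e * (i + 1)) else 0) := sum_le_sum h1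
      _ = ∑ i ∈ range (I + 1), ∑ k ∈ S,
          (if ρ k ≤ (1 / 2) ^ i then (2 : ℝ) ^ (e * (i + 1)) else 0) := sum_comm
      _ ≤ _ := by
          refine sum_le_sum fun i _ => ?_
          rw [← sum_filter, sum_const, nsmul_eq_mul, mul_comm]
          refine mul_le_mul_of_nonneg_left ?_ (by positivity)
          exact hc _ (by positivity) (pow_le_one₀ (by norm_num) (by norm_num))
  have hI3 : (2 : ℝ) ^ I ≤ 1 / ρ0 := by
    rw [le_div_iff₀ h0]
    calc (2 : ℝ) ^ I * ρ0 ≤ 2 ^ I * (1 / 2) ^ I := mul_le_mul_of_nonneg_left hI2 (by positivity)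
      _ = 1 := by rw [← mul_pow]; norm_num
  constructor
  · refine (key 4).trans ?_
    have e1 : ∀ i ∈ range (I + 1), (2 : ℝ) ^ (4 * (i + 1)) * (6 * ((1 / 2) ^ i) ^ 2 * Kr) =
        96 * Kr * 4 ^ i := by
      intro i _
      have : (2 : ℝ) ^ (4 * (i + 1)) * ((1 / 2) ^ i) ^ 2 = 16 * 4 ^ i := by
        rw [pow_mul, show ((2 : ℝ) ^ 4) = 16 by norm_num, pow_succ, ← pow_mul, mul_comm i 2,
          pow_mul, show ((1 / 2 : ℝ) ^ 2) = 1 / 4 by norm_num, mul_right_comm, ← mul_pow]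
        norm_num
        ring
      calc (2 : ℝ) ^ (4 * (i + 1)) * (6 * ((1 / 2) ^ i) ^ 2 * Kr) =
          6 * Kr * ((2 : ℝ) ^ (4 * (i + 1)) * ((1 / 2) ^ i) ^ 2) := by ring
        _ = _ := by rw [this]; ring
    rw [sum_congr rfl e1, ← mul_sum]
    have e2 : ∑ i ∈ range (I + 1), (4 : ℝ) ^ i ≤ 4 / 3 * 4 ^ I := by
      rw [geom_sum_eq (by norm_num), pow_succ]
      have : (0 : ℝ) < 4 ^ I := by positivity
      linarith
    have e3 : (4 : ℝ) ^ I ≤ 1 / ρ0 ^ 2 := by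
      calc (4 : ℝ) ^ I = (2 ^ I) ^ 2 := by rw [← pow_mul, mul_comm, pow_mul]; norm_num
        _ ≤ (1 / ρ0) ^ 2 := pow_le_pow_left₀ (by positivity) hI3 2
        _ = 1 / ρ0 ^ 2 := by rw [div_pow, one_pow]
    calc 96 * Kr * ∑ i ∈ range (I + 1), (4 : ℝ) ^ i ≤ 96 * Kr * (4 / 3 * (1 / ρ0 ^ 2)) :=
          mul_le_mul_of_nonneg_left (e2.trans (by linarith)) (by positivity)
      _ = 128 * Kr / ρ0 ^ 2 := by ring
  · refine (key 3).trans ?_
    have e1 : ∀ i ∈ range (I + 1), (2 : ℝ) ^ (3 * (i + 1)) * (6 * ((1 / 2) ^ i) ^ 2 * Kr) =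
        48 * Kr * 2 ^ i := by
      intro i _
      have : (2 : ℝ) ^ (3 * (i + 1)) * ((1 / 2) ^ i) ^ 2 = 8 * 2 ^ i := by
        rw [pow_mul, show ((2 : ℝ) ^ 3) = 8 by norm_num, pow_succ, ← pow_mul, mul_comm i 2,
          pow_mul, show ((1 / 2 : ℝ) ^ 2) = 1 / 4 by norm_num, mul_right_comm, ← mul_pow]
        norm_num
        ring
      calc (2 : ℝ) ^ (3 * (i + 1)) * (6 * ((1 / 2) ^ i) ^ 2 * Kr) =
          6 * Kr * ((2 : ℝ) ^ (3 * (i + 1)) * ((1 / 2) ^ i) ^ 2) := by ring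
        _ = _ := by rw [this]; ring
    rw [sum_congr rfl e1, ← mul_sum]
    have e2 : ∑ i ∈ range (I + 1), (2 : ℝ) ^ i ≤ 2 * 2 ^ I := by
      rw [geom_sum_eq (by norm_num), pow_succ]
      have : (0 : ℝ) < 2 ^ I := by positivity
      linarith
    calc 48 * Kr * ∑ i ∈ range (I + 1), (2 : ℝ) ^ i ≤ 48 * Kr * (2 * (1 / ρ0)) :=
          mul_le_mul_of_nonneg_left (e2.trans (by linarith)) (by positivity)
      _ = 96 * Kr / ρ0 := by ring

end Pool.Agent.H83HL
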