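import Pool.Agent.H83HL.Basic

/-!
# Integral cubic polynomials which are small on a short interval
-/

set_option autoImplicit false

namespace Pool.Agent.H83HL

open Finset

theorem abs4 {w x y z Γ X Y Z : ℝ} (hw : |w| ≤ Γ) (hx : |x| ≤ X) (hy : |y| ≤ Y) (hz : |z| ≤ Z) :
    |w * x * y * z| ≤ Γ * X * Y * Z := by
  have h0 : 0 ≤ Γ := (abs_nonneg _).trans hw
  have h1 : 0 ≤ X := (abs_nonneg _).trans hx
  have h2 : 0 ≤ Y := (abs_nonneg _).trans hy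
  rw [abs_mul, abs_mul, abs_mul]
  exact mul_le_mul (mul_le_mul (mul_le_mul hw hx (abs_nonneg _) h0) hy (abs_nonneg _)
    (by positivity)) hz (abs_nonneg _) (by positivity)

theorem card_Icc_le {B : ℝ} (hB : 0 ≤ B) : ((Icc (-⌊B⌋) ⌊B⌋).card : ℝ) ≤ 2 * B + 1 := by
  have h1 : 0 ≤ ⌊B⌋ := Int.floor_nonneg.2 hB
  have h2 : (⌊B⌋ : ℝ) ≤ B := Int.floor_le B
  rw [Int.card_Icc]
  have h3 : ((⌊B⌋ + 1 - -⌊B⌋).toNat : ℤ) = ⌊B⌋ + 1 - -⌊B⌋ := Int.toNat_of_nonneg (by omega)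
  have h4 : (((⌊B⌋ + 1 - -⌊B⌋).toNat : ℤ) : ℝ) = ((⌊B⌋ + 1 - -⌊B⌋ : ℤ) : ℝ) := by rw [h3]
  rw [Int.cast_natCast] at h4
  rw [h4]
  push_cast
  linarith

theorem mem_Icc_of_abs {c : ℤ} {B : ℝ} (h : |(c : ℝ)| ≤ B) : c ∈ Icc (-⌊B⌋) ⌊B⌋ := by
  rw [mem_Icc]
  have h1 := abs_le.1 h
  constructor
  · have : -c ≤ ⌊B⌋ := Int.le_floor.2 (by push_cast; linarith)
    omega
  · exact Int.le_floor.2 h1.2

/-- the coefficients in the basis given by a unimodular matrix -/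
def cc (p q p' q' : ℤ) (d : ℤ × ℤ × ℤ × ℤ) : ℤ × ℤ × ℤ × ℤ :=
  (d.1 * p ^ 3 + d.2.1 * p ^ 2 * q + d.2.2.1 * p * q ^ 2 + d.2.2.2 * q ^ 3,
   3 * d.1 * p ^ 2 * p' + d.2.1 * (p ^ 2 * q' + 2 * p * p' * q) +
     d.2.2.1 * (2 * p * q * q' + p' * q ^ 2) + 3 * d.2.2.2 * q ^ 2 * q',
   3 * d.1 * p * p' ^ 2 + d.2.1 * (2 * p * p' * q' + p' ^ 2 * q) +
     d.2.2.1 * (p * q' ^ 2 + 2 * p' * q * q') + 3 * d.2.2.2 * q * q' ^ 2,
   d.1 * p' ^ 3 + d.2.1 * p' ^ 2 * q' + d.2.2.1 * p' * q' ^ 2 + d.2.2.2 * q' ^ 3)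

theorem cc_inj {p q p' q' : ℤ} (hdet : p * q' - p' * q = 1) {d e : ℤ × ℤ × ℤ × ℤ}
    (h : cc p q p' q' d = cc p q p' q' e) : d = e := by
  have key : ∀ f : ℤ × ℤ × ℤ × ℤ,
      f.1 = (cc p q p' q' f).1 * q' ^ 3 - (cc p q p' q' f).2.1 * q' ^ 2 * q +
        (cc p q p' q' f).2.2.1 * q' * q ^ 2 - (cc p q p' q' f).2.2.2 * q ^ 3 ∧
      f.2.1 = -3 * (cc p q p' q' f).1 * q' ^ 2 * p' +
        (cc p q p' q' f).2.1 * (2 * q' * p' * q + q' ^ 2 * p) -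
        (cc p q p' q' f).2.2.1 * (p' * q ^ 2 + 2 * p * q * q') +
        3 * (cc p q p' q' f).2.2.2 * q ^ 2 * p ∧
      f.2.2.1 = 3 * (cc p q p' q' f).1 * q' * p' ^ 2 -
        (cc p q p' q' f).2.1 * (p' ^ 2 * q + 2 * p * p' * q') +
        (cc p q p' q' f).2.2.1 * (q' * p ^ 2 + 2 * p * p' * q) -
        3 * (cc p q p' q' f).2.2.2 * q * p ^ 2 ∧
      f.2.2.2 = -(cc p q p' q' f).1 * p' ^ 3 + (cc p q p' q' f).2.1 * p' ^ 2 * p -
        (cc p q p' q' f).2.2.1 * p' * p ^ 2 + (cc p q p' q' f).2.2.2 * p ^ 3 := by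
    intro f
    have h3 : (p * q' - p' * q) ^ 3 = 1 := by rw [hdet]; norm_num
    refine ⟨?_, ?_, ?_, ?_⟩
    · have : f.1 = f.1 * (p * q' - p' * q) ^ 3 := by rw [h3, mul_one]
      rw [this]; simp only [cc]; ring
    · have : f.2.1 = f.2.1 * (p * q' - p' * q) ^ 3 := by rw [h3, mul_one]
      rw [this]; simp only [cc]; ring
    · have : f.2.2.1 = f.2.2.1 * (p * q' - p' * q) ^ 3 := by rw [h3, mul_one]
      rw [this]; simp only [cc]; ring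
    · have : f.2.2.2 = f.2.2.2 * (p * q' - p' * q) ^ 3 := by rw [h3, mul_one]
      rw [this]; simp only [cc]; ring
  obtain ⟨a1, a2, a3, a4⟩ := key d
  obtain ⟨b1, b2, b3, b4⟩ := key e
  rw [h] at a1 a2 a3 a4
  obtain ⟨d1, d2, d3, d4⟩ := d
  obtain ⟨e1, e2, e3, e4⟩ := e
  simp only [Prod.mk.injEq]
  exact ⟨a1.trans b1.symm, a2.trans b2.symm, a3.trans b3.symm, a4.trans b4.symm⟩

theorem cub_count {p q p' q' : ℤ} (hdet : p * q' - p' * q = 1) {κ θ ρ ρ' G : ℝ} (hκ : 0 < κ)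
    (ha : |(q : ℝ) / κ| ≤ ρ) (hb : |κ * (q * θ - p)| ≤ ρ)
    (ha' : |(q' : ℝ) / κ| ≤ ρ') (hb' : |κ * (q' * θ - p')| ≤ ρ') (hG : 0 ≤ G)
    (S : Finset (ℤ × ℤ × ℤ × ℤ))
    (hS : ∀ d ∈ S, |tau0 d θ| ≤ G ∧ |tau1 d θ| ≤ G * κ ^ 2 ∧ |tau2 d θ| ≤ G * κ ^ 4 ∧
      |tau3 d| ≤ G * κ ^ 6) :
    (S.card : ℝ) ≤ (2 * (4 * (G * κ ^ 3) * ρ ^ 3) + 1) *
      ((2 * (12 * (G * κ ^ 3) * ρ ^ 2 * ρ') + 1) *
      ((2 * (12 * (G * κ ^ 3) * ρ * ρ' ^ 2) + 1) *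
      (2 * (4 * (G * κ ^ 3) * ρ' ^ 3) + 1))) := by
  have hρ : 0 ≤ ρ := (abs_nonneg _).trans ha
  have hρ' : 0 ≤ ρ' := (abs_nonneg _).trans ha'
  set Γ : ℝ := G * κ ^ 3 with hΓ
  have hΓ0 : 0 ≤ Γ := by positivity
  have hsub : ∀ d ∈ S, cc p q p' q' d ∈ Icc (-⌊4 * Γ * ρ ^ 3⌋) ⌊4 * Γ * ρ ^ 3⌋ ×ˢ
      (Icc (-⌊12 * Γ * ρ ^ 2 * ρ'⌋) ⌊12 * Γ * ρ ^ 2 * ρ'⌋ ×ˢ
      (Icc (-⌊12 * Γ * ρ * ρ' ^ 2⌋) ⌊12 * Γ * ρ * ρ' ^ 2⌋ ×ˢ
      Icc (-⌊4 * Γ * ρ' ^ 3⌋) ⌊4 * Γ * ρ' ^ 3⌋)) := by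
    intro d hd
    obtain ⟨h0, h1, h2, h3⟩ := hS d hd
    -- normalised quantities
    obtain ⟨w3, hw3⟩ : ∃ w3, w3 = tau3 d / κ ^ 3 := ⟨_, rfl⟩
    obtain ⟨w2, hw2⟩ : ∃ w2, w2 = tau2 d θ / κ := ⟨_, rfl⟩
    obtain ⟨w1, hw1⟩ : ∃ w1, w1 = tau1 d θ * κ := ⟨_, rfl⟩
    obtain ⟨w0, hw0⟩ : ∃ w0, w0 = tau0 d θ * κ ^ 3 := ⟨_, rfl⟩
    have k3 : |w3| ≤ Γ := by
      rw [hw3, abs_div, abs_of_pos (by positivity : 0 < κ ^ 3), div_le_iff₀ (by positivity)]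
      calc |tau3 d| ≤ G * κ ^ 6 := h3
        _ = Γ * κ ^ 3 := by rw [hΓ]; ring
    have k2 : |w2| ≤ Γ := by
      rw [hw2, abs_div, abs_of_pos hκ, div_le_iff₀ hκ]
      calc |tau2 d θ| ≤ G * κ ^ 4 := h2
        _ = Γ * κ := by rw [hΓ]; ring
    have k1 : |w1| ≤ Γ := by
      rw [hw1, abs_mul, abs_of_pos hκ]
      calc |tau1 d θ| * κ ≤ G * κ ^ 2 * κ := mul_le_mul_of_nonneg_right h1 hκ.le
        _ = Γ := by rw [hΓ]; ring
    have k0 : |w0| ≤ Γ := by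
      rw [hw0, abs_mul, abs_of_pos (by positivity : 0 < κ ^ 3)]
      exact mul_le_mul_of_nonneg_right h0 (by positivity)
    obtain ⟨a, hadef⟩ : ∃ a, a = (q : ℝ) / κ := ⟨_, rfl⟩
    obtain ⟨a', hadef'⟩ : ∃ a', a' = (q' : ℝ) / κ := ⟨_, rfl⟩
    obtain ⟨b, hbdef⟩ : ∃ b, b = -(κ * (q * θ - p)) := ⟨_, rfl⟩
    obtain ⟨b', hbdef'⟩ : ∃ b', b' = -(κ * (q' * θ - p')) := ⟨_, rfl⟩
    have la : |a| ≤ ρ := by rw [hadef]; exact ha
    have la' : |a'| ≤ ρ' := by rw [hadef']; exact ha'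
    have lb : |b| ≤ ρ := by rw [hbdef, abs_neg]; exact hb
    have lb' : |b'| ≤ ρ' := by rw [hbdef', abs_neg]; exact hb'
    have t3 : tau3 d = w3 * κ ^ 3 := by rw [hw3]; field_simp
    have t2 : tau2 d θ = w2 * κ := by rw [hw2]; field_simp
    have t1 : tau1 d θ = w1 / κ := by rw [hw1]; field_simp
    have t0 : tau0 d θ = w0 / κ ^ 3 := by rw [hw0]; field_simp
    have eq1 : (q : ℝ) = a * κ := by rw [hadef]; field_simp
    have eq1' : (q' : ℝ) = a' * κ := by rw [hadef']; field_simp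
    have ep : (p : ℝ) - θ * q = b / κ := by rw [hbdef]; field_simp; ring
    have ep' : (p' : ℝ) - θ * q' = b' / κ := by rw [hbdef']; field_simp; ring
    rw [mem_product, mem_product, mem_product]
    refine ⟨mem_Icc_of_abs ?_, mem_Icc_of_abs ?_, mem_Icc_of_abs ?_, mem_Icc_of_abs ?_⟩
    · have e : (((cc p q p' q' d).1 : ℤ) : ℝ) = w3 * b * b * b + w2 * b * b * a + w1 * b * a * a +
          w0 * a * a * a := by
        have e1 : (((cc p q p' q' d).1 : ℤ) : ℝ) = tau3 d * ((p : ℝ) - θ * q) ^ 3 +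
            tau2 d θ * (p - θ * q) ^ 2 * q + tau1 d θ * (p - θ * q) * q ^ 2 + tau0 d θ * q ^ 3 := by
          simp only [cc, tau0, tau1, tau2, tau3]; push_cast; ring
        rw [e1, ep, eq1, t3, t2, t1, t0]
        field_simp
      rw [e]
      have s1 := abs4 k3 lb lb lb
      have s2 := abs4 k2 lb lb la
      have s3 := abs4 k1 lb la la
      have s4 := abs4 k0 la la la
      calc _ ≤ |w3 * b * b * b| + |w2 * b * b * a| + |w1 * b * a * a| + |w0 * a * a * a| :=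
            (abs_add_le _ _).trans (add_le_add ((abs_add_le _ _).trans
              (add_le_add (abs_add_le _ _) le_rfl)) le_rfl)
        _ ≤ _ := by nlinarith
    · have e : (((cc p q p' q' d).2.1 : ℤ) : ℝ) = 3 * (w3 * b * b * b') + (w2 * b * b * a' +
          2 * (w2 * b * b' * a)) + (2 * (w1 * b * a * a') + w1 * b' * a * a) +
          3 * (w0 * a * a * a') := by
        have e1 : (((cc p q p' q' d).2.1 : ℤ) : ℝ) =
            3 * tau3 d * ((p : ℝ) - θ * q) ^ 2 * (p' - θ * q') +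
            tau2 d θ * ((p - θ * q) ^ 2 * q' + 2 * (p - θ * q) * (p' - θ * q') * q) +
            tau1 d θ * (2 * (p - θ * q) * q * q' + (p' - θ * q') * q ^ 2) +
            3 * tau0 d θ * q ^ 2 * q' := by
          simp only [cc, tau0, tau1, tau2, tau3]; push_cast; ring
        rw [e1, ep, ep', eq1, eq1', t3, t2, t1, t0]
        field_simp
      rw [e]
      have s1 := abs4 k3 lb lb lb'
      have s2 := abs4 k2 lb lb la'
      have s3 := abs4 k2 lb lb' la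
      have s4 := abs4 k1 lb la la'
      have s5 := abs4 k1 lb' la la
      have s6 := abs4 k0 la la la'
      rw [abs_le] at *
      constructor <;> nlinarith
    · have e : (((cc p q p' q' d).2.2.1 : ℤ) : ℝ) = 3 * (w3 * b * b' * b') +
          (2 * (w2 * b * b' * a') + w2 * b' * b' * a) + (w1 * b * a' * a' +
          2 * (w1 * b' * a * a')) + 3 * (w0 * a * a' * a') := by
        have e1 : (((cc p q p' q' d).2.2.1 : ℤ) : ℝ) =
            3 * tau3 d * ((p : ℝ) - θ * q) * (p' - θ * q') ^ 2 +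
            tau2 d θ * (2 * (p - θ * q) * (p' - θ * q') * q' + (p' - θ * q') ^ 2 * q) +
            tau1 d θ * ((p - θ * q) * q' ^ 2 + 2 * (p' - θ * q') * q * q') +
            3 * tau0 d θ * q * q' ^ 2 := by
          simp only [cc, tau0, tau1, tau2, tau3]; push_cast; ring
        rw [e1, ep, ep', eq1, eq1', t3, t2, t1, t0]
        field_simp
      rw [e]
      have s1 := abs4 k3 lb lb' lb'
      have s2 := abs4 k2 lb lb' la'
      have s3 := abs4 k2 lb' lb' la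
      have s4 := abs4 k1 lb la' la'
      have s5 := abs4 k1 lb' la la'
      have s6 := abs4 k0 la la' la'
      rw [abs_le] at *
      constructor <;> nlinarith
    · have e : (((cc p q p' q' d).2.2.2 : ℤ) : ℝ) = w3 * b' * b' * b' + w2 * b' * b' * a' +
          w1 * b' * a' * a' + w0 * a' * a' * a' := by
        have e1 : (((cc p q p' q' d).2.2.2 : ℤ) : ℝ) = tau3 d * ((p' : ℝ) - θ * q') ^ 3 +
            tau2 d θ * (p' - θ * q') ^ 2 * q' + tau1 d θ * (p' - θ * q') * q' ^ 2 +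
            tau0 d θ * q' ^ 3 := by
          simp only [cc, tau0, tau1, tau2, tau3]; push_cast; ring
        rw [e1, ep', eq1', t3, t2, t1, t0]
        field_simp
      rw [e]
      have s1 := abs4 k3 lb' lb' lb'
      have s2 := abs4 k2 lb' lb' la'
      have s3 := abs4 k1 lb' la' la'
      have s4 := abs4 k0 la' la' la'
      calc _ ≤ |w3 * b' * b' * b'| + |w2 * b' * b' * a'| + |w1 * b' * a' * a'| +
              |w0 * a' * a' * a'| :=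
            (abs_add_le _ _).trans (add_le_add ((abs_add_le _ _).trans
              (add_le_add (abs_add_le _ _) le_rfl)) le_rfl)
        _ ≤ _ := by nlinarith
  have hcard := Finset.card_le_card_of_injOn (cc p q p' q') hsub
    (fun d _ e _ h => cc_inj hdet h)
  have h1 : (S.card : ℝ) ≤ ((Icc (-⌊4 * Γ * ρ ^ 3⌋) ⌊4 * Γ * ρ ^ 3⌋ ×ˢ
      (Icc (-⌊12 * Γ * ρ ^ 2 * ρ'⌋) ⌊12 * Γ * ρ ^ 2 * ρ'⌋ ×ˢ
      (Icc (-⌊12 * Γ * ρ * ρ' ^ 2⌋) ⌊12 * Γ * ρ * ρ' ^ 2⌋ ×ˢ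
      Icc (-⌊4 * Γ * ρ' ^ 3⌋) ⌊4 * Γ * ρ' ^ 3⌋)) : Finset (ℤ × ℤ × ℤ × ℤ)).card : ℝ) := by
    exact_mod_cast hcard
  refine h1.trans ?_
  rw [card_product, card_product, card_product]
  push_cast
  have u0 := card_Icc_le (B := 4 * Γ * ρ ^ 3) (by positivity)
  have u1 := card_Icc_le (B := 12 * Γ * ρ ^ 2 * ρ') (by positivity)
  have u2 := card_Icc_le (B := 12 * Γ * ρ * ρ' ^ 2) (by positivity)
  have u3 := card_Icc_le (B := 4 * Γ * ρ' ^ 3) (by positivity)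
  refine mul_le_mul u0 (mul_le_mul u1 (mul_le_mul u2 u3 (by positivity) (by positivity))
    (by positivity) (by positivity)) (by positivity) (by positivity)

end Pool.Agent.H83HL
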