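import Pool.Agent.TH201.PH.Roots

/-!
# Fourth powers modulo `q`, and the square of the number of divisors on average

`hyperC` … `tau_sq_sum_le` follow `Pool.Agent.H316R2.C2` and `Pool.Agent.H316R2.LS`.
-/

set_option autoImplicit false

namespace Pool.Agent.H83HL

open Finset Pool.Agent.TH201.PH

theorem hyperC {G : Type*} [AddCommMonoid G] (x : ℕ) (g : ℕ → ℕ → G) :
    ∑ n ∈ Icc 1 x, ∑ i ∈ n.divisorsAntidiagonal, g i.1 i.2 =
      ∑ c ∈ Icc 1 x, ∑ b ∈ Icc 1 (x / c), g b c := by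
  rw [sum_sigma', sum_sigma']
  apply sum_nbij' (fun p => (⟨p.2.2, p.2.1⟩ : (_ : ℕ) × ℕ))
    (fun q => (⟨q.2 * q.1, (q.2, q.1)⟩ : (_ : ℕ) × (ℕ × ℕ)))
  · rintro ⟨n, b, c⟩ hp
    simp only [mem_sigma, mem_Icc, Nat.mem_divisorsAntidiagonal] at hp ⊢
    obtain ⟨⟨h1, h2⟩, h3, h4⟩ := hp
    have hb : 0 < b := Nat.pos_of_ne_zero (by rintro rfl; simp at h3; omega)
    have hc : 0 < c := Nat.pos_of_ne_zero (by rintro rfl; simp at h3; omega)
    refine ⟨⟨hc, ?_⟩, hb, ?_⟩
    · have : c ≤ b * c := Nat.le_mul_of_pos_left c hb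
      omega
    · rw [Nat.le_div_iff_mul_le hc]; omega
  · rintro ⟨c, b⟩ hp
    simp only [mem_sigma, mem_Icc, Nat.mem_divisorsAntidiagonal] at hp ⊢
    obtain ⟨⟨h1, h2⟩, h3, h4⟩ := hp
    rw [Nat.le_div_iff_mul_le h1] at h4
    have : 0 < b * c := Nat.mul_pos h3 h1
    exact ⟨⟨this, h4⟩, trivial, this.ne'⟩
  · rintro ⟨n, b, c⟩ hp
    simp only [mem_sigma, mem_Icc, Nat.mem_divisorsAntidiagonal] at hp ⊢
    obtain ⟨⟨h1, h2⟩, h3, h4⟩ := hp
    subst h3
    rfl
  · rintro ⟨c, b⟩ hp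
    rfl
  · rintro ⟨n, b, c⟩ hp
    rfl

theorem harm_sum_le (N : ℕ) : ∑ n ∈ Icc 1 N, (1 : ℝ) / n ≤ 1 + Real.log N := by
  have h := harmonic_le_one_add_log N
  rw [harmonic_eq_sum_Icc] at h
  push_cast at h
  have e : ∑ n ∈ Icc 1 N, (1 / (n:ℝ)) = ∑ n ∈ Icc 1 N, ((n:ℝ))⁻¹ := by simp
  rw [e]; exact h

theorem tau_sum_le (N : ℕ) : ∑ n ∈ Icc 1 N, (n.divisors.card : ℝ) / n ≤ (1 + Real.log N) ^ 2 := by
  have h0 : 0 ≤ Real.log (N:ℝ) := Real.log_natCast_nonneg N
  have h1 : ∑ n ∈ Icc 1 N, (n.divisors.card : ℝ) / n =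
      ∑ n ∈ Icc 1 N, ∑ i ∈ n.divisorsAntidiagonal, (1:ℝ) / (i.1 * i.2) := by
    apply sum_congr rfl
    intro n hn
    have h2 : ∀ i ∈ n.divisorsAntidiagonal, (1:ℝ) / (i.1 * i.2) = 1 / n := by
      intro i hi
      rw [Nat.mem_divisorsAntidiagonal] at hi
      rw [← hi.1]; push_cast; rfl
    rw [sum_congr rfl h2, sum_const, nsmul_eq_mul, ← Nat.map_div_right_divisors, card_map]
    ring
  rw [h1, hyperC N (fun b c => (1:ℝ) / (b * c))]
  calc _ ≤ ∑ c ∈ Icc 1 N, ∑ b ∈ Icc 1 N, (1:ℝ) / (b * c) := by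
        apply sum_le_sum
        intro c hc
        apply sum_le_sum_of_subset_of_nonneg
        · exact Icc_subset_Icc_right (Nat.div_le_self _ _)
        · intro b _ _; positivity
    _ = (∑ c ∈ Icc 1 N, (1:ℝ) / c) ^ 2 := by
        rw [sq, sum_mul_sum]
        apply sum_congr rfl; intro c _
        apply sum_congr rfl; intro b _
        rw [one_div_mul_one_div, mul_comm]
    _ ≤ _ := by
        have := harm_sum_le N
        have h3 : 0 ≤ ∑ c ∈ Icc 1 N, (1:ℝ) / c := sum_nonneg fun _ _ => by positivity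
        gcongr

theorem tau_mul_le (a b : ℕ) : (a * b).divisors.card ≤ a.divisors.card * b.divisors.card := by
  rw [Nat.divisors_mul]
  exact Finset.card_mul_le

theorem tau_sq_sum_le (N : ℕ) :
    ∑ n ∈ Icc 1 N, (n.divisors.card : ℝ) ^ 2 / n ≤ (1 + Real.log N) ^ 4 := by
  have h0 : 0 ≤ Real.log (N:ℝ) := Real.log_natCast_nonneg N
  have h1 : ∑ n ∈ Icc 1 N, (n.divisors.card : ℝ) ^ 2 / n =
      ∑ n ∈ Icc 1 N, ∑ i ∈ n.divisorsAntidiagonal, ((i.1 * i.2).divisors.card : ℝ) / (i.1 * i.2) := by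
    apply sum_congr rfl
    intro n hn
    have h2 : ∀ i ∈ n.divisorsAntidiagonal, ((i.1 * i.2).divisors.card : ℝ) / (i.1 * i.2) =
        (n.divisors.card : ℝ) / n := by
      intro i hi
      rw [Nat.mem_divisorsAntidiagonal] at hi
      rw [← hi.1]; push_cast; rfl
    rw [sum_congr rfl h2, sum_const, nsmul_eq_mul]
    have : (n.divisorsAntidiagonal.card : ℝ) = n.divisors.card := by
      rw [← Nat.map_div_right_divisors, card_map]
    rw [this]
    ring
  rw [h1, hyperC N (fun b c => ((b * c).divisors.card : ℝ) / (b * c))]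
  calc _ ≤ ∑ c ∈ Icc 1 N, ∑ b ∈ Icc 1 N, ((b.divisors.card : ℝ) / b) * ((c.divisors.card : ℝ) / c) := by
        apply sum_le_sum
        intro c hc
        refine le_trans (sum_le_sum_of_subset_of_nonneg (t := Icc 1 N)
          (Icc_subset_Icc_right (Nat.div_le_self _ _)) (fun b _ _ => by positivity)) ?_
        apply sum_le_sum
        intro b _
        rw [div_mul_div_comm]
        gcongr
        exact_mod_cast tau_mul_le b c
    _ = (∑ c ∈ Icc 1 N, (c.divisors.card : ℝ) / c) ^ 2 := by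
        rw [sq, sum_mul_sum]
        rw [sum_comm]
    _ ≤ ((1 + Real.log N) ^ 2) ^ 2 := by
        have := tau_sum_le N
        have h3 : 0 ≤ ∑ c ∈ Icc 1 N, (c.divisors.card : ℝ) / c := sum_nonneg fun _ _ => by positivity
        gcongr
    _ = _ := by ring

theorem two_pow_le {n : ℕ} (hn : n ≠ 0) : 2 ^ n.primeFactors.card ≤ n.divisors.card := by
  rw [Nat.card_divisors hn, ← Finset.prod_const]
  refine Finset.prod_le_prod' fun p hp => ?_
  have h1 : 0 < n.factorization p := by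
    have := Nat.mem_primeFactors.1 hp
    exact this.1.factorization_pos_of_dvd hn this.2.1
  omega

theorem nroots_four (m : ℕ) (hm : m ≠ 0) :
    nroots (ZMod m)ˣ 4 ≤ (if 2 ∣ m then 2 else 1) * 4 ^ m.primeFactors.card := by
  induction m using Nat.recOnPosPrimePosCoprime with
  | prime_pow p n hp hn =>
    rw [Nat.primeFactors_prime_pow hn.ne' hp, card_singleton, pow_one]
    rcases eq_or_ne p 2 with rfl | h2
    · rw [if_pos (dvd_pow_self 2 hn.ne')]
      exact nroots_two_pow n 4 (by norm_num)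
    · have := ZMod.isCyclic_units_of_prime_pow p hp h2 n
      have : NeZero (p ^ n) := ⟨pow_ne_zero _ hp.pos.ne'⟩
      have h := nroots_cyclic (G := (ZMod (p ^ n))ˣ) 4 (by norm_num)
      split_ifs <;> omega
  | zero => exact absurd rfl hm
  | one =>
    have : IsCyclic (ZMod 1)ˣ := ZMod.isCyclic_units_one
    have h : nroots (ZMod 1)ˣ 4 ≤ 1 := by
      unfold nroots
      exact Finite.card_le_one_iff_subsingleton.2 inferInstance
    rw [Nat.primeFactors_one, card_empty, pow_zero]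
    split_ifs <;> omega
  | coprime a b ha hb hab iha ihb =>
    have ha0 : a ≠ 0 := by omega
    have hb0 : b ≠ 0 := by omega
    have : NeZero a := ⟨ha0⟩
    have : NeZero b := ⟨hb0⟩
    have : NeZero (a * b) := ⟨hm⟩
    let e : (ZMod (a * b))ˣ ≃* (ZMod a)ˣ × (ZMod b)ˣ :=
      (Units.mapEquiv (ZMod.chineseRemainder hab).toMulEquiv).trans MulEquiv.prodUnits
    refine (nroots_le_of_injective 4 e.toMonoidHom e.injective).trans ?_
    refine (nroots_prod 4).trans ?_
    rw [hab.primeFactors_mul, card_union_of_disjoint hab.disjoint_primeFactors, pow_add]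
    refine (Nat.mul_le_mul (iha ha0) (ihb hb0)).trans (le_of_eq ?_)
    have h2 : ¬ (2 ∣ a ∧ 2 ∣ b) := by
      rintro ⟨h, h'⟩
      have := Nat.dvd_gcd h h'
      rw [hab] at this
      norm_num at this
    by_cases h3 : 2 ∣ a
    · have h4 : ¬ 2 ∣ b := fun h => h2 ⟨h3, h⟩
      rw [if_pos h3, if_neg h4, if_pos (Dvd.dvd.mul_right h3 b)]
      ring
    · by_cases h4 : 2 ∣ b
      · rw [if_neg h3, if_pos h4, if_pos (Dvd.dvd.mul_left h4 a)]
        ring
      · rw [if_neg h3, if_neg h4, if_neg (by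
          rw [Nat.prime_two.dvd_mul]; tauto)]
        ring

/-- the number of solutions of `p ^ 4 = k` modulo `q` -/
theorem quart_count (q : ℕ) (hq : 1 ≤ q) (k : ℤ) :
    (((range (q + 1)).filter fun p : ℕ => IsCoprime (p : ℤ) (q : ℤ) ∧
      (q : ℤ) ∣ (p : ℤ) ^ 4 - k).card : ℝ) ≤ 3 * (q.divisors.card : ℝ) ^ 2 := by
  classical
  have : NeZero q := ⟨by omega⟩
  set S := (range q).filter fun p : ℕ => IsCoprime (p : ℤ) (q : ℤ) ∧ (q : ℤ) ∣ (p : ℤ) ^ 4 - k
    with hS
  have h1 : ((range (q + 1)).filter fun p : ℕ => IsCoprime (p : ℤ) (q : ℤ) ∧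
      (q : ℤ) ∣ (p : ℤ) ^ 4 - k).card ≤ S.card + 1 := by
    refine (card_le_card (t := insert q S) ?_).trans (card_insert_le _ _)
    intro p hp
    rw [mem_filter, mem_range] at hp
    rw [mem_insert]
    rcases eq_or_ne p q with h | h
    · exact Or.inl h
    · right
      rw [hS, mem_filter, mem_range]
      exact ⟨by omega, hp.2⟩
  have h2 : S.card ≤ 2 * 4 ^ q.primeFactors.card := by
    have hn := nroots_four q (by omega)
    have hn2 : nroots (ZMod q)ˣ 4 ≤ 2 * 4 ^ q.primeFactors.card := by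
      refine hn.trans (Nat.mul_le_mul_right _ ?_)
      split_ifs <;> omega
    refine le_trans ?_ hn2
    rcases S.eq_empty_or_nonempty with he | ⟨p0, hp0⟩
    · rw [he, card_empty]; exact Nat.zero_le _
    have hun : ∀ p : {p // p ∈ S}, IsUnit ((p.1 : ℕ) : ZMod q) := by
      intro p
      have := (mem_filter.1 p.2).2.1
      rw [ZMod.isUnit_iff_coprime]
      exact Nat.isCoprime_iff_coprime.1 this
    have hval : ∀ p : {p // p ∈ S}, ((p.1 : ℕ) : ZMod q) ^ 4 = (k : ZMod q) := by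
      intro p
      have := (mem_filter.1 p.2).2.2
      rw [← ZMod.intCast_zmod_eq_zero_iff_dvd] at this
      push_cast at this
      exact sub_eq_zero.1 this
    unfold nroots
    rw [← Fintype.card_coe, ← Nat.card_eq_fintype_card]
    refine Nat.card_le_card_of_injective (fun p : {p // p ∈ S} =>
      (⟨(hun p).unit * (hun ⟨p0, hp0⟩).unit⁻¹, by
        apply Units.ext
        rw [mul_pow, inv_pow]
        have e : (hun p).unit ^ 4 = (hun ⟨p0, hp0⟩).unit ^ 4 := by
          apply Units.ext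
          push_cast
          rw [IsUnit.unit_spec, IsUnit.unit_spec, hval p, hval ⟨p0, hp0⟩]
        rw [e, mul_inv_cancel]⟩ : {x : (ZMod q)ˣ // x ^ 4 = 1})) ?_
    intro p p' hpp
    have h3 := congrArg (fun z : {x : (ZMod q)ˣ // x ^ 4 = 1} => z.1) hpp
    simp only at h3
    have h4 : (hun p).unit = (hun p').unit := mul_right_cancel h3
    have h5 : ((p.1 : ℕ) : ZMod q) = ((p'.1 : ℕ) : ZMod q) := by
      have := congrArg (fun z : (ZMod q)ˣ => (z : ZMod q)) h4
      simpa using this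
    have h6 := (ZMod.natCast_eq_natCast_iff' _ _ _).1 h5
    have l1 : p.1 < q := mem_range.1 (mem_filter.1 p.2).1
    have l2 : p'.1 < q := mem_range.1 (mem_filter.1 p'.2).1
    rw [Nat.mod_eq_of_lt l1, Nat.mod_eq_of_lt l2] at h6
    exact Subtype.ext h6
  have h3 : 2 ^ q.primeFactors.card ≤ q.divisors.card := two_pow_le (by omega)
  have h4 : 4 ^ q.primeFactors.card ≤ q.divisors.card ^ 2 := by
    calc 4 ^ q.primeFactors.card = (2 ^ q.primeFactors.card) ^ 2 := by
          rw [← pow_mul, mul_comm, pow_mul]; norm_num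
      _ ≤ _ := Nat.pow_le_pow_left h3 2
  have h5 : 1 ≤ 4 ^ q.primeFactors.card := Nat.one_le_pow _ _ (by norm_num)
  have h6 : ((range (q + 1)).filter fun p : ℕ => IsCoprime (p : ℤ) (q : ℤ) ∧
      (q : ℤ) ∣ (p : ℤ) ^ 4 - k).card ≤ 3 * q.divisors.card ^ 2 := by omega
  exact_mod_cast h6

end Pool.Agent.H83HL
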