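import Pool.Agent.H83HL.Arc
import Pool.Agent.H83HL.Cub
import Pool.Agent.H83HL.Tau

/-!
# Sums over the arcs
-/

set_option autoImplicit false

namespace Pool.Agent.H83HL

open Finset

theorem arc_sum {K : ℕ} {κ : ℝ} (hκ1 : 1 ≤ κ) (hκ : κ ^ 2 = K) {r : ℝ} (hr : 0 < r) (hr1 : r ≤ 1)
    {Z : ℝ} (hZ : 0 ≤ Z) (S : Finset ℕ) (p q : ℕ → ℕ) (T : ℕ → Finset ℤ)
    (hS : ∀ j ∈ S, 1 ≤ q j ∧ p j ≤ q j ∧ IsCoprime (p j : ℤ) (q j : ℤ) ∧ (q j : ℝ) ≤ r * κ ∧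
      |(q j : ℝ) * ((j : ℝ) / K) - p j| ≤ r / κ)
    (hT : ∀ j ∈ S, ∀ k ∈ T j, k ≠ 0 ∧ |(k : ℝ)| ≤ Z ∧ (q j : ℤ) ∣ (p j : ℤ) ^ 4 - k) :
    ∑ j ∈ S, ((T j).card : ℝ) ≤ 18 * r * κ * Z * (1 + Real.log κ) ^ 4 := by
  classical
  have hκ0 : 0 < κ := by linarith
  have hK0 : (0 : ℝ) < K := by rw [← hκ]; positivity
  set n := ⌊r * κ⌋₊ with hn
  have hnr : (n : ℝ) ≤ r * κ := Nat.floor_le (by positivity)
  set KK : Finset ℤ := (Icc (-⌊Z⌋) ⌊Z⌋).erase 0 with hKK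
  set P : ℕ → ℤ → Finset ℕ := fun q k => (range (q + 1)).filter fun p : ℕ =>
    IsCoprime (p : ℤ) (q : ℤ) ∧ (q : ℤ) ∣ (p : ℤ) ^ 4 - k with hP
  set f : ℕ → ℕ → ℕ → ℝ := fun q p j => if |(q : ℝ) * ((j : ℝ) / K) - p| ≤ r / κ then 1 else 0
    with hf
  have hf0 : ∀ q p j, 0 ≤ f q p j := by
    intro q p j; simp only [hf]; split_ifs <;> norm_num
  have hKKcard : (KK.card : ℝ) ≤ 2 * Z := by
    have h0 : 0 ≤ ⌊Z⌋ := Int.floor_nonneg.2 hZ
    have hmem : (0 : ℤ) ∈ Icc (-⌊Z⌋) ⌊Z⌋ := mem_Icc.2 ⟨by omega, h0⟩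
    have h1 : KK.card + 1 = (Icc (-⌊Z⌋) ⌊Z⌋).card := card_erase_add_one hmem
    have h2 := card_Icc_le hZ
    rw [← h1] at h2
    push_cast at h2
    linarith
  have hstep : ∀ j ∈ S, ((T j).card : ℝ) ≤
      ∑ Q ∈ Icc 1 n, ∑ k ∈ KK, ∑ p' ∈ P Q k, f Q p' j := by
    intro j hj
    obtain ⟨h1, h2, h3, h4, h5⟩ := hS j hj
    have hQ : q j ∈ Icc 1 n := mem_Icc.2 ⟨h1, Nat.le_floor h4⟩
    refine le_trans ?_ (single_le_sum (f := fun Q => ∑ k ∈ KK, ∑ p' ∈ P Q k, f Q p' j)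
      (fun Q _ => sum_nonneg fun k _ => sum_nonneg fun p' _ => hf0 _ _ _) hQ)
    have hTK : T j ⊆ KK := by
      intro k hk
      obtain ⟨t1, t2, -⟩ := hT j hj k hk
      exact mem_erase.2 ⟨t1, mem_Icc_of_abs t2⟩
    calc ((T j).card : ℝ) = ∑ k ∈ T j, (1 : ℝ) := by rw [sum_const, nsmul_eq_mul, mul_one]
      _ ≤ ∑ k ∈ T j, ∑ p' ∈ P (q j) k, f (q j) p' j := by
          refine sum_le_sum fun k hk => ?_
          obtain ⟨t1, t2, t3⟩ := hT j hj k hk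
          have hp : p j ∈ P (q j) k := mem_filter.2 ⟨mem_range.2 (by omega), h3, t3⟩
          refine le_trans ?_ (single_le_sum (f := fun p' => f (q j) p' j)
            (fun p' _ => hf0 _ _ _) hp)
          simp only [hf]
          rw [if_pos h5]
      _ ≤ ∑ k ∈ KK, ∑ p' ∈ P (q j) k, f (q j) p' j :=
          sum_le_sum_of_subset_of_nonneg hTK fun k _ _ => sum_nonneg fun p' _ => hf0 _ _ _
  have hpiece : ∀ Q ∈ Icc 1 n, ∀ p' : ℕ, ∑ j ∈ S, f Q p' j ≤ 3 * (r * κ) / Q := by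
    intro Q hQ p'
    have hq1 : 1 ≤ Q := (mem_Icc.1 hQ).1
    have hq0 : (0 : ℝ) < Q := by exact_mod_cast hq1
    have hqn : (Q : ℝ) ≤ r * κ := le_trans (by exact_mod_cast (mem_Icc.1 hQ).2) hnr
    simp only [hf]
    rw [← sum_filter, sum_const, nsmul_eq_mul, mul_one]
    have h1 := nat_card (S := S.filter fun j : ℕ => |(Q : ℝ) * ((j : ℝ) / K) - p'| ≤ r / κ)
      (c := p' * K / Q) (w := r * κ / Q) (by positivity) (by
        intro k hk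
        have h := (mem_filter.1 hk).2
        have e : (k : ℝ) - p' * K / Q = ((Q : ℝ) * (k / K) - p') * (K / Q) := by
          field_simp
        rw [e, abs_mul, abs_of_pos (by positivity : (0 : ℝ) < K / Q)]
        calc |(Q : ℝ) * (k / K) - p'| * (K / Q) ≤ r / κ * (K / Q) :=
              mul_le_mul_of_nonneg_right h (by positivity)
          _ = r * κ / Q := by rw [← hκ]; field_simp)
    have h2 : (1 : ℝ) ≤ r * κ / Q := by rw [one_le_div hq0]; exact hqn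
    calc _ ≤ 2 * (r * κ / Q) + 1 := h1
      _ ≤ 3 * (r * κ) / Q := by
          have e : 3 * (r * κ) / (Q : ℝ) = 3 * (r * κ / Q) := by ring
          rw [e]; linarith
  have hlog : ∑ Q ∈ Icc 1 n, (Q.divisors.card : ℝ) ^ 2 / Q ≤ (1 + Real.log κ) ^ 4 := by
    rcases Nat.eq_zero_or_pos n with h0 | h0
    · rw [h0]
      simp only [show Icc 1 0 = (∅ : Finset ℕ) from rfl, sum_empty]
      have := Real.log_nonneg hκ1
      positivity
    · refine (tau_sq_sum_le n).trans ?_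
      have h1 : (n : ℝ) ≤ κ := hnr.trans (by nlinarith)
      have h2 : Real.log n ≤ Real.log κ := Real.log_le_log (by exact_mod_cast h0) h1
      have h3 := Real.log_natCast_nonneg n
      exact pow_le_pow_left₀ (by linarith) (by linarith) 4
  calc ∑ j ∈ S, ((T j).card : ℝ) ≤ ∑ j ∈ S, ∑ Q ∈ Icc 1 n, ∑ k ∈ KK, ∑ p' ∈ P Q k, f Q p' j :=
        sum_le_sum hstep
    _ = ∑ Q ∈ Icc 1 n, ∑ k ∈ KK, ∑ p' ∈ P Q k, ∑ j ∈ S, f Q p' j := by
        rw [sum_comm]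
        refine sum_congr rfl fun Q _ => ?_
        rw [sum_comm]
        refine sum_congr rfl fun k _ => ?_
        rw [sum_comm]
    _ ≤ ∑ Q ∈ Icc 1 n, ∑ k ∈ KK, 3 * (Q.divisors.card : ℝ) ^ 2 * (3 * (r * κ) / Q) := by
        refine sum_le_sum fun Q hQ => sum_le_sum fun k _ => ?_
        calc ∑ p' ∈ P Q k, ∑ j ∈ S, f Q p' j ≤ ∑ p' ∈ P Q k, 3 * (r * κ) / Q :=
              sum_le_sum fun p' _ => hpiece Q hQ p'
          _ = ((P Q k).card : ℝ) * (3 * (r * κ) / Q) := by rw [sum_const, nsmul_eq_mul]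
          _ ≤ _ := mul_le_mul_of_nonneg_right (quart_count Q (mem_Icc.1 hQ).1 k) (by positivity)
    _ = KK.card * (9 * (r * κ)) * ∑ Q ∈ Icc 1 n, (Q.divisors.card : ℝ) ^ 2 / Q := by
        rw [mul_sum]
        refine sum_congr rfl fun Q _ => ?_
        rw [sum_const, nsmul_eq_mul]
        ring
    _ ≤ (2 * Z) * (9 * (r * κ)) * (1 + Real.log κ) ^ 4 := by
        refine mul_le_mul (mul_le_mul_of_nonneg_right hKKcard (by positivity)) hlog ?_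
          (by positivity)
        exact sum_nonneg fun Q _ => by positivity
    _ = 18 * r * κ * Z * (1 + Real.log κ) ^ 4 := by ring

theorem weighted {S : Finset ℕ} {ρ a : ℕ → ℝ} {A ρ0 : ℝ} (hA : 0 ≤ A) (h0 : 0 < ρ0)
    (ha : ∀ j ∈ S, 0 ≤ a j) (hρ : ∀ j ∈ S, 0 < ρ j ∧ ρ j ≤ ρ0)
    (hs : ∀ r, 0 < r → r ≤ ρ0 → ∑ j ∈ S.filter (fun j => ρ j ≤ r), a j ≤ A * r ^ 5) :
    ∑ j ∈ S, a j * (1 / ρ j ^ 4) ≤ 32 * A * ρ0 := by
  classical
  have hex : ∀ j ∈ S, ∃ n : ℕ, (1 / 2 : ℝ) ^ (n + 1) < ρ j / ρ0 ∧ ρ j / ρ0 ≤ (1 / 2) ^ n := by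
    intro j hj
    obtain ⟨h1, h2⟩ := hρ j hj
    exact exists_nat_pow_near_of_lt_one (by positivity) ((div_le_one h0).2 h2) (by norm_num)
      (by norm_num)
  choose! i hi1 hi2 using hex
  set I := S.sup i with hI
  have hone : ∀ j ∈ S, a j * (1 / ρ j ^ 4) ≤
      ∑ t ∈ range (I + 1), if ρ j ≤ ρ0 * (1 / 2) ^ t then a j * (16 * 16 ^ t / ρ0 ^ 4) else 0 := by
    intro j hj
    obtain ⟨h1, h2⟩ := hρ j hj
    have hle : i j ≤ I := le_sup (f := i) hj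
    have hc : ρ j ≤ ρ0 * (1 / 2) ^ (i j) := by
      have := (div_le_iff₀ h0).1 (hi2 j hj)
      linarith
    refine le_trans ?_ (single_le_sum
      (f := fun t => if ρ j ≤ ρ0 * (1 / 2) ^ t then a j * (16 * 16 ^ t / ρ0 ^ 4) else 0)
      (fun t _ => by
        have := ha j hj
        split_ifs <;> positivity) (mem_range.2 (Nat.lt_succ_of_le hle)))
    rw [if_pos hc]
    refine mul_le_mul_of_nonneg_left ?_ (ha j hj)
    have hlow : ρ0 * (1 / 2) ^ (i j + 1) ≤ ρ j := by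
      have := (lt_div_iff₀ h0).1 (hi1 j hj)
      linarith
    have h4 : (ρ0 * (1 / 2) ^ (i j + 1)) ^ 4 ≤ ρ j ^ 4 :=
      pow_le_pow_left₀ (by positivity) hlow 4
    have e : (ρ0 * (1 / 2) ^ (i j + 1)) ^ 4 * (16 * 16 ^ (i j)) = ρ0 ^ 4 := by
      have e1 : ((1 / 2 : ℝ) ^ (i j + 1)) ^ 4 = (1 / 16) ^ (i j + 1) := by
        rw [← pow_mul, mul_comm, pow_mul]; norm_num
      rw [mul_pow, e1, mul_assoc, ← pow_succ', ← mul_pow]
      norm_num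
    rw [div_le_div_iff₀ (by positivity) (by positivity), one_mul]
    calc ρ0 ^ 4 = (ρ0 * (1 / 2) ^ (i j + 1)) ^ 4 * (16 * 16 ^ (i j)) := e.symm
      _ ≤ ρ j ^ 4 * (16 * 16 ^ (i j)) := mul_le_mul_of_nonneg_right h4 (by positivity)
      _ = 16 * 16 ^ (i j) * ρ j ^ 4 := by ring
  calc ∑ j ∈ S, a j * (1 / ρ j ^ 4) ≤ ∑ j ∈ S, ∑ t ∈ range (I + 1),
        (if ρ j ≤ ρ0 * (1 / 2) ^ t then a j * (16 * 16 ^ t / ρ0 ^ 4) else 0) := sum_le_sum hone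
    _ = ∑ t ∈ range (I + 1), ∑ j ∈ S,
        (if ρ j ≤ ρ0 * (1 / 2) ^ t then a j * (16 * 16 ^ t / ρ0 ^ 4) else 0) := sum_comm
    _ ≤ ∑ t ∈ range (I + 1), 16 * A * ρ0 * (1 / 2) ^ t := by
        refine sum_le_sum fun t _ => ?_
        rw [← sum_filter, ← sum_mul]
        have hr0 : 0 < ρ0 * (1 / 2) ^ t := by positivity
        have hr1 : ρ0 * (1 / 2) ^ t ≤ ρ0 :=
          mul_le_of_le_one_right h0.le (pow_le_one₀ (by norm_num) (by norm_num))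
        calc _ ≤ A * (ρ0 * (1 / 2) ^ t) ^ 5 * (16 * 16 ^ t / ρ0 ^ 4) :=
              mul_le_mul_of_nonneg_right (hs _ hr0 hr1) (by positivity)
          _ = 16 * A * ρ0 * (1 / 2) ^ t := by
              have e1 : ((1 / 2 : ℝ) ^ t) ^ 5 * 16 ^ t = (1 / 2) ^ t := by
                rw [← pow_mul, mul_comm t 5, pow_mul, ← mul_pow]; norm_num
              calc A * (ρ0 * (1 / 2) ^ t) ^ 5 * (16 * 16 ^ t / ρ0 ^ 4) =
                  16 * A * ρ0 * (((1 / 2 : ℝ) ^ t) ^ 5 * 16 ^ t) := by field_simp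
                _ = _ := by rw [e1]
    _ = 16 * A * ρ0 * ∑ t ∈ range (I + 1), (1 / 2 : ℝ) ^ t := by rw [mul_sum]
    _ ≤ 16 * A * ρ0 * 2 := by
        refine mul_le_mul_of_nonneg_left ?_ (by positivity)
        rw [geom_sum_eq (by norm_num)]
        have : (0 : ℝ) < (1 / 2) ^ (I + 1) := by positivity
        have e : ((1 / 2 : ℝ) ^ (I + 1) - 1) / (1 / 2 - 1) = 2 - 2 * (1 / 2) ^ (I + 1) := by ring
        rw [e]; linarith
    _ = 32 * A * ρ0 := by ring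

end Pool.Agent.H83HL
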