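import Mathlib

/-!
# Integral points of Weierstrass curves: the quartic of a point near the square root of the abscissa

For an integral point `(x, y)` of `y ^ 2 = x ^ 3 + A x + B` let
`F(U) = U ^ 4 - 6 x U ^ 2 + 8 y U - 4 A - 3 x ^ 2`. It is very small near `U = √x`.
-/

set_option autoImplicit false

namespace Pool.Agent.H83HL

/-- the coordinates of a point relative to the integer `m` -/
def jj (m x : ℤ) : ℤ := x - m ^ 2
def tt (m x y : ℤ) : ℤ := 2 * y - 2 * m ^ 3 - 3 * m * jj m x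
def vv (m A x y : ℤ) : ℤ := 4 * A - 4 * m * tt m x y + 3 * jj m x ^ 2

/-- Taylor coefficients at `θ` of the cubic `d3 u ^ 3 + d2 u ^ 2 + d1 u + d0` -/
noncomputable def tau0 (d : ℤ × ℤ × ℤ × ℤ) (θ : ℝ) : ℝ :=
  d.1 * θ ^ 3 + d.2.1 * θ ^ 2 + d.2.2.1 * θ + d.2.2.2
noncomputable def tau1 (d : ℤ × ℤ × ℤ × ℤ) (θ : ℝ) : ℝ :=
  3 * d.1 * θ ^ 2 + 2 * d.2.1 * θ + d.2.2.1
noncomputable def tau2 (d : ℤ × ℤ × ℤ × ℤ) (θ : ℝ) : ℝ := 3 * d.1 * θ + d.2.1
noncomputable def tau3 (d : ℤ × ℤ × ℤ × ℤ) : ℝ := d.1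

/-- the cubic of a point -/
def dd (m A x y : ℤ) : ℤ × ℤ × ℤ × ℤ := (4 * m, -6 * jj m x, 4 * tt m x y, -vv m A x y)

theorem dd_inj {m A x y m' A' x' y' : ℤ} (h : dd m A x y = dd m' A' x' y') :
    m = m' ∧ A = A' ∧ x = x' ∧ y = y' := by
  simp only [dd, Prod.mk.injEq] at h
  obtain ⟨h1, h2, h3, h4⟩ := h
  have e1 : m = m' := by omega
  subst e1
  have e2 : jj m x = jj m x' := by omega
  have e3 : tt m x y = tt m x' y' := by omega
  have e4 : vv m A x y = vv m A' x' y' := by omega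
  have e5 : x = x' := by unfold jj at e2; linarith
  subst e5
  have e6 : y = y' := by unfold tt at e3; linarith
  subst e6
  have e7 : A = A' := by unfold vv at e4; linarith
  exact ⟨rfl, e7, rfl, rfl⟩

/-- the value of the quartic at `m + θ` -/
theorem val0 (m A x y : ℤ) (θ : ℝ) :
    θ ^ 4 + tau0 (dd m A x y) θ =
      ((m : ℝ) + θ) ^ 4 - 6 * x * (m + θ) ^ 2 + 8 * y * (m + θ) - 4 * A - 3 * (x : ℝ) ^ 2 := by
  simp only [tau0, dd, jj, tt, vv]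
  push_cast
  ring

theorem val1 (m A x y : ℤ) (θ : ℝ) :
    4 * θ ^ 3 + tau1 (dd m A x y) θ =
      4 * ((m : ℝ) + θ) ^ 3 - 12 * x * (m + θ) + 8 * y := by
  simp only [tau1, dd, jj, tt]
  push_cast
  ring

theorem val2 (m A x y : ℤ) (θ : ℝ) :
    6 * θ ^ 2 + tau2 (dd m A x y) θ = 6 * ((m : ℝ) + θ) ^ 2 - 6 * x := by
  simp only [tau2, dd, jj]
  push_cast
  ring

/-- the basic estimate: the distance from `y` to `x ^ (3 / 2)` -/
theorem eta_bound {A B x y s R : ℝ} (hs : 1 ≤ s) (hx : s ^ 2 = x) (hy : 0 ≤ y)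
    (hc : y ^ 2 = x ^ 3 + A * x + B) (hA : |A| ≤ R ^ 2) (hB : |B| ≤ R ^ 3) (hR : 0 < R)
    (hRs : R ≤ s) :
    |y - s ^ 3| ≤ 2 * R ^ 2 / s ∧ |8 * (y - s ^ 3) * s - 4 * A| ≤ 16 * R ^ 3 / s ^ 2 := by
  have hs0 : 0 < s := by linarith
  subst hx
  set η := y - s ^ 3 with hη
  have hw : s ^ 3 ≤ y + s ^ 3 := by linarith
  have hw0 : 0 < y + s ^ 3 := by positivity
  have e1 : η * (y + s ^ 3) = A * s ^ 2 + B := by
    rw [hη]; nlinarith [hc]
  have hA' := abs_le.1 hA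
  have hB' := abs_le.1 hB
  have hRs2 : R ≤ s ^ 2 := by nlinarith
  have b1 : |A * s ^ 2 + B| ≤ 2 * R ^ 2 * s ^ 2 := by
    have : R ^ 3 ≤ R ^ 2 * s ^ 2 := by nlinarith [mul_le_mul_of_nonneg_left hRs2 (sq_nonneg R)]
    have h1 : |A * s ^ 2| ≤ R ^ 2 * s ^ 2 := by
      rw [abs_mul, abs_of_nonneg (sq_nonneg s)]
      exact mul_le_mul_of_nonneg_right hA (sq_nonneg s)
    calc |A * s ^ 2 + B| ≤ |A * s ^ 2| + |B| := abs_add_le _ _
      _ ≤ R ^ 2 * s ^ 2 + R ^ 3 := add_le_add h1 hB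
      _ ≤ 2 * R ^ 2 * s ^ 2 := by linarith
  have b2 : |η| * s ^ 3 ≤ 2 * R ^ 2 * s ^ 2 := by
    calc |η| * s ^ 3 ≤ |η| * (y + s ^ 3) := mul_le_mul_of_nonneg_left hw (abs_nonneg _)
      _ = |η * (y + s ^ 3)| := by rw [abs_mul, abs_of_pos hw0]
      _ = |A * s ^ 2 + B| := by rw [e1]
      _ ≤ _ := b1
  have b3 : |η| ≤ 2 * R ^ 2 / s := by
    rw [le_div_iff₀ hs0]
    have : |η| * s * s ^ 2 ≤ 2 * R ^ 2 * s ^ 2 := by nlinarith [b2]
    exact le_of_mul_le_mul_right this (by positivity)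
  refine ⟨b3, ?_⟩
  have e2 : (8 * η * s - 4 * A) * (y + s ^ 3) = 8 * s * B - 4 * A * η := by
    have : y + s ^ 3 = 2 * s ^ 3 + η := by rw [hη]; ring
    have e3 : 8 * s * (η * (y + s ^ 3)) = 8 * s * (A * s ^ 2 + B) := by rw [e1]
    calc (8 * η * s - 4 * A) * (y + s ^ 3) = 8 * s * (η * (y + s ^ 3)) - 4 * A * (y + s ^ 3) := by ring
      _ = 8 * s * (A * s ^ 2 + B) - 4 * A * (2 * s ^ 3 + η) := by rw [e3, this]
      _ = 8 * s * B - 4 * A * η := by ring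
  have b4 : |8 * s * B - 4 * A * η| ≤ 16 * R ^ 3 * s := by
    have h1 : |8 * s * B| ≤ 8 * s * R ^ 3 := by
      rw [abs_mul, abs_of_pos (by positivity : 0 < 8 * s)]
      exact mul_le_mul_of_nonneg_left hB (by positivity)
    have h2 : |4 * A * η| ≤ 8 * R ^ 3 * s := by
      rw [abs_mul, abs_mul, abs_of_pos (by norm_num : (0 : ℝ) < 4)]
      have h3 : |A| * |η| ≤ R ^ 2 * (2 * R ^ 2 / s) :=
        mul_le_mul hA b3 (abs_nonneg _) (sq_nonneg R)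
      have h4 : R ^ 2 * (2 * R ^ 2 / s) ≤ 2 * R ^ 3 * s := by
        rw [mul_div_assoc', div_le_iff₀ hs0]
        have : R ^ 3 * R ≤ R ^ 3 * s ^ 2 := mul_le_mul_of_nonneg_left hRs2 (by positivity)
        nlinarith
      nlinarith
    calc |8 * s * B - 4 * A * η| ≤ |8 * s * B| + |4 * A * η| := abs_sub _ _
      _ ≤ _ := by linarith
  have b5 : |8 * η * s - 4 * A| * s ^ 3 ≤ 16 * R ^ 3 * s := by
    calc |8 * η * s - 4 * A| * s ^ 3 ≤ |8 * η * s - 4 * A| * (y + s ^ 3) :=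
          mul_le_mul_of_nonneg_left hw (abs_nonneg _)
      _ = |(8 * η * s - 4 * A) * (y + s ^ 3)| := by rw [abs_mul, abs_of_pos hw0]
      _ = |8 * s * B - 4 * A * η| := by rw [e2]
      _ ≤ _ := b4
  rw [le_div_iff₀ (by positivity)]
  have : |8 * η * s - 4 * A| * s ^ 2 * s ≤ 16 * R ^ 3 * s := by nlinarith [b5]
  exact le_of_mul_le_mul_right this hs0

end Pool.Agent.H83HL
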