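import Pool.Agent.H83HL.Near
import Pool.Agent.H83HL.Cub
import Pool.Agent.H83HL.Arc

/-!
# Integral points in one arc, with a prescribed value of the quartic at the centre
-/

set_option autoImplicit false

namespace Pool.Agent.H83HL

open Finset

theorem cub_mem {p q p' q' : ℤ} {κ θ ρ ρ' G : ℝ} (hκ : 0 < κ)
    (ha : |(q : ℝ) / κ| ≤ ρ) (hb : |κ * (q * θ - p)| ≤ ρ)
    (ha' : |(q' : ℝ) / κ| ≤ ρ') (hb' : |κ * (q' * θ - p')| ≤ ρ') (hG : 0 ≤ G)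
    {d : ℤ × ℤ × ℤ × ℤ} (h0 : |tau0 d θ| ≤ G) (h1 : |tau1 d θ| ≤ G * κ ^ 2)
    (h2 : |tau2 d θ| ≤ G * κ ^ 4) (h3 : |tau3 d| ≤ G * κ ^ 6) :
    |(((cc p q p' q' d).1 : ℤ) : ℝ)| ≤ 4 * (G * κ ^ 3) * ρ ^ 3 ∧
    |(((cc p q p' q' d).2.1 : ℤ) : ℝ)| ≤ 12 * (G * κ ^ 3) * ρ ^ 2 * ρ' ∧
    |(((cc p q p' q' d).2.2.1 : ℤ) : ℝ)| ≤ 12 * (G * κ ^ 3) * ρ * ρ' ^ 2 ∧
    |(((cc p q p' q' d).2.2.2 : ℤ) : ℝ)| ≤ 4 * (G * κ ^ 3) * ρ' ^ 3 := by
  have hρ : 0 ≤ ρ := (abs_nonneg _).trans ha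
  have hρ' : 0 ≤ ρ' := (abs_nonneg _).trans ha'
  set Γ : ℝ := G * κ ^ 3 with hΓ
  have hΓ0 : 0 ≤ Γ := by positivity
  -- normalised quantities
  obtain ⟨w3, hw3⟩ : ∃ w3, w3 = tau3 d / κ ^ 3 := ⟨_, rfl⟩
  obtain ⟨w2, hw2⟩ : ∃ w2, w2 = tau2 d θ / κ := ⟨_, rfl⟩
  obtain ⟨w1, hw1⟩ : ∃ w1, w1 = tau1 d θ * κ := ⟨_, rfl⟩
  obtain ⟨w0, hw0⟩ : ∃ w0, w0 = tau0 d θ * κ ^ 3 := ⟨_, rfl⟩
  have k3 : |w3| ≤ Γ := by
    rw [hw3, abs_div, abs_of_pos (by positivity : 0 < κ ^ 3), div_le_iff₀ (by positivity)]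
    calc |tau3 d| ≤ G * κ ^ 6 := h3
      _ = Γ * κ ^ 3 := by rw [hΓ]; ring
  have k2 : |w2| ≤ Γ := by
    rw [hw2, abs_div, abs_of_pos hκ, div_le_iff₀ hκ]
    calc |tau2 d θ| ≤ G * κ ^ 4 := h2
      _ = Γ * κ := by rw [hΓ]; ring
  have k1 : |w1| ≤ Γ := by
    rw [hw1, abs_mul, abs_of_pos hκ]
    calc |tau1 d θ| * κ ≤ G * κ ^ 2 * κ := mul_le_mul_of_nonneg_right h1 hκ.le
      _ = Γ := by rw [hΓ]; ring
  have k0 : |w0| ≤ Γ := by
    rw [hw0, abs_mul, abs_of_pos (by positivity : 0 < κ ^ 3)]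
    exact mul_le_mul_of_nonneg_right h0 (by positivity)
  obtain ⟨a, hadef⟩ : ∃ a, a = (q : ℝ) / κ := ⟨_, rfl⟩
  obtain ⟨a', hadef'⟩ : ∃ a', a' = (q' : ℝ) / κ := ⟨_, rfl⟩
  obtain ⟨b, hbdef⟩ : ∃ b, b = -(κ * (q * θ - p)) := ⟨_, rfl⟩
  obtain ⟨b', hbdef'⟩ : ∃ b', b' = -(κ * (q' * θ - p')) := ⟨_, rfl⟩
  have la : |a| ≤ ρ := by rw [hadef]; exact ha
  have la' : |a'| ≤ ρ' := by rw [hadef']; exact ha'
  have lb : |b| ≤ ρ := by rw [hbdef, abs_neg]; exact hb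
  have lb' : |b'| ≤ ρ' := by rw [hbdef', abs_neg]; exact hb'
  have t3 : tau3 d = w3 * κ ^ 3 := by rw [hw3]; field_simp
  have t2 : tau2 d θ = w2 * κ := by rw [hw2]; field_simp
  have t1 : tau1 d θ = w1 / κ := by rw [hw1]; field_simp
  have t0 : tau0 d θ = w0 / κ ^ 3 := by rw [hw0]; field_simp
  have eq1 : (q : ℝ) = a * κ := by rw [hadef]; field_simp
  have eq1' : (q' : ℝ) = a' * κ := by rw [hadef']; field_simp
  have ep : (p : ℝ) - θ * q = b / κ := by rw [hbdef]; field_simp; ring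
  have ep' : (p' : ℝ) - θ * q' = b' / κ := by rw [hbdef']; field_simp; ring
  refine ⟨?_, ?_, ?_, ?_⟩
  · have e : (((cc p q p' q' d).1 : ℤ) : ℝ) = w3 * b * b * b + w2 * b * b * a + w1 * b * a * a +
        w0 * a * a * a := by
      have e1 : (((cc p q p' q' d).1 : ℤ) : ℝ) = tau3 d * ((p : ℝ) - θ * q) ^ 3 +
          tau2 d θ * (p - θ * q) ^ 2 * q + tau1 d θ * (p - θ * q) * q ^ 2 + tau0 d θ * q ^ 3 := by
        simp only [cc, tau0, tau1, tau2, tau3]; push_cast; ring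
      rw [e1, ep, eq1, t3, t2, t1, t0]
      field_simp
    rw [e]
    have s1 := abs4 k3 lb lb lb
    have s2 := abs4 k2 lb lb la
    have s3 := abs4 k1 lb la la
    have s4 := abs4 k0 la la la
    calc _ ≤ |w3 * b * b * b| + |w2 * b * b * a| + |w1 * b * a * a| + |w0 * a * a * a| :=
          (abs_add_le _ _).trans (add_le_add ((abs_add_le _ _).trans
            (add_le_add (abs_add_le _ _) le_rfl)) le_rfl)
      _ ≤ _ := by nlinarith
  · have e : (((cc p q p' q' d).2.1 : ℤ) : ℝ) = 3 * (w3 * b * b * b') + (w2 * b * b * a' +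
        2 * (w2 * b * b' * a)) + (2 * (w1 * b * a * a') + w1 * b' * a * a) +
        3 * (w0 * a * a * a') := by
      have e1 : (((cc p q p' q' d).2.1 : ℤ) : ℝ) =
          3 * tau3 d * ((p : ℝ) - θ * q) ^ 2 * (p' - θ * q') +
          tau2 d θ * ((p - θ * q) ^ 2 * q' + 2 * (p - θ * q) * (p' - θ * q') * q) +
          tau1 d θ * (2 * (p - θ * q) * q * q' + (p' - θ * q') * q ^ 2) +
          3 * tau0 d θ * q ^ 2 * q' := by
        simp only [cc, tau0, tau1, tau2, tau3]; push_cast; ring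
      rw [e1, ep, ep', eq1, eq1', t3, t2, t1, t0]
      field_simp
    rw [e]
    have s1 := abs4 k3 lb lb lb'
    have s2 := abs4 k2 lb lb la'
    have s3 := abs4 k2 lb lb' la
    have s4 := abs4 k1 lb la la'
    have s5 := abs4 k1 lb' la la
    have s6 := abs4 k0 la la la'
    rw [abs_le] at *
    constructor <;> nlinarith
  · have e : (((cc p q p' q' d).2.2.1 : ℤ) : ℝ) = 3 * (w3 * b * b' * b') +
        (2 * (w2 * b * b' * a') + w2 * b' * b' * a) + (w1 * b * a' * a' +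
        2 * (w1 * b' * a * a')) + 3 * (w0 * a * a' * a') := by
      have e1 : (((cc p q p' q' d).2.2.1 : ℤ) : ℝ) =
          3 * tau3 d * ((p : ℝ) - θ * q) * (p' - θ * q') ^ 2 +
          tau2 d θ * (2 * (p - θ * q) * (p' - θ * q') * q' + (p' - θ * q') ^ 2 * q) +
          tau1 d θ * ((p - θ * q) * q' ^ 2 + 2 * (p' - θ * q') * q * q') +
          3 * tau0 d θ * q * q' ^ 2 := by
        simp only [cc, tau0, tau1, tau2, tau3]; push_cast; ring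
      rw [e1, ep, ep', eq1, eq1', t3, t2, t1, t0]
      field_simp
    rw [e]
    have s1 := abs4 k3 lb lb' lb'
    have s2 := abs4 k2 lb lb' la'
    have s3 := abs4 k2 lb' lb' la
    have s4 := abs4 k1 lb la' la'
    have s5 := abs4 k1 lb' la la'
    have s6 := abs4 k0 la la' la'
    rw [abs_le] at *
    constructor <;> nlinarith
  · have e : (((cc p q p' q' d).2.2.2 : ℤ) : ℝ) = w3 * b' * b' * b' + w2 * b' * b' * a' +
        w1 * b' * a' * a' + w0 * a' * a' * a' := by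
      have e1 : (((cc p q p' q' d).2.2.2 : ℤ) : ℝ) = tau3 d * ((p' : ℝ) - θ * q') ^ 3 +
          tau2 d θ * (p' - θ * q') ^ 2 * q' + tau1 d θ * (p' - θ * q') * q' ^ 2 +
          tau0 d θ * q' ^ 3 := by
        simp only [cc, tau0, tau1, tau2, tau3]; push_cast; ring
      rw [e1, ep', eq1', t3, t2, t1, t0]
      field_simp
    rw [e]
    have s1 := abs4 k3 lb' lb' lb'
    have s2 := abs4 k2 lb' lb' la'
    have s3 := abs4 k1 lb' la' la'
    have s4 := abs4 k0 la' la' la'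
    calc _ ≤ |w3 * b' * b' * b'| + |w2 * b' * b' * a'| + |w1 * b' * a' * a'| +
            |w0 * a' * a' * a'| :=
          (abs_add_le _ _).trans (add_le_add ((abs_add_le _ _).trans
            (add_le_add (abs_add_le _ _) le_rfl)) le_rfl)
      _ ≤ _ := by nlinarith

/-- `q ^ 4` times the value at `p / q` of the quartic -/
def NN (p q : ℤ) (d : ℤ × ℤ × ℤ × ℤ) : ℤ :=
  p ^ 4 + q * (d.1 * p ^ 3 + d.2.1 * p ^ 2 * q + d.2.2.1 * p * q ^ 2 + d.2.2.2 * q ^ 3)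

theorem cc_sub_fst {p q p' q' : ℤ} (d e : ℤ × ℤ × ℤ × ℤ) :
    q * (cc p q p' q' (d - e)).1 = NN p q d - NN p q e := by
  simp only [cc, NN, Prod.fst_sub, Prod.snd_sub]
  ring

end Pool.Agent.H83HL
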