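import Pool.Agent.H83HL.Near
import Pool.Agent.H83HL.Cub

/-!
# Points whose quartic has an integral root near the square root of the abscissa
-/

set_option autoImplicit false

namespace Pool.Agent.H83HL

open Finset

/-- in an arc near a rational number with a small denominator the quartic has an integral root -/
theorem root_of_small {R M : ℝ} {A B x y : ℤ} {s : ℝ} (P : Pt R s A B x y)
    (hM : M ≤ s) (hs : s ≤ 3 / 2 * M) (hRM : R ≤ M) {κ θ ρ : ℝ} (hκ0 : 0 < κ)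
    (hK1 : M / R ≤ κ ^ 2) (hK2 : κ ^ 2 ≤ 2 * (M / R)) {m p q : ℤ}
    (hh : |(m : ℝ) + θ - s| ≤ 1 / κ ^ 2) (hq : 1 ≤ q) (hpq : IsCoprime p q)
    (hq1 : (q : ℝ) / κ ≤ ρ) (hq2 : |κ * (q * θ - p)| ≤ ρ) (hρ : ρ ^ 4 * (200 * R) < 1) :
    ∃ n : ℤ, |(n : ℝ) - s| ≤ 3 / 20 ∧ n ^ 4 - 6 * x * n ^ 2 + 8 * y * n - 4 * A - 3 * x ^ 2 = 0 := by
  have hR := P.R1
  have hR0 : 0 < R := by linarith
  have hM0 : 0 < M := by linarith
  have hM1 : 1 ≤ M := by linarith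
  have hs0 : 0 < s := by linarith
  have hq0 : (1 : ℝ) ≤ q := by exact_mod_cast hq
  have hqpos : (0 : ℝ) < q := by linarith
  have hqκ : (q : ℝ) ≤ ρ * κ := (div_le_iff₀ hκ0).1 hq1
  have hρ0 : 0 < ρ := lt_of_lt_of_le (by positivity) hq1
  have hρ4 : ρ ^ 4 < 1 / 200 := by
    have : ρ ^ 4 * 200 ≤ ρ ^ 4 * (200 * R) := by
      refine mul_le_mul_of_nonneg_left (by linarith) (by positivity)
    linarith
  have hρ2 : ρ ^ 2 ≤ 3 / 40 := by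
    by_contra hcon
    push Not at hcon
    have : (3 / 40 : ℝ) ^ 2 < (ρ ^ 2) ^ 2 := pow_lt_pow_left₀ hcon (by norm_num) (by norm_num)
    have e : (ρ ^ 2) ^ 2 = ρ ^ 4 := by ring
    rw [e] at this
    norm_num at this hρ4
    linarith
  set h : ℝ := 2 * ρ / (κ * q) with hh1
  have h0 : 0 ≤ h := by positivity
  have hκρ : 1 ≤ ρ * κ := hq0.trans hqκ
  have hhs : h ≤ 3 / 20 := by
    rw [hh1, div_le_iff₀ (by positivity)]
    have : ρ ≤ ρ ^ 2 * κ := by nlinarith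
    have h2 : ρ ^ 2 * κ ≤ 3 / 40 * κ := mul_le_mul_of_nonneg_right hρ2 hκ0.le
    have h3 : κ ≤ κ * q := by nlinarith
    nlinarith
  have hθ : |(m : ℝ) + (p : ℝ) / q - s| ≤ h := by
    have e1 : |θ - (p : ℝ) / q| ≤ ρ / (κ * q) := by
      have e : θ - (p : ℝ) / q = κ * (q * θ - p) / (κ * q) := by field_simp
      rw [e, abs_div, abs_of_pos (by positivity : 0 < κ * q)]
      exact div_le_div_of_nonneg_right hq2 (by positivity)
    have e2 : 1 / κ ^ 2 ≤ ρ / (κ * q) := by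
      rw [div_le_div_iff₀ (by positivity) (by positivity)]
      nlinarith
    have e3 : (m : ℝ) + (p : ℝ) / q - s = ((m : ℝ) + θ - s) - (θ - (p : ℝ) / q) := by ring
    rw [e3]
    calc |((m : ℝ) + θ - s) - (θ - (p : ℝ) / q)| ≤ |(m : ℝ) + θ - s| + |θ - (p : ℝ) / q| := abs_sub _ _
      _ ≤ ρ / (κ * q) + ρ / (κ * q) := by linarith
      _ = h := by rw [hh1]; ring
  obtain ⟨c0, -, -⟩ := P.near m (θ := (p : ℝ) / q) h0 (by linarith) hθ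
  set d := dd m A x y with hd
  obtain ⟨N, hN⟩ : ∃ N : ℤ, N = p ^ 4 + d.1 * p ^ 3 * q + d.2.1 * p ^ 2 * q ^ 2 +
      d.2.2.1 * p * q ^ 3 + d.2.2.2 * q ^ 4 := ⟨_, rfl⟩
  have hNr : (N : ℝ) = (q : ℝ) ^ 4 * (((p : ℝ) / q) ^ 4 + tau0 d ((p : ℝ) / q)) := by
    rw [hN, tau0]; push_cast; field_simp; ring
  have hNabs : |(N : ℝ)| < 1 := by
    rw [hNr, abs_mul, abs_of_pos (by positivity : (0 : ℝ) < (q : ℝ) ^ 4)]
    have hqh : (q : ℝ) * h = 2 * ρ / κ := by rw [hh1]; field_simp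
    have hKinv : 1 / κ ^ 2 ≤ R / M := by
      rw [div_le_div_iff₀ (by positivity) hM0]
      have := (div_le_iff₀ hR0).1 hK1
      nlinarith
    have hK3 : κ ^ 2 * R ≤ 2 * M := by
      have e : 2 * (M / R) * R = 2 * M := by field_simp
      nlinarith [mul_le_mul_of_nonneg_right hK2 hR0.le]
    have b1 : (q : ℝ) ^ 4 * (5 * s * h ^ 3) ≤ 60 * (ρ ^ 4 * R) := by
      have e : (q : ℝ) ^ 4 * (5 * s * h ^ 3) = 5 * s * q * ((q : ℝ) * h) ^ 3 := by ring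
      rw [e, hqh]
      calc 5 * s * q * (2 * ρ / κ) ^ 3 ≤ 5 * (3 / 2 * M) * (ρ * κ) * (2 * ρ / κ) ^ 3 := by
            refine mul_le_mul_of_nonneg_right ?_ (by positivity)
            exact mul_le_mul (by linarith) hqκ hqpos.le (by positivity)
        _ = 60 * ρ ^ 4 * M * (1 / κ ^ 2) := by field_simp; ring
        _ ≤ 60 * ρ ^ 4 * M * (R / M) := mul_le_mul_of_nonneg_left hKinv (by positivity)
        _ = 60 * (ρ ^ 4 * R) := by field_simp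
    have b2 : (q : ℝ) ^ 4 * (16 * R ^ 2 * h / s) ≤ 64 * (ρ ^ 4 * R) := by
      have e : (q : ℝ) ^ 4 * (16 * R ^ 2 * h / s) = 16 * R ^ 2 * q ^ 3 * ((q : ℝ) * h) / s := by ring
      rw [e, hqh, div_le_iff₀ hs0]
      have e1 : (q : ℝ) ^ 3 ≤ (ρ * κ) ^ 3 := pow_le_pow_left₀ hqpos.le hqκ 3
      calc 16 * R ^ 2 * (q : ℝ) ^ 3 * (2 * ρ / κ) ≤ 16 * R ^ 2 * (ρ * κ) ^ 3 * (2 * ρ / κ) :=
            mul_le_mul_of_nonneg_right (mul_le_mul_of_nonneg_left e1 (by positivity)) (by positivity)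
        _ = 32 * ρ ^ 4 * R * (κ ^ 2 * R) := by field_simp; ring
        _ ≤ 32 * ρ ^ 4 * R * (2 * M) := mul_le_mul_of_nonneg_left hK3 (by positivity)
        _ = 64 * (ρ ^ 4 * R) * M := by ring
        _ ≤ 64 * (ρ ^ 4 * R) * s := mul_le_mul_of_nonneg_left hM (by positivity)
    have b3 : (q : ℝ) ^ 4 * (16 * R ^ 3 / s ^ 2) ≤ 64 * (ρ ^ 4 * R) := by
      rw [mul_div_assoc', div_le_iff₀ (by positivity)]
      have e1 : (q : ℝ) ^ 4 ≤ (ρ * κ) ^ 4 := pow_le_pow_left₀ hqpos.le hqκ 4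
      have e2 : (κ ^ 2 * R) ^ 2 ≤ (2 * M) ^ 2 := pow_le_pow_left₀ (by positivity) hK3 2
      have e3 : M ^ 2 ≤ s ^ 2 := pow_le_pow_left₀ hM0.le hM 2
      calc (q : ℝ) ^ 4 * (16 * R ^ 3) ≤ (ρ * κ) ^ 4 * (16 * R ^ 3) :=
            mul_le_mul_of_nonneg_right e1 (by positivity)
        _ = 16 * ρ ^ 4 * R * (κ ^ 2 * R) ^ 2 := by ring
        _ ≤ 16 * ρ ^ 4 * R * (2 * M) ^ 2 := mul_le_mul_of_nonneg_left e2 (by positivity)
        _ = 64 * (ρ ^ 4 * R) * M ^ 2 := by ring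
        _ ≤ 64 * (ρ ^ 4 * R) * s ^ 2 := mul_le_mul_of_nonneg_left e3 (by positivity)
    calc (q : ℝ) ^ 4 * |((p : ℝ) / q) ^ 4 + tau0 d ((p : ℝ) / q)|
        ≤ (q : ℝ) ^ 4 * (5 * s * h ^ 3 + 16 * R ^ 2 * h / s + 16 * R ^ 3 / s ^ 2) :=
          mul_le_mul_of_nonneg_left c0 (by positivity)
      _ = (q : ℝ) ^ 4 * (5 * s * h ^ 3) + (q : ℝ) ^ 4 * (16 * R ^ 2 * h / s) +
          (q : ℝ) ^ 4 * (16 * R ^ 3 / s ^ 2) := by ring
      _ ≤ 188 * (ρ ^ 4 * R) := by linarith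
      _ < 1 := by
          have : 0 ≤ ρ ^ 4 * R := by positivity
          linarith
  have hN0 : N = 0 := by
    have : |N| < 1 := by exact_mod_cast hNabs
    exact Int.abs_lt_one_iff.1 this
  have hqdvd : q ∣ p ^ 4 := by
    refine ⟨-(d.1 * p ^ 3 + d.2.1 * p ^ 2 * q + d.2.2.1 * p * q ^ 2 + d.2.2.2 * q ^ 3), ?_⟩
    linear_combination hN0 - hN
  have hq11 : q = 1 := by
    have h1 : IsCoprime (p ^ 4) q := hpq.pow_left
    have h2 : IsUnit q := h1.isUnit_of_dvd' hqdvd dvd_rfl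
    rcases Int.isUnit_iff.1 h2 with h3 | h3
    · exact h3
    · omega
  subst hq11
  refine ⟨m + p, ?_, ?_⟩
  · push_cast
    have := hθ
    rw [Int.cast_one, div_one] at this
    linarith
  · have e := val0 m A x y (p : ℝ)
    have e2 : (N : ℝ) = (p : ℝ) ^ 4 + tau0 d (p : ℝ) := by
      rw [hNr, Int.cast_one, div_one]; ring
    rw [hN0, Int.cast_zero, hd] at e2
    rw [← e2] at e
    have : (((m + p) ^ 4 - 6 * x * (m + p) ^ 2 + 8 * y * (m + p) - 4 * A - 3 * x ^ 2 : ℤ) : ℝ) = 0 := by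
      push_cast
      linarith
    exact_mod_cast this

/-- bounds for a nonsingular point whose quartic has an integral root near `√x` -/
theorem root_bounds {R M : ℝ} {A B x y n : ℤ} {s : ℝ} (P : Pt R s A B x y)
    (hM : M ≤ s) (hs : s ≤ 3 / 2 * M) (hRM : R ≤ M) (hns : 4 * A ^ 3 + 27 * B ^ 2 ≠ 0)
    (hn : |(n : ℝ) - s| ≤ 3 / 20)
    (hroot : n ^ 4 - 6 * x * n ^ 2 + 8 * y * n - 4 * A - 3 * x ^ 2 = 0) :
    vv n A x y = 0 ∧ M / 2 ≤ n ∧ (n : ℝ) ≤ 2 * M ∧ |(jj n x : ℝ)| ≤ 4 * R ∧ tt n x y ≠ 0 ∧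
      n * |(tt n x y : ℝ)| ≤ 13 * R ^ 2 := by
  have hR := P.R1
  have hR0 : 0 < R := by linarith
  have hM1 : 1 ≤ M := by linarith
  have hs1 : 1 ≤ s := by linarith
  have hn' := abs_le.1 hn
  have hn1 : (1 : ℤ) ≤ n := by
    have : (0 : ℝ) < n := by linarith
    have : (0 : ℤ) < n := by exact_mod_cast this
    omega
  have hn1r : (1 : ℝ) ≤ n := by exact_mod_cast hn1
  have hn0 : (0 : ℝ) < n := by linarith
  -- v = 0
  have hv : vv n A x y = 0 := by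
    simp only [vv, tt, jj]
    linear_combination -hroot
  obtain ⟨j, hj⟩ : ∃ j, j = jj n x := ⟨_, rfl⟩
  obtain ⟨t, ht⟩ : ∃ t, t = tt n x y := ⟨_, rfl⟩
  have hx : x = n ^ 2 + j := by rw [hj, jj]; ring
  have hy : 2 * y = 2 * n ^ 3 + 3 * n * j + t := by rw [ht, tt, ← hj]; ring
  have hA : 4 * A = 4 * n * t - 3 * j ^ 2 := by
    have := hv
    rw [vv, ← ht, ← hj] at this
    linarith
  have hB : 4 * B = 2 * n * j * t + t ^ 2 - j ^ 3 := by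
    have e := P.eq
    have e1 : 4 * y ^ 2 = (2 * n ^ 3 + 3 * n * j + t) ^ 2 := by rw [← hy]; ring
    have e2 : 4 * A * x = (4 * n * t - 3 * j ^ 2) * (n ^ 2 + j) := by rw [hA, hx]
    have e3 : x ^ 3 = (n ^ 2 + j) ^ 3 := by rw [hx]
    linear_combination e1 - 4 * e + e2 * (-1) - 4 * e3
  rw [← hj, ← ht]
  have ht0 : t ≠ 0 := by
    intro h
    apply hns
    rw [h] at hA hB
    have e1 : 64 * A ^ 3 = (4 * A) ^ 3 := by ring
    have e2 : 16 * B ^ 2 = (4 * B) ^ 2 := by ring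
    have : 16 * (4 * A ^ 3 + 27 * B ^ 2) = 0 := by
      calc 16 * (4 * A ^ 3 + 27 * B ^ 2) = 64 * A ^ 3 + 27 * (16 * B ^ 2) := by ring
        _ = (4 * A) ^ 3 + 27 * (4 * B) ^ 2 := by rw [e1, e2]
        _ = 0 := by rw [hA, hB]; ring
    omega
  -- real versions
  have rx : s ^ 2 = (n : ℝ) ^ 2 + j := by rw [P.sx, hx]; push_cast; ring
  have rA : 4 * (A : ℝ) = 4 * n * t - 3 * (j : ℝ) ^ 2 := by exact_mod_cast hA
  have rB : 4 * (B : ℝ) = 2 * n * j * t + (t : ℝ) ^ 2 - (j : ℝ) ^ 3 := by exact_mod_cast hB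
  have hA' := P.hA
  have hB' := P.hB
  have hjn : |(j : ℝ)| ≤ 33 / 100 * n := by
    have e : (j : ℝ) = (s - n) * (s + n) := by linear_combination -rx
    rw [e, abs_mul, abs_sub_comm, abs_of_pos (by linarith : 0 < s + n)]
    calc |(n : ℝ) - s| * (s + n) ≤ 3 / 20 * (s + n) :=
          mul_le_mul_of_nonneg_right hn (by linarith)
      _ ≤ 33 / 100 * n := by linarith
  have h4nt : 4 * n * |(t : ℝ)| ≤ 3 * |(j : ℝ)| ^ 2 + 4 * R ^ 2 := by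
    have e : 4 * (n : ℝ) * t = 3 * (j : ℝ) ^ 2 + 4 * A := by linarith
    have e2 : 4 * (n : ℝ) * |(t : ℝ)| = |4 * (n : ℝ) * t| := by
      rw [abs_mul, abs_of_pos (by positivity : (0 : ℝ) < 4 * n)]
    rw [e2, e, sq_abs]
    calc |3 * (j : ℝ) ^ 2 + 4 * A| ≤ |3 * (j : ℝ) ^ 2| + |4 * (A : ℝ)| := abs_add_le _ _
      _ = 3 * (j : ℝ) ^ 2 + 4 * |(A : ℝ)| := by
          rw [abs_of_nonneg (by positivity : (0 : ℝ) ≤ 3 * (j : ℝ) ^ 2), abs_mul,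
            abs_of_pos (by norm_num : (0 : ℝ) < 4)]
      _ ≤ 3 * (j : ℝ) ^ 2 + 4 * R ^ 2 := by linarith
  have hjR : |(j : ℝ)| ≤ 4 * R := by
    by_contra hcon
    push Not at hcon
    set J := |(j : ℝ)| with hJ
    have hJ0 : 0 < J := by linarith
    have hJ1 : 1 ≤ J := by linarith
    have hR2 : R ^ 2 < J ^ 2 / 16 := by nlinarith
    have hR3 : R ^ 3 < J ^ 3 / 64 := by
      have : (4 * R) ^ 3 < J ^ 3 := pow_lt_pow_left₀ hcon (by positivity) (by norm_num)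
      nlinarith
    have ht1 : |(t : ℝ)| ≤ 27 / 100 * J := by
      have h1 : 4 * n * |(t : ℝ)| ≤ 13 / 4 * J ^ 2 := by linarith
      have h2 : 13 / 4 * J ^ 2 ≤ 13 / 4 * J * (33 / 100 * n) := by
        nlinarith [mul_le_mul_of_nonneg_left hjn (by positivity : 0 ≤ 13 / 4 * J)]
      have h3 : 4 * n * |(t : ℝ)| ≤ 4 * n * (27 / 100 * J) := by
        have : 13 / 4 * J * (33 / 100 * (n : ℝ)) ≤ 4 * n * (27 / 100 * J) := by
          have : 0 ≤ J * n := by positivity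
          nlinarith
        linarith
      exact le_of_mul_le_mul_left h3 (by positivity)
    have ht2 : (t : ℝ) ^ 2 ≤ 73 / 1000 * J ^ 3 := by
      rw [← sq_abs]
      have h1 : |(t : ℝ)| ^ 2 ≤ (27 / 100 * J) ^ 2 := pow_le_pow_left₀ (abs_nonneg _) ht1 2
      have h2 : J ^ 2 ≤ J ^ 3 := pow_le_pow_right₀ hJ1 (by norm_num)
      nlinarith
    have e : (j : ℝ) ^ 3 / 2 = 4 * B - 2 * A * j - (t : ℝ) ^ 2 := by
      have : (n : ℝ) * t = A + 3 / 4 * (j : ℝ) ^ 2 := by linarith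
      have e2 : 2 * (n : ℝ) * j * t = 2 * j * (A + 3 / 4 * (j : ℝ) ^ 2) := by rw [← this]; ring
      linear_combination -rB - e2
    have h1 : J ^ 3 / 2 = |(j : ℝ) ^ 3 / 2| := by
      rw [abs_div, abs_pow, abs_of_pos (by norm_num : (0 : ℝ) < 2)]
    have h2 : |(j : ℝ) ^ 3 / 2| ≤ 4 * R ^ 3 + 2 * R ^ 2 * J + (t : ℝ) ^ 2 := by
      rw [e]
      have g1 : |2 * (A : ℝ) * j| ≤ 2 * R ^ 2 * J := by
        rw [abs_mul, abs_mul, abs_of_pos (by norm_num : (0 : ℝ) < 2)]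
        exact mul_le_mul_of_nonneg_right (by linarith) (abs_nonneg _)
      have g2 : |4 * (B : ℝ)| ≤ 4 * R ^ 3 := by
        rw [abs_mul, abs_of_pos (by norm_num : (0 : ℝ) < 4)]; linarith
      have g3 : |(t : ℝ) ^ 2| = (t : ℝ) ^ 2 := abs_of_nonneg (sq_nonneg _)
      calc |4 * (B : ℝ) - 2 * A * j - (t : ℝ) ^ 2| ≤ |4 * (B : ℝ) - 2 * A * j| + |(t : ℝ) ^ 2| :=
            abs_sub _ _
        _ ≤ |4 * (B : ℝ)| + |2 * (A : ℝ) * j| + |(t : ℝ) ^ 2| := add_le_add (abs_sub _ _) le_rfl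
        _ ≤ _ := by linarith
    have h3 : 2 * R ^ 2 * J ≤ J ^ 3 / 8 := by nlinarith
    have hJ3 : 0 < J ^ 3 := by positivity
    linarith
  refine ⟨hv, by linarith, by linarith, hjR, ht0, ?_⟩
  have h1 : |(j : ℝ)| ^ 2 ≤ (4 * R) ^ 2 := pow_le_pow_left₀ (abs_nonneg _) hjR 2
  nlinarith

theorem root_count {R M : ℝ} (hR : 1 ≤ R) (hRM : R ≤ M) (F : Finset (ℤ × ℤ × ℤ × ℤ))
    (hF : ∀ P ∈ F, ∃ (s : ℝ) (n : ℤ), Pt R s P.1 P.2.1 P.2.2.1 P.2.2.2 ∧ M ≤ s ∧ s ≤ 3 / 2 * M ∧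
      4 * P.1 ^ 3 + 27 * P.2.1 ^ 2 ≠ 0 ∧ |(n : ℝ) - s| ≤ 3 / 20 ∧
      n ^ 4 - 6 * P.2.2.1 * n ^ 2 + 8 * P.2.2.2 * n - 4 * P.1 - 3 * P.2.2.1 ^ 2 = 0) :
    (F.card : ℝ) ≤ 36504 * (R ^ 5 / M) := by
  classical
  have hR0 : 0 < R := by linarith
  have hM0 : 0 < M := by linarith
  rcases F.eq_empty_or_nonempty with rfl | hne
  · simp; positivity
  choose! s n h1 h2 h3 h4 h5 h6 using hF
  have hb := fun P hP => root_bounds (h1 P hP) (h2 P hP) (h3 P hP) hRM (h4 P hP) (h5 P hP) (h6 P hP)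
  -- bound for M
  have hM26 : M ≤ 26 * R ^ 2 := by
    obtain ⟨P, hP⟩ := hne
    obtain ⟨-, b1, -, -, b2, b3⟩ := hb P hP
    have : (1 : ℝ) ≤ |(tt (n P) P.2.2.1 P.2.2.2 : ℝ)| := by
      have : 1 ≤ |tt (n P) P.2.2.1 P.2.2.2| := Int.one_le_abs b2
      exact_mod_cast this
    have hn0 : (0 : ℝ) < n P := by linarith
    nlinarith
  set Bt : ℝ := 26 * R ^ 2 / M with hBt
  have hBt1 : 1 ≤ Bt := by rw [hBt, le_div_iff₀ hM0]; linarith
  have hmap : ∀ P ∈ F, ((n P, jj (n P) P.2.2.1, tt (n P) P.2.2.1 P.2.2.2) : ℤ × ℤ × ℤ) ∈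
      Icc (1 : ℤ) ⌊2 * M⌋ ×ˢ (Icc (-⌊4 * R⌋) ⌊4 * R⌋ ×ˢ Icc (-⌊Bt⌋) ⌊Bt⌋) := by
    intro P hP
    obtain ⟨-, b1, b1', b2, b3, b4⟩ := hb P hP
    have hn0 : (0 : ℝ) < n P := by linarith
    rw [mem_product, mem_product]
    refine ⟨mem_Icc.2 ⟨?_, Int.le_floor.2 b1'⟩, mem_Icc_of_abs b2, mem_Icc_of_abs ?_⟩
    · have : (0 : ℤ) < n P := by exact_mod_cast hn0
      show (1 : ℤ) ≤ n P
      omega
    · rw [hBt, le_div_iff₀ hM0]
      have := abs_nonneg (tt (n P) P.2.2.1 P.2.2.2 : ℝ)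
      nlinarith
  have hinj : Set.InjOn (fun P : ℤ × ℤ × ℤ × ℤ =>
      ((n P, jj (n P) P.2.2.1, tt (n P) P.2.2.1 P.2.2.2) : ℤ × ℤ × ℤ)) F := by
    intro P hP Q hQ h
    simp only [Prod.mk.injEq] at h
    obtain ⟨e1, e2, e3⟩ := h
    have v1 := (hb P hP).1
    have v2 := (hb Q hQ).1
    have hdd : dd (n P) P.1 P.2.2.1 P.2.2.2 = dd (n Q) Q.1 Q.2.2.1 Q.2.2.2 := by
      simp only [dd, e1, e2, e3, v1, v2]
      rw [e1] at e2 e3 v1
      rw [e2, e3, v1]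
    obtain ⟨-, a1, a2, a3⟩ := dd_inj hdd
    have q1 := (h1 P hP).eq
    have q2 := (h1 Q hQ).eq
    have a4 : P.2.1 = Q.2.1 := by
      rw [a1, a2, a3] at q1
      linarith
    exact Prod.ext a1 (Prod.ext a4 (Prod.ext a2 a3))
  have hcard := Finset.card_le_card_of_injOn _ hmap hinj
  rw [card_product, card_product] at hcard
  have hc : (F.card : ℝ) ≤ ((Icc (1 : ℤ) ⌊2 * M⌋).card : ℝ) *
      (((Icc (-⌊4 * R⌋) ⌊4 * R⌋).card : ℝ) * ((Icc (-⌊Bt⌋) ⌊Bt⌋).card : ℝ)) := by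
    exact_mod_cast hcard
  have c1 : ((Icc (1 : ℤ) ⌊2 * M⌋).card : ℝ) ≤ 2 * M := by
    rw [Int.card_Icc]
    have h0 : 0 ≤ ⌊2 * M⌋ := Int.floor_nonneg.2 (by positivity)
    have e : (((⌊2 * M⌋ + 1 - 1).toNat : ℕ) : ℝ) = (⌊2 * M⌋ : ℝ) := by
      have : (((⌊2 * M⌋ + 1 - 1).toNat : ℕ) : ℤ) = ⌊2 * M⌋ := by
        rw [Int.toNat_of_nonneg (by omega)]; ring
      exact_mod_cast congrArg (fun z : ℤ => (z : ℝ)) this
    rw [e]
    exact Int.floor_le _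
  have c2 : ((Icc (-⌊4 * R⌋) ⌊4 * R⌋).card : ℝ) ≤ 9 * R := by
    have := card_Icc_le (B := 4 * R) (by positivity)
    linarith
  have c3 : ((Icc (-⌊Bt⌋) ⌊Bt⌋).card : ℝ) ≤ 3 * Bt := by
    have := card_Icc_le (B := Bt) (by positivity)
    linarith
  calc (F.card : ℝ) ≤ (2 * M) * ((9 * R) * (3 * Bt)) :=
        hc.trans (mul_le_mul c1 (mul_le_mul c2 c3 (by positivity) (by positivity))
          (by positivity) (by positivity))
    _ = 1404 * R ^ 3 := by rw [hBt]; field_simp; ring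
    _ ≤ 36504 * (R ^ 5 / M) := by
        rw [mul_div_assoc', le_div_iff₀ hM0]
        have : R ^ 3 * M ≤ R ^ 3 * (26 * R ^ 2) := mul_le_mul_of_nonneg_left hM26 (by positivity)
        nlinarith

end Pool.Agent.H83HL
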