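import Pool.Agent.H83HL.Root
import Pool.Agent.H83HL.Arc

/-!
# The upper bound for the number of integral points
-/

set_option autoImplicit false

namespace Pool.Agent.H83HL

open Finset

theorem prod_bound {g ρ : ℝ} (hg : 0 ≤ g) (h0 : 0 < ρ) (h1 : ρ ≤ 1) :
    (1 + g * ρ ^ 3) * ((1 + g * ρ) * ((1 + g / ρ) * (1 + g / ρ ^ 3))) ≤
      1 + g ^ 4 + 4 * (g + g ^ 3) * (1 / ρ ^ 3) + 6 * g ^ 2 * (1 / ρ ^ 4) := by
  obtain ⟨z, hz⟩ : ∃ z, z = 1 / ρ := ⟨_, rfl⟩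
  have hρz : ρ * z = 1 := by rw [hz]; field_simp
  have hz1 : 1 ≤ z := by rw [hz, le_div_iff₀ h0]; linarith
  have e1 : g / ρ = g * z := by rw [hz]; ring
  have e3 : g / ρ ^ 3 = g * z ^ 3 := by rw [hz]; field_simp
  have e4 : 1 / ρ ^ 3 = z ^ 3 := by rw [hz]; field_simp
  have e5 : 1 / ρ ^ 4 = z ^ 4 := by rw [hz]; field_simp
  rw [e1, e3, e4, e5]
  have e : (1 + g * ρ ^ 3) * ((1 + g * ρ) * ((1 + g * z) * (1 + g * z ^ 3))) =
      1 + g * (ρ ^ 3 + ρ + z + z ^ 3) + g ^ 2 * (ρ ^ 4 + ρ ^ 2 + 1 + 1 + z ^ 2 + z ^ 4) +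
        g ^ 3 * (ρ ^ 3 + ρ + z + z ^ 3) + g ^ 4 := by
    rw [hz]; field_simp; ring
  rw [e]
  have z2 : z ≤ z ^ 3 := by
    calc z = z ^ 1 := (pow_one z).symm
      _ ≤ z ^ 3 := pow_le_pow_right₀ hz1 (by norm_num)
  have z3 : 1 ≤ z ^ 3 := one_le_pow₀ hz1
  have z4 : 1 ≤ z ^ 4 := one_le_pow₀ hz1
  have z5 : z ^ 2 ≤ z ^ 4 := pow_le_pow_right₀ hz1 (by norm_num)
  have r3 : ρ ^ 3 ≤ 1 := pow_le_one₀ h0.le h1
  have r4 : ρ ^ 4 ≤ 1 := pow_le_one₀ h0.le h1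
  have r2 : ρ ^ 2 ≤ 1 := pow_le_one₀ h0.le h1
  have s1 : g * (ρ ^ 3 + ρ + z + z ^ 3) ≤ g * (4 * z ^ 3) :=
    mul_le_mul_of_nonneg_left (by linarith) hg
  have s2 : g ^ 2 * (ρ ^ 4 + ρ ^ 2 + 1 + 1 + z ^ 2 + z ^ 4) ≤ g ^ 2 * (6 * z ^ 4) :=
    mul_le_mul_of_nonneg_left (by linarith) (by positivity)
  have s3 : g ^ 3 * (ρ ^ 3 + ρ + z + z ^ 3) ≤ g ^ 3 * (4 * z ^ 3) :=
    mul_le_mul_of_nonneg_left (by linarith) (by positivity)
  linarith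

/-- the number of points in one arc -/
theorem fibre {R M : ℝ} (hR : 1 ≤ R) (hRM : R ≤ M) {K : ℕ} {κ : ℝ} (hκ0 : 0 < κ)
    (hκ : κ ^ 2 = K) (hK : M / R ≤ K) {k : ℕ} {p q : ℤ}
    (hpq : IsCoprime p q) {ρ : ℝ}
    (hρ : ρ = max |(q : ℝ) / κ| |κ * (q * ((k : ℝ) / K) - p)|) (h0 : 0 < ρ) (h1 : ρ ≤ 1)
    {g : ℝ} (hg : g = 96 * (80 * (R ^ 3 / M ^ 2) * κ ^ 3))
    (F : Finset (ℤ × ℤ × ℤ × ℤ)) (s : ℤ × ℤ × ℤ × ℤ → ℝ) (m : ℤ × ℤ × ℤ × ℤ → ℤ)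
    (hF : ∀ P ∈ F, Pt R (s P) P.1 P.2.1 P.2.2.1 P.2.2.2 ∧ M ≤ s P ∧ s P ≤ 3 / 2 * M ∧
      |(m P : ℝ) + (k : ℝ) / K - s P| ≤ 1 / K) :
    (F.card : ℝ) ≤ 1 + g ^ 4 + 4 * (g + g ^ 3) * (1 / ρ ^ 3) + 6 * g ^ 2 * (1 / ρ ^ 4) := by
  classical
  have hR0 : 0 < R := by linarith
  have hM0 : 0 < M := by linarith
  have hg0 : 0 ≤ g := by rw [hg]; positivity
  rcases F.eq_empty_or_nonempty with rfl | ⟨P0, hP0⟩
  · simp; positivity
  have hK0 : (0 : ℝ) < K := by rw [← hκ]; positivity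
  have hK1 : (1 : ℝ) ≤ K := by
    have : 0 < K := by exact_mod_cast hK0
    exact_mod_cast this
  obtain ⟨p', q', hdet, ha', hb'⟩ := second hκ0 hpq hρ h0 h1
  obtain ⟨a1, a2, a3, a4⟩ := hF P0 hP0
  set φ : ℤ × ℤ × ℤ × ℤ → ℤ × ℤ × ℤ × ℤ := fun P =>
    dd (m P) P.1 P.2.2.1 P.2.2.2 - dd (m P0) P0.1 P0.2.2.1 P0.2.2.2 with hφ
  have hinj : Set.InjOn φ F := by
    intro P hP Q hQ h
    have h2 : dd (m P) P.1 P.2.2.1 P.2.2.2 = dd (m Q) Q.1 Q.2.2.1 Q.2.2.2 := sub_left_injective h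
    obtain ⟨-, b1, b2, b3⟩ := dd_inj h2
    have q1 := (hF P hP).1.eq
    have q2 := (hF Q hQ).1.eq
    have b4 : P.2.1 = Q.2.1 := by
      rw [b1, b2, b3] at q1
      linarith
    exact Prod.ext b1 (Prod.ext b4 (Prod.ext b2 b3))
  have hcount := cub_count hdet hκ0 (θ := (k : ℝ) / K) (ρ := ρ) (ρ' := 2 / ρ)
    (G := 80 * (R ^ 3 / M ^ 2)) (by rw [hρ]; exact le_max_left _ _)
    (by rw [hρ]; exact le_max_right _ _) ha' hb' (by positivity) (F.image φ) (by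
      intro d hd
      obtain ⟨P, hP, rfl⟩ := mem_image.1 hd
      obtain ⟨b1, b2, b3, b4⟩ := hF P hP
      obtain ⟨c0, c1, c2, c3⟩ := diff_bound b1 a1 (m := m P) (m' := m P0) (θ := (k : ℝ) / K)
        b2 a2 b3 a3 hRM hK hK1 b4 a4
      exact ⟨c0, c1.trans (le_of_eq (by rw [hκ])), c2.trans (le_of_eq (by rw [← hκ]; ring)),
        c3.trans (le_of_eq (by rw [← hκ]; ring))⟩)
  rw [card_image_of_injOn hinj] at hcount
  refine hcount.trans (le_trans ?_ (prod_bound hg0 h0 h1))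
  set Γ : ℝ := 80 * (R ^ 3 / M ^ 2) * κ ^ 3 with hΓ
  have hΓ0 : 0 ≤ Γ := by positivity
  have f0 : 2 * (4 * Γ * ρ ^ 3) + 1 ≤ 1 + g * ρ ^ 3 := by
    rw [hg]
    have : 0 ≤ Γ * ρ ^ 3 := by positivity
    linarith
  have f1 : 2 * (12 * Γ * ρ ^ 2 * (2 / ρ)) + 1 ≤ 1 + g * ρ := by
    have e : 2 * (12 * Γ * ρ ^ 2 * (2 / ρ)) = 48 * (Γ * ρ) := by field_simp; ring
    rw [e, hg]
    have : 0 ≤ Γ * ρ := by positivity
    linarith
  have f2 : 2 * (12 * Γ * ρ * (2 / ρ) ^ 2) + 1 ≤ 1 + g / ρ := by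
    have e : 2 * (12 * Γ * ρ * (2 / ρ) ^ 2) = 96 * Γ / ρ := by field_simp; ring
    rw [e, hg]
    linarith
  have f3 : 2 * (4 * Γ * (2 / ρ) ^ 3) + 1 ≤ 1 + g / ρ ^ 3 := by
    have e : 2 * (4 * Γ * (2 / ρ) ^ 3) = 64 * (Γ / ρ ^ 3) := by field_simp; ring
    rw [e, hg]
    have : 0 ≤ Γ / ρ ^ 3 := by positivity
    have e2 : 96 * Γ / ρ ^ 3 = 96 * (Γ / ρ ^ 3) := by ring
    rw [e2]
    linarith
  refine mul_le_mul f0 (mul_le_mul f1 (mul_le_mul f2 f3 (by positivity) (by positivity))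
    (by positivity) (by positivity)) (by positivity) (by positivity)

theorem upper : ∃ C : ℝ, 0 < C ∧ ∀ R M : ℝ, 1 ≤ R → R ≤ M → ∀ F : Finset (ℤ × ℤ × ℤ × ℤ),
    (∀ P ∈ F, ∃ s : ℝ, Pt R s P.1 P.2.1 P.2.2.1 P.2.2.2 ∧ M ≤ s ∧ s ≤ 3 / 2 * M ∧
      4 * P.1 ^ 3 + 27 * P.2.1 ^ 2 ≠ 0) →
    (F.card : ℝ) ≤ C * (R ^ 5 / M + R ^ 2 * √R + M / R) := by
  classical
  -- the constant
  obtain ⟨C1, hC1⟩ : ∃ C1 : ℝ, C1 = 96 ^ 2 * 51200 := ⟨_, rfl⟩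
  have hC10 : 0 < C1 := by rw [hC1]; norm_num
  refine ⟨36504 + 193 * 2 + 193 * 2 * C1 ^ 2 + 1152 * (30 * C1), by positivity, ?_⟩
  intro R M hR hRM F hF
  have hR0 : 0 < R := by linarith
  have hM0 : 0 < M := by linarith
  choose! s hs1 hs2 hs3 hs4 using hF
  -- K
  set K : ℕ := ⌈M / R⌉₊ with hKdef
  have hMR1 : 1 ≤ M / R := by rw [le_div_iff₀ hR0]; linarith
  have hK : M / R ≤ K := Nat.le_ceil _
  have hK2 : (K : ℝ) ≤ 2 * (M / R) := by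
    have := (Nat.ceil_lt_add_one (by positivity : 0 ≤ M / R)).le
    linarith
  have hK1 : (1 : ℝ) ≤ K := hMR1.trans hK
  have hKpos : (0 : ℝ) < K := by linarith
  obtain ⟨κ, hκ⟩ : ∃ κ, κ = √(K : ℝ) := ⟨_, rfl⟩
  have hκ0 : 0 < κ := by rw [hκ]; exact Real.sqrt_pos.2 hKpos
  have hκ2 : κ ^ 2 = K := by rw [hκ]; exact Real.sq_sqrt hKpos.le
  -- Dirichlet
  have hD := fun (k : ℕ) (hk : k < K) => dirichlet hk hκ0 hκ2
  choose! p q hq1 hpq hcop hqκ hqp using hD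
  set ρ : ℕ → ℝ := fun k => max |((q k : ℤ) : ℝ) / κ| |κ * (((q k : ℤ) : ℝ) * ((k : ℝ) / K) - ((p k : ℤ) : ℝ))|
    with hρdef
  have hρa : ∀ k, (q k : ℝ) / κ ≤ ρ k := by
    intro k
    have : |((q k : ℤ) : ℝ) / κ| ≤ ρ k := le_max_left _ _
    rw [Int.cast_natCast] at this
    exact (le_abs_self _).trans this
  have hρb : ∀ k, |κ * ((q k : ℝ) * ((k : ℝ) / K) - (p k : ℝ))| ≤ ρ k := by
    intro k
    have : |κ * (((q k : ℤ) : ℝ) * ((k : ℝ) / K) - ((p k : ℤ) : ℝ))| ≤ ρ k := le_max_right _ _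
    rwa [Int.cast_natCast, Int.cast_natCast] at this
  have hρpos : ∀ k < K, 0 < ρ k := by
    intro k hk
    have h1 : (1 : ℝ) ≤ q k := by exact_mod_cast hq1 k hk
    exact lt_of_lt_of_le (by positivity) (hρa k)
  have hρ1 : ∀ k < K, ρ k ≤ 1 := by
    intro k hk
    refine max_le ?_ ?_
    · rw [Int.cast_natCast, abs_of_nonneg (by positivity), div_le_one hκ0]
      exact hqκ k hk
    · rw [Int.cast_natCast, Int.cast_natCast, abs_mul, abs_of_pos hκ0]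
      calc κ * |(q k : ℝ) * ((k : ℝ) / K) - (p k : ℝ)| ≤ κ * (1 / κ) :=
            mul_le_mul_of_nonneg_left (hqp k hk) hκ0.le
        _ = 1 := by field_simp
  -- the threshold
  obtain ⟨w, hw⟩ : ∃ w, w = √(√(201 * R)) := ⟨_, rfl⟩
  have hw2 : w ^ 2 = √(201 * R) := by rw [hw]; exact Real.sq_sqrt (Real.sqrt_nonneg _)
  have hw4 : w ^ 4 = 201 * R := by
    have : w ^ 4 = (w ^ 2) ^ 2 := by ring
    rw [this, hw2, Real.sq_sqrt (by positivity)]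
  have hw0 : 0 < w := by rw [hw]; exact Real.sqrt_pos.2 (Real.sqrt_pos.2 (by positivity))
  have hw1 : 1 ≤ w := by
    by_contra hcon
    push Not at hcon
    have : w ^ 4 < 1 := pow_lt_one₀ hw0.le hcon (by norm_num)
    rw [hw4] at this
    linarith
  -- position of a point
  set m : ℤ × ℤ × ℤ × ℤ → ℤ := fun P => ⌊s P⌋ with hm
  set kk : ℤ × ℤ × ℤ × ℤ → ℕ := fun P => ⌊(K : ℝ) * Int.fract (s P)⌋₊ with hkk
  have hkK : ∀ P, kk P < K := by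
    intro P
    have h1 : (K : ℝ) * Int.fract (s P) < K := by
      calc (K : ℝ) * Int.fract (s P) < K * 1 :=
            mul_lt_mul_of_pos_left (Int.fract_lt_one _) hKpos
        _ = K := mul_one _
    have h2 : 0 ≤ (K : ℝ) * Int.fract (s P) := mul_nonneg hKpos.le (Int.fract_nonneg _)
    exact (Nat.floor_lt h2).2 h1
  have hpos : ∀ P, |(m P : ℝ) + (kk P : ℝ) / K - s P| ≤ 1 / K := by
    intro P
    have h2 : 0 ≤ (K : ℝ) * Int.fract (s P) := mul_nonneg hKpos.le (Int.fract_nonneg _)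
    have h3 : (kk P : ℝ) ≤ (K : ℝ) * Int.fract (s P) := Nat.floor_le h2
    have h4 : (K : ℝ) * Int.fract (s P) < kk P + 1 := Nat.lt_floor_add_one _
    have h5 : (m P : ℝ) + Int.fract (s P) = s P := Int.floor_add_fract _
    have h6 : (m P : ℝ) + (kk P : ℝ) / K - s P = ((kk P : ℝ) - K * Int.fract (s P)) / K := by
      calc (m P : ℝ) + (kk P : ℝ) / K - s P = (kk P : ℝ) / K - Int.fract (s P) := by linarith
        _ = ((kk P : ℝ) - K * Int.fract (s P)) / K := by field_simp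
    rw [h6, abs_div, abs_of_pos hKpos]
    refine div_le_div_of_nonneg_right ?_ hKpos.le
    rw [abs_le]; constructor <;> linarith
  -- splitting
  set F1 := F.filter fun P => ρ (kk P) < 1 / w with hF1
  set F2 := F.filter fun P => ¬ ρ (kk P) < 1 / w with hF2
  have hsplit : F.card = F1.card + F2.card := (card_filter_add_card_filter_not _).symm
  -- the first part
  have hone : (F1.card : ℝ) ≤ 36504 * (R ^ 5 / M) := by
    refine root_count hR hRM F1 ?_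
    intro P hP
    obtain ⟨hPF, hPρ⟩ := mem_filter.1 hP
    have hk := hkK P
    have hcop' : IsCoprime ((p (kk P) : ℕ) : ℤ) ((q (kk P) : ℕ) : ℤ) := hcop _ hk
    obtain ⟨n, hn1, hn2⟩ := root_of_small (hs1 P hPF) (hs2 P hPF) (hs3 P hPF) hRM hκ0
      (θ := (kk P : ℝ) / K) (ρ := ρ (kk P)) (m := m P) (p := p (kk P)) (q := q (kk P))
      (by rw [hκ2]; exact hK) (by rw [hκ2]; exact hK2) (by rw [hκ2]; exact hpos P)
      (by exact_mod_cast hq1 _ hk) hcop'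
      (by rw [Int.cast_natCast]; exact hρa _) (by
        rw [Int.cast_natCast, Int.cast_natCast]; exact hρb _) (by
        have h1 : ρ (kk P) ^ 4 ≤ (1 / w) ^ 4 :=
          pow_le_pow_left₀ (hρpos _ hk).le hPρ.le 4
        have h2 : (1 / w) ^ 4 = 1 / (201 * R) := by rw [div_pow, one_pow, hw4]
        rw [h2] at h1
        calc ρ (kk P) ^ 4 * (200 * R) ≤ 1 / (201 * R) * (200 * R) :=
              mul_le_mul_of_nonneg_right h1 (by positivity)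
          _ = 200 / 201 := by field_simp
          _ < 1 := by norm_num)
    exact ⟨s P, n, hs1 P hPF, hs2 P hPF, hs3 P hPF, hs4 P hPF, hn1, hn2⟩
  -- the second part
  set g : ℝ := 96 * (80 * (R ^ 3 / M ^ 2) * κ ^ 3) with hg
  have hg0 : 0 ≤ g := by positivity
  set S := (range K).filter fun k => ¬ ρ k < 1 / w with hS
  have hmaps : ∀ P ∈ F2, kk P ∈ S := by
    intro P hP
    exact mem_filter.2 ⟨mem_range.2 (hkK P), (mem_filter.1 hP).2⟩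
  have htwo : (F2.card : ℝ) ≤ ∑ k ∈ S, (1 + g ^ 4 + 4 * (g + g ^ 3) * (1 / ρ k ^ 3) +
      6 * g ^ 2 * (1 / ρ k ^ 4)) := by
    rw [card_eq_sum_card_fiberwise hmaps]
    push_cast
    refine sum_le_sum fun k hk => ?_
    have hkK' : k < K := mem_range.1 (mem_filter.1 hk).1
    have hcop' : IsCoprime ((p k : ℕ) : ℤ) ((q k : ℕ) : ℤ) := hcop _ hkK'
    refine fibre hR hRM hκ0 hκ2 hK hcop' (k := k) rfl (hρpos k hkK') (hρ1 k hkK') hg _ s m ?_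
    intro P hP
    obtain ⟨hP1, hP2⟩ := mem_filter.1 hP
    have hPF := (mem_filter.1 hP1).1
    refine ⟨hs1 P hPF, hs2 P hPF, hs3 P hPF, ?_⟩
    have := hpos P
    rwa [hP2] at this
  obtain ⟨t4, t3⟩ := sum_arcs (S := S) (ρ := ρ) (ρ0 := 1 / w) (Kr := K) (by positivity)
    (by rw [div_le_one hw0]; exact hw1)
    (fun k hk => ⟨not_lt.1 (mem_filter.1 hk).2, hρ1 k (mem_range.1 (mem_filter.1 hk).1)⟩)
    (by
      intro r hr hr1
      refine arc_count hκ0 hκ2 hr _ ?_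
      intro k hk
      obtain ⟨hk1, hk2⟩ := mem_filter.1 hk
      have hkK' : k < K := mem_range.1 (mem_filter.1 hk1).1
      refine ⟨p k, q k, hq1 k hkK', hpq k hkK', ?_, ?_⟩
      · exact (div_le_iff₀ hκ0).1 ((hρa k).trans hk2)
      · have e : |(q k : ℝ) * ((k : ℝ) / K) - (p k : ℝ)| =
            |κ * ((q k : ℝ) * ((k : ℝ) / K) - (p k : ℝ))| / κ := by
          rw [abs_mul, abs_of_pos hκ0]; field_simp
        rw [e]
        exact div_le_div_of_nonneg_right ((hρb k).trans hk2) hκ0.le) hKpos.le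
  have hScard : (S.card : ℝ) ≤ K := by
    have : S.card ≤ (range K).card := card_filter_le _ _
    rw [card_range] at this
    exact_mod_cast this
  have hsum : ∑ k ∈ S, (1 + g ^ 4 + 4 * (g + g ^ 3) * (1 / ρ k ^ 3) +
      6 * g ^ 2 * (1 / ρ k ^ 4)) ≤ K * (1 + g ^ 4) + 4 * (g + g ^ 3) * (96 * K / (1 / w)) +
        6 * g ^ 2 * (128 * K / (1 / w) ^ 2) := by
    rw [sum_add_distrib, sum_add_distrib, sum_const, nsmul_eq_mul, ← mul_sum, ← mul_sum]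
    refine add_le_add (add_le_add ?_ ?_) ?_
    · exact mul_le_mul_of_nonneg_right hScard (by positivity)
    · exact mul_le_mul_of_nonneg_left t3 (by positivity)
    · exact mul_le_mul_of_nonneg_left t4 (by positivity)
  -- numerical part
  have hg2 : g ^ 2 ≤ C1 * (R ^ 3 / M) := by
    have e : g ^ 2 = 96 ^ 2 * 6400 * (R ^ 6 / M ^ 4) * (κ ^ 2) ^ 3 := by
      rw [hg]; field_simp; ring
    rw [e, hκ2]
    have h1 : (K : ℝ) ^ 3 ≤ (2 * (M / R)) ^ 3 := pow_le_pow_left₀ hKpos.le hK2 3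
    calc 96 ^ 2 * 6400 * (R ^ 6 / M ^ 4) * (K : ℝ) ^ 3
        ≤ 96 ^ 2 * 6400 * (R ^ 6 / M ^ 4) * (2 * (M / R)) ^ 3 :=
          mul_le_mul_of_nonneg_left h1 (by positivity)
      _ = C1 * (R ^ 3 / M) := by rw [hC1]; field_simp; ring
  have hKg4 : (K : ℝ) * g ^ 4 ≤ 2 * C1 ^ 2 * (R ^ 5 / M) := by
    have h1 : g ^ 4 ≤ (C1 * (R ^ 3 / M)) ^ 2 := by
      calc g ^ 4 = (g ^ 2) ^ 2 := by ring
        _ ≤ _ := pow_le_pow_left₀ (by positivity) hg2 2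
    calc (K : ℝ) * g ^ 4 ≤ 2 * (M / R) * (C1 * (R ^ 3 / M)) ^ 2 :=
          mul_le_mul hK2 h1 (by positivity) (by positivity)
      _ = 2 * C1 ^ 2 * (R ^ 5 / M) := by field_simp
  have hw15 : w ^ 2 ≤ 15 * √R := by
    rw [hw2, Real.sqrt_mul (by norm_num)]
    refine mul_le_mul_of_nonneg_right ?_ (Real.sqrt_nonneg _)
    rw [Real.sqrt_le_left (by norm_num)]
    norm_num
  have hKg2 : (K : ℝ) * (g ^ 2 * w ^ 2) ≤ 30 * C1 * (R ^ 2 * √R) := by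
    calc (K : ℝ) * (g ^ 2 * w ^ 2) ≤ 2 * (M / R) * (C1 * (R ^ 3 / M) * (15 * √R)) :=
          mul_le_mul hK2 (mul_le_mul hg2 hw15 (by positivity) (by positivity))
            (by positivity) (by positivity)
      _ = 30 * C1 * (R ^ 2 * √R) := by field_simp; ring
  have am1 : g * w ≤ (1 + g ^ 2 * w ^ 2) / 2 := by nlinarith [sq_nonneg (1 - g * w)]
  have am2 : g ^ 3 * w ≤ (g ^ 4 + g ^ 2 * w ^ 2) / 2 := by
    nlinarith [sq_nonneg (g ^ 2 - g * w)]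
  have hfin : K * (1 + g ^ 4) + 4 * (g + g ^ 3) * (96 * K / (1 / w)) +
      6 * g ^ 2 * (128 * K / (1 / w) ^ 2) ≤ 193 * K + 193 * (K * g ^ 4) +
        1152 * (K * (g ^ 2 * w ^ 2)) := by
    have e1 : 4 * (g + g ^ 3) * (96 * K / (1 / w)) = 384 * K * (g * w + g ^ 3 * w) := by
      field_simp; ring
    have e2 : 6 * g ^ 2 * (128 * K / (1 / w) ^ 2) = 768 * (K * (g ^ 2 * w ^ 2)) := by
      field_simp; ring
    rw [e1, e2]
    have : 384 * (K : ℝ) * (g * w + g ^ 3 * w) ≤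
        384 * K * ((1 + g ^ 2 * w ^ 2) / 2 + (g ^ 4 + g ^ 2 * w ^ 2) / 2) :=
      mul_le_mul_of_nonneg_left (add_le_add am1 am2) (by positivity)
    linarith
  have hall : (F.card : ℝ) ≤ 36504 * (R ^ 5 / M) + (193 * (2 * (M / R)) +
      193 * (2 * C1 ^ 2 * (R ^ 5 / M)) + 1152 * (30 * C1 * (R ^ 2 * √R))) := by
    rw [hsplit]
    push_cast
    linarith
  refine hall.trans ?_
  have p1 : 0 ≤ R ^ 5 / M := by positivity
  have p2 : 0 ≤ R ^ 2 * √R := by positivity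
  have p3 : 0 ≤ M / R := by positivity
  nlinarith [mul_nonneg hC10.le p1, mul_nonneg hC10.le p2, mul_nonneg hC10.le p3,
    mul_nonneg (sq_nonneg C1) p1, mul_nonneg (sq_nonneg C1) p2, mul_nonneg (sq_nonneg C1) p3]

end Pool.Agent.H83HL
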