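import Pool.Agent.H83HL.Cub2
import Pool.Agent.H83HL.Root
import Pool.Agent.H83HL.Upper

/-!
# The values of the quartic at the centre of an arc, and the points in one arc
-/

set_option autoImplicit false

namespace Pool.Agent.H83HL

open Finset

theorem near0 {R s : ℝ} {A B x y : ℤ} (P : Pt R s A B x y) (m : ℤ) {θ h : ℝ} (h0 : 0 ≤ h)
    (hs : h ≤ 2 * s) (hh : |(m : ℝ) + θ - s| ≤ h) :
    |θ ^ 4 + tau0 (dd m A x y) θ| ≤ 6 * s * h ^ 3 + 16 * R ^ 2 * h / s + 16 * R ^ 3 / s ^ 2 := by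
  obtain ⟨e1, e2⟩ := P.eta
  have hR := P.R1
  have hRs := P.Rs
  have hs0 : 0 < s := by linarith
  have hx := P.sx
  rw [val0, ← hx]
  set U : ℝ := (m : ℝ) + θ with hU
  set η : ℝ := (y : ℝ) - s ^ 3 with hη
  have hy : (y : ℝ) = s ^ 3 + η := by rw [hη]; ring
  have hUs := abs_le.1 hh
  have w3 : |U + 3 * s| ≤ 6 * s := by rw [abs_le]; constructor <;> linarith
  have e : U ^ 4 - 6 * s ^ 2 * U ^ 2 + 8 * (y : ℝ) * U - 4 * A - 3 * (s ^ 2) ^ 2 =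
      (U - s) ^ 3 * (U + 3 * s) + 8 * η * (U - s) + (8 * η * s - 4 * A) := by
    rw [hy]; ring
  rw [e]
  have b1 : |(U - s) ^ 3 * (U + 3 * s)| ≤ 6 * s * h ^ 3 := by
    rw [abs_mul, abs_pow]
    calc |U - s| ^ 3 * |U + 3 * s| ≤ h ^ 3 * (6 * s) :=
          mul_le_mul (pow_le_pow_left₀ (abs_nonneg _) hh 3) w3 (abs_nonneg _) (by positivity)
      _ = 6 * s * h ^ 3 := by ring
  have b2 : |8 * η * (U - s)| ≤ 16 * R ^ 2 * h / s := by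
    rw [abs_mul, abs_mul, abs_of_pos (by norm_num : (0 : ℝ) < 8)]
    calc 8 * |η| * |U - s| ≤ 8 * (2 * R ^ 2 / s) * h :=
          mul_le_mul (mul_le_mul_of_nonneg_left e1 (by norm_num)) hh (abs_nonneg _) (by positivity)
      _ = 16 * R ^ 2 * h / s := by ring
  calc |(U - s) ^ 3 * (U + 3 * s) + 8 * η * (U - s) + (8 * η * s - 4 * A)|
      ≤ |(U - s) ^ 3 * (U + 3 * s) + 8 * η * (U - s)| + |8 * η * s - 4 * A| := abs_add_le _ _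
    _ ≤ |(U - s) ^ 3 * (U + 3 * s)| + |8 * η * (U - s)| + |8 * η * s - 4 * A| :=
        add_le_add (abs_add_le _ _) le_rfl
    _ ≤ _ := by linarith

/-- the centre of the arc and the bound for the value there -/
theorem NN_bound {R M : ℝ} {A B x y : ℤ} {s : ℝ} (P : Pt R s A B x y)
    (hM : M ≤ s) (hs : s ≤ 3 / 2 * M) (hRM : R ≤ M) {κ θ ρ : ℝ} (hκ1 : 1 ≤ κ)
    (hK1 : M / R ≤ κ ^ 2) (hK2 : κ ^ 2 ≤ 2 * (M / R)) {m p q : ℤ}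
    (hh : |(m : ℝ) + θ - s| ≤ 1 / κ ^ 2) (hq : 1 ≤ q)
    (hq1 : (q : ℝ) / κ ≤ ρ) (hq2 : |κ * (q * θ - p)| ≤ ρ) (hρ : ρ ≤ 1) :
    |(m : ℝ) + (p : ℝ) / q - s| ≤ 2 * ρ / (κ * q) ∧
      |(NN p q (dd m A x y) : ℝ)| ≤ 200 * R * ρ ^ 4 := by
  have hκ0 : 0 < κ := by linarith
  have hR := P.R1
  have hR0 : 0 < R := by linarith
  have hM0 : 0 < M := by linarith
  have hM1 : 1 ≤ M := by linarith
  have hs0 : 0 < s := by linarith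
  have hq0 : (1 : ℝ) ≤ q := by exact_mod_cast hq
  have hqpos : (0 : ℝ) < q := by linarith
  have hqκ : (q : ℝ) ≤ ρ * κ := (div_le_iff₀ hκ0).1 hq1
  have hρ0 : 0 < ρ := lt_of_lt_of_le (by positivity) hq1
  set h : ℝ := 2 * ρ / (κ * q) with hh1
  have h0 : 0 ≤ h := by positivity
  have hκρ : 1 ≤ ρ * κ := hq0.trans hqκ
  have hh2 : h ≤ 2 := by
    rw [hh1, div_le_iff₀ (by positivity)]
    have : 1 ≤ κ * q := by nlinarith
    nlinarith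
  have hθ : |(m : ℝ) + (p : ℝ) / q - s| ≤ h := by
    have e1 : |θ - (p : ℝ) / q| ≤ ρ / (κ * q) := by
      have e : θ - (p : ℝ) / q = κ * (q * θ - p) / (κ * q) := by field_simp
      rw [e, abs_div, abs_of_pos (by positivity : 0 < κ * q)]
      exact div_le_div_of_nonneg_right hq2 (by positivity)
    have e2 : 1 / κ ^ 2 ≤ ρ / (κ * q) := by
      rw [div_le_div_iff₀ (by positivity) (by positivity)]
      nlinarith
    have e3 : (m : ℝ) + (p : ℝ) / q - s = ((m : ℝ) + θ - s) - (θ - (p : ℝ) / q) := by ring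
    rw [e3]
    calc |((m : ℝ) + θ - s) - (θ - (p : ℝ) / q)| ≤ |(m : ℝ) + θ - s| + |θ - (p : ℝ) / q| := abs_sub _ _
      _ ≤ ρ / (κ * q) + ρ / (κ * q) := by linarith
      _ = h := by rw [hh1]; ring
  refine ⟨hθ, ?_⟩
  have c0 := near0 P m (θ := (p : ℝ) / q) h0 (by linarith) hθ
  set d := dd m A x y with hd
  have hNr : (NN p q d : ℝ) = (q : ℝ) ^ 4 * (((p : ℝ) / q) ^ 4 + tau0 d ((p : ℝ) / q)) := by
    rw [NN, tau0]; push_cast; field_simp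
  rw [hNr, abs_mul, abs_of_pos (by positivity : (0 : ℝ) < (q : ℝ) ^ 4)]
  have hqh : (q : ℝ) * h = 2 * ρ / κ := by rw [hh1]; field_simp
  have hKinv : 1 / κ ^ 2 ≤ R / M := by
    rw [div_le_div_iff₀ (by positivity) hM0]
    have := (div_le_iff₀ hR0).1 hK1
    nlinarith
  have hK3 : κ ^ 2 * R ≤ 2 * M := by
    have e : 2 * (M / R) * R = 2 * M := by field_simp
    nlinarith [mul_le_mul_of_nonneg_right hK2 hR0.le]
  have b1 : (q : ℝ) ^ 4 * (6 * s * h ^ 3) ≤ 72 * (ρ ^ 4 * R) := by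
    have e : (q : ℝ) ^ 4 * (6 * s * h ^ 3) = 6 * s * q * ((q : ℝ) * h) ^ 3 := by ring
    rw [e, hqh]
    calc 6 * s * q * (2 * ρ / κ) ^ 3 ≤ 6 * (3 / 2 * M) * (ρ * κ) * (2 * ρ / κ) ^ 3 := by
          refine mul_le_mul_of_nonneg_right ?_ (by positivity)
          exact mul_le_mul (by linarith) hqκ hqpos.le (by positivity)
      _ = 72 * ρ ^ 4 * M * (1 / κ ^ 2) := by field_simp; ring
      _ ≤ 72 * ρ ^ 4 * M * (R / M) := mul_le_mul_of_nonneg_left hKinv (by positivity)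
      _ = 72 * (ρ ^ 4 * R) := by field_simp
  have b2 : (q : ℝ) ^ 4 * (16 * R ^ 2 * h / s) ≤ 64 * (ρ ^ 4 * R) := by
    have e : (q : ℝ) ^ 4 * (16 * R ^ 2 * h / s) = 16 * R ^ 2 * q ^ 3 * ((q : ℝ) * h) / s := by ring
    rw [e, hqh, div_le_iff₀ hs0]
    have e1 : (q : ℝ) ^ 3 ≤ (ρ * κ) ^ 3 := pow_le_pow_left₀ hqpos.le hqκ 3
    calc 16 * R ^ 2 * (q : ℝ) ^ 3 * (2 * ρ / κ) ≤ 16 * R ^ 2 * (ρ * κ) ^ 3 * (2 * ρ / κ) :=
          mul_le_mul_of_nonneg_right (mul_le_mul_of_nonneg_left e1 (by positivity)) (by positivity)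
      _ = 32 * ρ ^ 4 * R * (κ ^ 2 * R) := by field_simp; ring
      _ ≤ 32 * ρ ^ 4 * R * (2 * M) := mul_le_mul_of_nonneg_left hK3 (by positivity)
      _ = 64 * (ρ ^ 4 * R) * M := by ring
      _ ≤ 64 * (ρ ^ 4 * R) * s := mul_le_mul_of_nonneg_left hM (by positivity)
  have b3 : (q : ℝ) ^ 4 * (16 * R ^ 3 / s ^ 2) ≤ 64 * (ρ ^ 4 * R) := by
    rw [mul_div_assoc', div_le_iff₀ (by positivity)]
    have e1 : (q : ℝ) ^ 4 ≤ (ρ * κ) ^ 4 := pow_le_pow_left₀ hqpos.le hqκ 4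
    have e2 : (κ ^ 2 * R) ^ 2 ≤ (2 * M) ^ 2 := pow_le_pow_left₀ (by positivity) hK3 2
    have e3 : M ^ 2 ≤ s ^ 2 := pow_le_pow_left₀ hM0.le hM 2
    calc (q : ℝ) ^ 4 * (16 * R ^ 3) ≤ (ρ * κ) ^ 4 * (16 * R ^ 3) :=
          mul_le_mul_of_nonneg_right e1 (by positivity)
      _ = 16 * ρ ^ 4 * R * (κ ^ 2 * R) ^ 2 := by ring
      _ ≤ 16 * ρ ^ 4 * R * (2 * M) ^ 2 := mul_le_mul_of_nonneg_left e2 (by positivity)
      _ = 64 * (ρ ^ 4 * R) * M ^ 2 := by ring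
      _ ≤ 64 * (ρ ^ 4 * R) * s ^ 2 := mul_le_mul_of_nonneg_left e3 (by positivity)
  calc (q : ℝ) ^ 4 * |((p : ℝ) / q) ^ 4 + tau0 d ((p : ℝ) / q)|
      ≤ (q : ℝ) ^ 4 * (6 * s * h ^ 3 + 16 * R ^ 2 * h / s + 16 * R ^ 3 / s ^ 2) :=
        mul_le_mul_of_nonneg_left c0 (by positivity)
    _ = (q : ℝ) ^ 4 * (6 * s * h ^ 3) + (q : ℝ) ^ 4 * (16 * R ^ 2 * h / s) +
        (q : ℝ) ^ 4 * (16 * R ^ 3 / s ^ 2) := by ring
    _ ≤ 200 * R * ρ ^ 4 := by linarith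

/-- if the value is zero the quartic has an integral root -/
theorem root_of_zero {A x y : ℤ} {s κ ρ : ℝ} (hκ : 14 ≤ κ) (hρ : ρ ≤ 1) {m p q : ℤ} (hq : 1 ≤ q)
    (hpq : IsCoprime p q) (hθ : |(m : ℝ) + (p : ℝ) / q - s| ≤ 2 * ρ / (κ * q))
    (hN : NN p q (dd m A x y) = 0) :
    ∃ n : ℤ, |(n : ℝ) - s| ≤ 3 / 20 ∧ n ^ 4 - 6 * x * n ^ 2 + 8 * y * n - 4 * A - 3 * x ^ 2 = 0 := by
  set d := dd m A x y with hd
  have hqdvd : q ∣ p ^ 4 := by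
    refine ⟨-(d.1 * p ^ 3 + d.2.1 * p ^ 2 * q + d.2.2.1 * p * q ^ 2 + d.2.2.2 * q ^ 3), ?_⟩
    rw [NN] at hN
    linear_combination hN
  have hq11 : q = 1 := by
    have h1 : IsCoprime (p ^ 4) q := hpq.pow_left
    have h2 : IsUnit q := h1.isUnit_of_dvd' hqdvd dvd_rfl
    rcases Int.isUnit_iff.1 h2 with h3 | h3
    · exact h3
    · omega
  subst hq11
  refine ⟨m + p, ?_, ?_⟩
  · push_cast
    have := hθ
    rw [Int.cast_one, div_one, mul_one] at this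
    refine this.trans ?_
    rw [div_le_iff₀ (by linarith)]
    linarith
  · have e := val0 m A x y (p : ℝ)
    have e2 : (NN p 1 d : ℝ) = (p : ℝ) ^ 4 + tau0 d (p : ℝ) := by
      rw [NN, tau0]; push_cast; ring
    rw [hN, Int.cast_zero, hd] at e2
    rw [← e2] at e
    have : (((m + p) ^ 4 - 6 * x * (m + p) ^ 2 + 8 * y * (m + p) - 4 * A - 3 * x ^ 2 : ℤ) : ℝ) = 0 := by
      push_cast
      linarith
    exact_mod_cast this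

/-- the number of points in one arc, the values being restricted to a set -/
theorem fibre2 {R M : ℝ} (hR : 1 ≤ R) (hRM : R ≤ M) {K : ℕ} {κ : ℝ} (hκ0 : 0 < κ)
    (hκ : κ ^ 2 = K) (hK : M / R ≤ K) {k : ℕ} {p q : ℤ} (hq : 1 ≤ q)
    (hpq : IsCoprime p q) {ρ : ℝ}
    (hρ : ρ = max |(q : ℝ) / κ| |κ * (q * ((k : ℝ) / K) - p)|) (h0 : 0 < ρ) (h1 : ρ ≤ 1)
    {g : ℝ} (hg : g = 96 * (80 * (R ^ 3 / M ^ 2) * κ ^ 3))
    (F : Finset (ℤ × ℤ × ℤ × ℤ)) (s : ℤ × ℤ × ℤ × ℤ → ℝ) (m : ℤ × ℤ × ℤ × ℤ → ℤ)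
    (hF : ∀ P ∈ F, Pt R (s P) P.1 P.2.1 P.2.2.1 P.2.2.2 ∧ M ≤ s P ∧ s P ≤ 3 / 2 * M ∧
      |(m P : ℝ) + (k : ℝ) / K - s P| ≤ 1 / K) (T : Finset ℤ)
    (hT : ∀ P ∈ F, NN p q (dd (m P) P.1 P.2.2.1 P.2.2.2) ∈ T) :
    (F.card : ℝ) ≤ T.card * ((1 + g * ρ) * ((1 + g / ρ) * (1 + g / ρ ^ 3))) := by
  classical
  have hR0 : 0 < R := by linarith
  have hM0 : 0 < M := by linarith
  have hg0 : 0 ≤ g := by rw [hg]; positivity
  rcases F.eq_empty_or_nonempty with rfl | ⟨P0, hP0⟩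
  · simp; positivity
  have hK0 : (0 : ℝ) < K := by rw [← hκ]; positivity
  have hK1 : (1 : ℝ) ≤ K := by
    have : 0 < K := by exact_mod_cast hK0
    exact_mod_cast this
  obtain ⟨p', q', hdet, ha', hb'⟩ := second hκ0 hpq hρ h0 h1
  obtain ⟨a1, a2, a3, a4⟩ := hF P0 hP0
  set φ : ℤ × ℤ × ℤ × ℤ → ℤ × ℤ × ℤ × ℤ := fun P =>
    dd (m P) P.1 P.2.2.1 P.2.2.2 - dd (m P0) P0.1 P0.2.2.1 P0.2.2.2 with hφ
  set ψ : ℤ × ℤ × ℤ × ℤ → ℤ × ℤ × ℤ × ℤ := fun P =>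
    (NN p q (dd (m P) P.1 P.2.2.1 P.2.2.2), (cc p q p' q' (φ P)).2.1,
      (cc p q p' q' (φ P)).2.2.1, (cc p q p' q' (φ P)).2.2.2) with hψ
  set Γ : ℝ := 80 * (R ^ 3 / M ^ 2) * κ ^ 3 with hΓ
  have hΓ0 : 0 ≤ Γ := by positivity
  have hinj : Set.InjOn ψ F := by
    intro P hP Q hQ h
    simp only [hψ, Prod.mk.injEq] at h
    obtain ⟨e0, e1, e2, e3⟩ := h
    have e4 : (cc p q p' q' (φ P)).1 = (cc p q p' q' (φ Q)).1 := by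
      have f1 := cc_sub_fst (p := p) (q := q) (p' := p') (q' := q')
        (dd (m P) P.1 P.2.2.1 P.2.2.2) (dd (m P0) P0.1 P0.2.2.1 P0.2.2.2)
      have f2 := cc_sub_fst (p := p) (q := q) (p' := p') (q' := q')
        (dd (m Q) Q.1 Q.2.2.1 Q.2.2.2) (dd (m P0) P0.1 P0.2.2.1 P0.2.2.2)
      rw [e0] at f1
      exact mul_left_cancel₀ (by omega : q ≠ 0) (f1.trans f2.symm)
    have e5 : φ P = φ Q := cc_inj hdet (Prod.ext e4 (Prod.ext e1 (Prod.ext e2 e3)))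
    have h2 : dd (m P) P.1 P.2.2.1 P.2.2.2 = dd (m Q) Q.1 Q.2.2.1 Q.2.2.2 := sub_left_injective e5
    obtain ⟨-, b1, b2, b3⟩ := dd_inj h2
    have q1 := (hF P hP).1.eq
    have q2 := (hF Q hQ).1.eq
    have b4 : P.2.1 = Q.2.1 := by
      rw [b1, b2, b3] at q1
      linarith
    exact Prod.ext b1 (Prod.ext b4 (Prod.ext b2 b3))
  have hmap : ∀ P ∈ F, ψ P ∈ T ×ˢ (Icc (-⌊12 * Γ * ρ ^ 2 * (2 / ρ)⌋) ⌊12 * Γ * ρ ^ 2 * (2 / ρ)⌋ ×ˢ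
      (Icc (-⌊12 * Γ * ρ * (2 / ρ) ^ 2⌋) ⌊12 * Γ * ρ * (2 / ρ) ^ 2⌋ ×ˢ
      Icc (-⌊4 * Γ * (2 / ρ) ^ 3⌋) ⌊4 * Γ * (2 / ρ) ^ 3⌋)) := by
    intro P hP
    obtain ⟨b1, b2, b3, b4⟩ := hF P hP
    obtain ⟨c0, c1, c2, c3⟩ := diff_bound b1 a1 (m := m P) (m' := m P0) (θ := (k : ℝ) / K)
      b2 a2 b3 a3 hRM hK hK1 b4 a4
    obtain ⟨-, m1, m2, m3⟩ := cub_mem (p := p) (q := q) (p' := p') (q' := q') hκ0
      (θ := (k : ℝ) / K) (ρ := ρ) (ρ' := 2 / ρ)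
      (G := 80 * (R ^ 3 / M ^ 2)) (by rw [hρ]; exact le_max_left _ _)
      (by rw [hρ]; exact le_max_right _ _) ha' hb' (by positivity) c0
      (c1.trans (le_of_eq (by rw [hκ]))) (c2.trans (le_of_eq (by rw [← hκ]; ring)))
      (c3.trans (le_of_eq (by rw [← hκ]; ring)))
    rw [mem_product, mem_product, mem_product]
    exact ⟨hT P hP, mem_Icc_of_abs m1, mem_Icc_of_abs m2, mem_Icc_of_abs m3⟩
  have hcard := Finset.card_le_card_of_injOn ψ hmap hinj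
  rw [card_product, card_product, card_product] at hcard
  have hc : (F.card : ℝ) ≤ (T.card : ℝ) *
      (((Icc (-⌊12 * Γ * ρ ^ 2 * (2 / ρ)⌋) ⌊12 * Γ * ρ ^ 2 * (2 / ρ)⌋).card : ℝ) *
      (((Icc (-⌊12 * Γ * ρ * (2 / ρ) ^ 2⌋) ⌊12 * Γ * ρ * (2 / ρ) ^ 2⌋).card : ℝ) *
      ((Icc (-⌊4 * Γ * (2 / ρ) ^ 3⌋) ⌊4 * Γ * (2 / ρ) ^ 3⌋).card : ℝ))) := by
    exact_mod_cast hcard
  refine hc.trans ?_
  have u1 := card_Icc_le (B := 12 * Γ * ρ ^ 2 * (2 / ρ)) (by positivity)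
  have u2 := card_Icc_le (B := 12 * Γ * ρ * (2 / ρ) ^ 2) (by positivity)
  have u3 := card_Icc_le (B := 4 * Γ * (2 / ρ) ^ 3) (by positivity)
  have f1 : 2 * (12 * Γ * ρ ^ 2 * (2 / ρ)) + 1 ≤ 1 + g * ρ := by
    have e : 2 * (12 * Γ * ρ ^ 2 * (2 / ρ)) = 48 * (Γ * ρ) := by field_simp; ring
    rw [e, hg]
    have : 0 ≤ Γ * ρ := by positivity
    linarith
  have f2 : 2 * (12 * Γ * ρ * (2 / ρ) ^ 2) + 1 ≤ 1 + g / ρ := by
    have e : 2 * (12 * Γ * ρ * (2 / ρ) ^ 2) = 96 * Γ / ρ := by field_simp; ring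
    rw [e, hg]
    linarith
  have f3 : 2 * (4 * Γ * (2 / ρ) ^ 3) + 1 ≤ 1 + g / ρ ^ 3 := by
    have e : 2 * (4 * Γ * (2 / ρ) ^ 3) = 64 * (Γ / ρ ^ 3) := by field_simp; ring
    rw [e, hg]
    have : 0 ≤ Γ / ρ ^ 3 := by positivity
    have e2 : 96 * Γ / ρ ^ 3 = 96 * (Γ / ρ ^ 3) := by ring
    rw [e2]
    linarith
  refine mul_le_mul_of_nonneg_left (mul_le_mul (u1.trans f1) (mul_le_mul (u2.trans f2)
    (u3.trans f3) (by positivity) (by positivity)) (by positivity) (by positivity)) (by positivity)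

end Pool.Agent.H83HL
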