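import Pool.Agent.H83HL.LowC
import Pool.Agent.H83HL.Upper

/-!
# The number of integral points of size `X` on curves of height `R`
-/

set_option autoImplicit false

namespace Pool.Agent.H83HL

open Finset

/-- The integral points `(x, y)`, `X ≤ x ≤ 2 X`, of the elliptic curves `y ^ 2 = x ^ 3 + A x + B`
with `|A| ≤ R ^ 2`, `|B| ≤ R ^ 3`, as quadruples `(A, B, x, y)`. -/
def points (R X : ℝ) : Set (ℤ × ℤ × ℤ × ℤ) :=
  {P | |(P.1 : ℝ)| ≤ R ^ 2 ∧ |(P.2.1 : ℝ)| ≤ R ^ 3 ∧ 4 * P.1 ^ 3 + 27 * P.2.1 ^ 2 ≠ 0 ∧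
    P.2.2.2 ^ 2 = P.2.2.1 ^ 3 + P.1 * P.2.2.1 + P.2.1 ∧
    X ≤ (P.2.2.1 : ℝ) ∧ (P.2.2.1 : ℝ) ≤ 2 * X}

theorem points_finite {R X : ℝ} (hR : 1 ≤ R) (hX : R ^ 2 ≤ X) : (points R X).Finite := by
  have hR0 : 0 < R := by linarith
  have hX1 : 1 ≤ X := by nlinarith
  set Y : ℝ := (2 * X) ^ 3 + R ^ 2 * (2 * X) + R ^ 3 with hY
  have hfin : ((Icc (-⌊R ^ 2⌋) ⌊R ^ 2⌋ ×ˢ (Icc (-⌊R ^ 3⌋) ⌊R ^ 3⌋ ×ˢ
      (Icc (-⌊2 * X⌋) ⌊2 * X⌋ ×ˢ Icc (-⌊Y⌋) ⌊Y⌋)) : Finset (ℤ × ℤ × ℤ × ℤ)) :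
      Set (ℤ × ℤ × ℤ × ℤ)).Finite := Finset.finite_toSet _
  refine hfin.subset ?_
  rintro ⟨A, B, x, y⟩ ⟨hA, hB, -, he, hx1, hx2⟩
  simp only at hA hB he hx1 hx2
  rw [mem_coe, mem_product, mem_product, mem_product]
  refine ⟨mem_Icc_of_abs hA, mem_Icc_of_abs hB, mem_Icc_of_abs ?_, mem_Icc_of_abs ?_⟩
  · rw [abs_le]; constructor <;> linarith
  · have hx0 : (0 : ℝ) ≤ x := by linarith
    have e : (y : ℝ) ^ 2 = (x : ℝ) ^ 3 + A * x + B := by exact_mod_cast he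
    have e1 : (y : ℝ) ^ 2 ≤ Y := by
      rw [e, hY]
      have h1 : (x : ℝ) ^ 3 ≤ (2 * X) ^ 3 := pow_le_pow_left₀ hx0 hx2 3
      have h2 : (A : ℝ) * x ≤ R ^ 2 * (2 * X) :=
        calc (A : ℝ) * x ≤ |(A : ℝ)| * x := mul_le_mul_of_nonneg_right (le_abs_self _) hx0
          _ ≤ R ^ 2 * (2 * X) := mul_le_mul hA hx2 hx0 (by positivity)
      have h3 := le_abs_self (B : ℝ)
      linarith
    have e2 : |(y : ℝ)| ≤ (y : ℝ) ^ 2 := by
      have : |y| ≤ y ^ 2 := by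
        rw [← sq_abs]
        rcases eq_or_ne y 0 with h | h
        · rw [h]; simp
        · have := Int.one_le_abs h; nlinarith
      exact_mod_cast this
    exact e2.trans e1

theorem main : ∃ c C : ℝ, 0 < c ∧ 0 < C ∧ ∀ R X : ℝ, 1 ≤ R → R ^ 2 ≤ X →
    (points R X).Finite ∧
    ((points R X).ncard : ℝ) ≤ C * (R ^ 5 / √X + R ^ 2 * √R + √X / R) ∧
    (X ≤ c * R ^ 6 → c * (R ^ 5 / √X) ≤ ((points R X).ncard : ℝ)) := by
  classical
  obtain ⟨C, hC, hup⟩ := upper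
  obtain ⟨c, hc, c1, hc1, hlow⟩ := lower
  refine ⟨min c (c1 ^ 2), 2 * C, lt_min hc (by positivity), by positivity, ?_⟩
  intro R X hR hX
  have hR0 : 0 < R := by linarith
  have hX0 : 0 < X := by nlinarith
  have hfin := points_finite hR hX
  have hM0 : 0 < √X := Real.sqrt_pos.2 hX0
  have hM2 : √X ^ 2 = X := Real.sq_sqrt hX0.le
  have hRM : R ≤ √X := Real.le_sqrt_of_sq_le hX
  refine ⟨hfin, ?_, ?_⟩
  · rw [Set.ncard_eq_toFinset_card _ hfin]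
    set F := hfin.toFinset with hF
    have hmem : ∀ P ∈ F, P ∈ points R X := fun P hP => by
      rw [hF, Set.Finite.mem_toFinset] at hP; exact hP
    set F1 := F.filter fun P => 0 ≤ P.2.2.2 with hF1
    set F2 := (F.filter fun P => ¬ 0 ≤ P.2.2.2).image
      (fun P : ℤ × ℤ × ℤ × ℤ => ((P.1, P.2.1, P.2.2.1, -P.2.2.2) : ℤ × ℤ × ℤ × ℤ)) with hF2
    have c2 : F2.card = (F.filter fun P => ¬ 0 ≤ P.2.2.2).card := by
      rw [hF2]
      refine card_image_of_injective _ ?_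
      rintro ⟨a, b, x, y⟩ ⟨a', b', x', y'⟩ h
      simp only [Prod.mk.injEq, neg_inj] at h
      simp only [Prod.mk.injEq]
      exact h
    have hsum : F.card = F1.card + F2.card := by
      rw [c2, hF1]
      exact (card_filter_add_card_filter_not _).symm
    have hs : ∀ x : ℤ, X ≤ (x : ℝ) → (x : ℝ) ≤ 2 * X → √X ≤ √(x : ℝ) ∧ √(x : ℝ) ≤ 3 / 2 * √X := by
      intro x h1 h2
      refine ⟨Real.sqrt_le_sqrt h1, ?_⟩
      refine Real.sqrt_le_iff.2 ⟨by positivity, ?_⟩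
      rw [mul_pow, hM2]
      nlinarith
    have key : ∀ A B x y : ℤ, (A, B, x, y) ∈ points R X → ∀ y' : ℤ, 0 ≤ y' → y' ^ 2 = y ^ 2 →
        ∃ s, Pt R s A B x y' ∧ √X ≤ s ∧ s ≤ 3 / 2 * √X ∧ 4 * A ^ 3 + 27 * B ^ 2 ≠ 0 := by
      rintro A B x y ⟨hA, hB, hD, he, hx1, hx2⟩ y' hy0 hyy
      simp only at hA hB hD he hx1 hx2
      obtain ⟨s1, s2⟩ := hs x hx1 hx2
      refine ⟨√(x : ℝ), ⟨hR, hRM.trans s1, Real.sq_sqrt (by linarith), hy0, hyy.trans he, hA, hB⟩,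
        s1, s2, hD⟩
    have u1 := hup R (√X) hR hRM F1 (by
      intro P hP
      rw [hF1, mem_filter] at hP
      exact key P.1 P.2.1 P.2.2.1 P.2.2.2 (hmem P hP.1) _ hP.2 rfl)
    have u2 := hup R (√X) hR hRM F2 (by
      intro P hP
      rw [hF2, mem_image] at hP
      obtain ⟨P', hP', rfl⟩ := hP
      rw [mem_filter] at hP'
      exact key P'.1 P'.2.1 P'.2.2.1 P'.2.2.2 (hmem P' hP'.1) (-P'.2.2.2)
        (by have := hP'.2; omega) (by ring))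
    rw [hsum]
    push_cast
    calc (F1.card : ℝ) + F2.card ≤ C * (R ^ 5 / √X + R ^ 2 * √R + √X / R) +
          C * (R ^ 5 / √X + R ^ 2 * √R + √X / R) := add_le_add u1 u2
      _ = 2 * C * (R ^ 5 / √X + R ^ 2 * √R + √X / R) := by ring
  · intro hXR
    obtain ⟨F, hF, hFc⟩ := hlow R (√X) hR hRM (by
      refine le_of_sq_le_sq ?_ (by positivity)
      rw [hM2]
      calc X ≤ min c (c1 ^ 2) * R ^ 6 := hXR
        _ ≤ c1 ^ 2 * R ^ 6 := mul_le_mul_of_nonneg_right (min_le_right _ _) (by positivity)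
        _ = (c1 * R ^ 3) ^ 2 := by ring)
    have hsub : (F : Set (ℤ × ℤ × ℤ × ℤ)) ⊆ points R X := by
      intro P hP
      obtain ⟨h1, h2, h3, h4, h5, h6⟩ := hF P hP
      rw [hM2] at h3 h4
      exact ⟨h1, h2, h6, h5, h3, h4⟩
    have hcard : F.card ≤ (points R X).ncard := by
      rw [← Set.ncard_coe_finset]
      exact Set.ncard_le_ncard hsub hfin
    calc min c (c1 ^ 2) * (R ^ 5 / √X) ≤ c * (R ^ 5 / √X) :=
          mul_le_mul_of_nonneg_right (min_le_left _ _) (by positivity)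
      _ ≤ F.card := hFc
      _ ≤ _ := by exact_mod_cast hcard

end Pool.Agent.H83HL
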