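import Pool.Agent.H83HL.Fib2
import Pool.Agent.H83HL.Arc2

/-!
# The sharp upper bound for the number of integral points
-/

set_option autoImplicit false

namespace Pool.Agent.H83HL

open Finset

theorem upper2 : ∃ C : ℝ, 0 < C ∧ ∀ R M : ℝ, 1 ≤ R → R ≤ M → ∀ F : Finset (ℤ × ℤ × ℤ × ℤ),
    (∀ P ∈ F, ∃ s : ℝ, Pt R s P.1 P.2.1 P.2.2.1 P.2.2.2 ∧ M ≤ s ∧ s ≤ 3 / 2 * M ∧
      4 * P.1 ^ 3 + 27 * P.2.1 ^ 2 ≠ 0) →
    (F.card : ℝ) ≤ C * (R ^ 5 / M + (R ^ 2 + √(M * R)) * (1 + Real.log M) ^ 4) := by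
  classical
  obtain ⟨C0, hC0, hup⟩ := upper
  -- the constants
  obtain ⟨C1, hC1⟩ : ∃ C1 : ℝ, C1 = 96 ^ 2 * 51200 := ⟨_, rfl⟩
  have hC10 : 0 < C1 := by rw [hC1]; norm_num
  refine ⟨40201 * C0 + 36504 + 1538 * (2 * C1 ^ 2) + 460800 * 30721, by positivity, ?_⟩
  intro R M hR hRM F hF
  have hR0 : 0 < R := by linarith
  have hM0 : 0 < M := by linarith
  have hM1 : 1 ≤ M := by linarith
  have hlogM : 0 ≤ Real.log M := Real.log_nonneg hM1
  set V : ℝ := (R ^ 2 + √(M * R)) * (1 + Real.log M) ^ 4 with hV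
  have hV0 : 0 ≤ V := by positivity
  have hp1 : 0 ≤ R ^ 5 / M := by positivity
  have hw1 : 1 ≤ √R := Real.one_le_sqrt.2 hR
  have hwR : √R ^ 2 = R := Real.sq_sqrt hR0.le
  rcases le_or_gt M (200 * (R ^ 2 * √R)) with hcase | hcase
  · -- small `M`
    have h1 : R ^ 2 * √R ≤ 200 * (R ^ 5 / M) := by
      rw [mul_div_assoc', le_div_iff₀ hM0]
      calc R ^ 2 * √R * M ≤ R ^ 2 * √R * (200 * (R ^ 2 * √R)) :=
            mul_le_mul_of_nonneg_left hcase (by positivity)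
        _ = 200 * R ^ 4 * √R ^ 2 := by ring
        _ = 200 * R ^ 5 := by rw [hwR]; ring
    have h2 : M / R ≤ 40000 * (R ^ 5 / M) := by
      rw [mul_div_assoc', div_le_div_iff₀ hR0 hM0]
      calc M * M ≤ (200 * (R ^ 2 * √R)) * (200 * (R ^ 2 * √R)) :=
            mul_le_mul hcase hcase hM0.le (by positivity)
        _ = 40000 * R ^ 4 * √R ^ 2 := by ring
        _ = 40000 * R ^ 5 * 1 := by rw [hwR]; ring
        _ ≤ 40000 * R ^ 5 * R := mul_le_mul_of_nonneg_left hR (by positivity)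
    calc (F.card : ℝ) ≤ C0 * (R ^ 5 / M + R ^ 2 * √R + M / R) := hup R M hR hRM F hF
      _ ≤ C0 * (40201 * (R ^ 5 / M)) := mul_le_mul_of_nonneg_left (by linarith) hC0.le
      _ = 40201 * C0 * (R ^ 5 / M) := by ring
      _ ≤ (40201 * C0 + 36504 + 1538 * (2 * C1 ^ 2) + 460800 * 30721) * (R ^ 5 / M + V) := by
          refine mul_le_mul ?_ (by linarith) hp1 (by positivity)
          have : 0 ≤ 1538 * (2 * C1 ^ 2) := by positivity
          linarith
  -- large `M`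
  have hM200 : 200 * R ≤ M := by
    have : R ≤ R ^ 2 * √R := by nlinarith
    linarith
  choose! s hs1 hs2 hs3 hs4 using hF
  -- K
  set K : ℕ := ⌈M / R⌉₊ with hKdef
  have hMR : 200 ≤ M / R := by rw [le_div_iff₀ hR0]; linarith
  have hK : M / R ≤ K := Nat.le_ceil _
  have hK2 : (K : ℝ) ≤ 2 * (M / R) := by
    have := (Nat.ceil_lt_add_one (by positivity : 0 ≤ M / R)).le
    linarith
  have hK1 : (200 : ℝ) ≤ K := hMR.trans hK
  have hKpos : (0 : ℝ) < K := by linarith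
  obtain ⟨κ, hκ⟩ : ∃ κ, κ = √(K : ℝ) := ⟨_, rfl⟩
  have hκ0 : 0 < κ := by rw [hκ]; exact Real.sqrt_pos.2 hKpos
  have hκ2 : κ ^ 2 = K := by rw [hκ]; exact Real.sq_sqrt hKpos.le
  have hκ14 : 14 ≤ κ := by
    rw [hκ]
    refine Real.le_sqrt_of_sq_le ?_
    linarith
  have hκ1 : 1 ≤ κ := by linarith
  -- Dirichlet
  have hD := fun (k : ℕ) (hk : k < K) => dirichlet hk hκ0 hκ2
  choose! p q hq1 hpq hcop hqκ hqp using hD
  set ρ : ℕ → ℝ := fun k => max |((q k : ℤ) : ℝ) / κ| |κ * (((q k : ℤ) : ℝ) * ((k : ℝ) / K) - ((p k : ℤ) : ℝ))|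
    with hρdef
  have hρa : ∀ k, (q k : ℝ) / κ ≤ ρ k := by
    intro k
    have : |((q k : ℤ) : ℝ) / κ| ≤ ρ k := le_max_left _ _
    rw [Int.cast_natCast] at this
    exact (le_abs_self _).trans this
  have hρb : ∀ k, |κ * ((q k : ℝ) * ((k : ℝ) / K) - (p k : ℝ))| ≤ ρ k := by
    intro k
    have : |κ * (((q k : ℤ) : ℝ) * ((k : ℝ) / K) - ((p k : ℤ) : ℝ))| ≤ ρ k := le_max_right _ _
    rwa [Int.cast_natCast, Int.cast_natCast] at this
  have hρpos : ∀ k < K, 0 < ρ k := by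
    intro k hk
    have h1 : (1 : ℝ) ≤ q k := by exact_mod_cast hq1 k hk
    exact lt_of_lt_of_le (by positivity) (hρa k)
  have hρ1 : ∀ k < K, ρ k ≤ 1 := by
    intro k hk
    refine max_le ?_ ?_
    · rw [Int.cast_natCast, abs_of_nonneg (by positivity), div_le_one hκ0]
      exact hqκ k hk
    · rw [Int.cast_natCast, Int.cast_natCast, abs_mul, abs_of_pos hκ0]
      calc κ * |(q k : ℝ) * ((k : ℝ) / K) - (p k : ℝ)| ≤ κ * (1 / κ) :=
            mul_le_mul_of_nonneg_left (hqp k hk) hκ0.le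
        _ = 1 := by field_simp
  -- position of a point
  set m : ℤ × ℤ × ℤ × ℤ → ℤ := fun P => ⌊s P⌋ with hm
  set kk : ℤ × ℤ × ℤ × ℤ → ℕ := fun P => ⌊(K : ℝ) * Int.fract (s P)⌋₊ with hkk
  have hkK : ∀ P, kk P < K := by
    intro P
    have h1 : (K : ℝ) * Int.fract (s P) < K := by
      calc (K : ℝ) * Int.fract (s P) < K * 1 :=
            mul_lt_mul_of_pos_left (Int.fract_lt_one _) hKpos
        _ = K := mul_one _
    have h2 : 0 ≤ (K : ℝ) * Int.fract (s P) := mul_nonneg hKpos.le (Int.fract_nonneg _)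
    exact (Nat.floor_lt h2).2 h1
  have hpos : ∀ P, |(m P : ℝ) + (kk P : ℝ) / K - s P| ≤ 1 / K := by
    intro P
    have h2 : 0 ≤ (K : ℝ) * Int.fract (s P) := mul_nonneg hKpos.le (Int.fract_nonneg _)
    have h3 : (kk P : ℝ) ≤ (K : ℝ) * Int.fract (s P) := Nat.floor_le h2
    have h4 : (K : ℝ) * Int.fract (s P) < kk P + 1 := Nat.lt_floor_add_one _
    have h5 : (m P : ℝ) + Int.fract (s P) = s P := Int.floor_add_fract _
    have h6 : (m P : ℝ) + (kk P : ℝ) / K - s P = ((kk P : ℝ) - K * Int.fract (s P)) / K := by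
      calc (m P : ℝ) + (kk P : ℝ) / K - s P = (kk P : ℝ) / K - Int.fract (s P) := by linarith
        _ = ((kk P : ℝ) - K * Int.fract (s P)) / K := by field_simp
    rw [h6, abs_div, abs_of_pos hKpos]
    refine div_le_div_of_nonneg_right ?_ hKpos.le
    rw [abs_le]; constructor <;> linarith
  -- the value at the centre
  set nn : ℤ × ℤ × ℤ × ℤ → ℤ := fun P =>
    NN (p (kk P)) (q (kk P)) (dd (m P) P.1 P.2.2.1 P.2.2.2) with hnn
  have hval : ∀ P ∈ F, |(m P : ℝ) + (((p (kk P) : ℕ) : ℤ) : ℝ) / (((q (kk P) : ℕ) : ℤ) : ℝ) - s P| ≤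
      2 * ρ (kk P) / (κ * (((q (kk P) : ℕ) : ℤ) : ℝ)) ∧
      |(nn P : ℝ)| ≤ 200 * R * ρ (kk P) ^ 4 := by
    intro P hP
    have hk := hkK P
    exact NN_bound (hs1 P hP) (hs2 P hP) (hs3 P hP) hRM hκ1 (θ := (kk P : ℝ) / K)
      (ρ := ρ (kk P)) (m := m P) (p := p (kk P)) (q := q (kk P))
      (by rw [hκ2]; exact hK) (by rw [hκ2]; exact hK2) (by rw [hκ2]; exact hpos P)
      (by exact_mod_cast hq1 _ hk) (by rw [Int.cast_natCast]; exact hρa _) (by
        rw [Int.cast_natCast, Int.cast_natCast]; exact hρb _) (hρ1 _ hk)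
  set g : ℝ := 96 * (80 * (R ^ 3 / M ^ 2) * κ ^ 3) with hg
  have hg0 : 0 < g := by positivity
  set ρ0 : ℝ := min 1 (1 / g) with hρ0
  have hρ00 : 0 < ρ0 := lt_min one_pos (by positivity)
  have hρ01 : ρ0 ≤ 1 := min_le_left _ _
  have hρ0g : g * ρ0 ≤ 1 := by
    calc g * ρ0 ≤ g * (1 / g) := mul_le_mul_of_nonneg_left (min_le_right _ _) hg0.le
      _ = 1 := by field_simp
  -- splitting
  set F1 := F.filter fun P => nn P = 0 with hF1
  set F2 := F.filter fun P => ¬ nn P = 0 with hF2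
  have hsplit : F.card = F1.card + F2.card := (card_filter_add_card_filter_not _).symm
  set F3 := F2.filter fun P => ρ (kk P) ≤ ρ0 with hF3
  set F4 := F2.filter fun P => ¬ ρ (kk P) ≤ ρ0 with hF4
  have hsplit2 : F2.card = F3.card + F4.card := (card_filter_add_card_filter_not _).symm
  -- the first part
  have hone : (F1.card : ℝ) ≤ 36504 * (R ^ 5 / M) := by
    refine root_count hR hRM F1 ?_
    intro P hP
    obtain ⟨hPF, hPn⟩ := mem_filter.1 hP
    have hk := hkK P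
    have hcop' : IsCoprime ((p (kk P) : ℕ) : ℤ) ((q (kk P) : ℕ) : ℤ) := hcop _ hk
    obtain ⟨n, hn1, hn2⟩ := root_of_zero hκ14 (hρ1 _ hk) (by exact_mod_cast hq1 _ hk) hcop'
      (hval P hPF).1 hPn
    exact ⟨s P, n, hs1 P hPF, hs2 P hPF, hs3 P hPF, hs4 P hPF, hn1, hn2⟩
  -- numerical bounds
  have hg2 : g ^ 2 ≤ C1 * (R ^ 3 / M) := by
    have e : g ^ 2 = 96 ^ 2 * 6400 * (R ^ 6 / M ^ 4) * (κ ^ 2) ^ 3 := by
      rw [hg]; field_simp; ring
    rw [e, hκ2]
    have h1 : (K : ℝ) ^ 3 ≤ (2 * (M / R)) ^ 3 := pow_le_pow_left₀ hKpos.le hK2 3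
    calc 96 ^ 2 * 6400 * (R ^ 6 / M ^ 4) * (K : ℝ) ^ 3
        ≤ 96 ^ 2 * 6400 * (R ^ 6 / M ^ 4) * (2 * (M / R)) ^ 3 :=
          mul_le_mul_of_nonneg_left h1 (by positivity)
      _ = C1 * (R ^ 3 / M) := by rw [hC1]; field_simp; ring
  have hKg4 : (K : ℝ) * g ^ 4 ≤ 2 * C1 ^ 2 * (R ^ 5 / M) := by
    have h1 : g ^ 4 ≤ (C1 * (R ^ 3 / M)) ^ 2 := by
      calc g ^ 4 = (g ^ 2) ^ 2 := by ring
        _ ≤ _ := pow_le_pow_left₀ (by positivity) hg2 2
    calc (K : ℝ) * g ^ 4 ≤ 2 * (M / R) * (C1 * (R ^ 3 / M)) ^ 2 :=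
          mul_le_mul hK2 h1 (by positivity) (by positivity)
      _ = 2 * C1 ^ 2 * (R ^ 5 / M) := by field_simp
  -- the arcs which are not close to fractions with small denominators
  have hfour : (F4.card : ℝ) ≤ 1538 * (2 * C1 ^ 2 * (R ^ 5 / M)) := by
    rcases le_or_gt g 1 with hg1 | hg1
    · have : F4 = ∅ := by
        rw [hF4, filter_eq_empty_iff]
        intro P _
        rw [not_not, hρ0, min_eq_left (by rw [le_div_iff₀ hg0]; linarith)]
        exact hρ1 _ (hkK P)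
      rw [this, card_empty, Nat.cast_zero]
      positivity
    have hρ0e : ρ0 = 1 / g := by
      rw [hρ0]; exact min_eq_right (by rw [div_le_one hg0]; exact hg1.le)
    set S := (range K).filter fun k => ¬ ρ k ≤ ρ0 with hS
    have hmaps : ∀ P ∈ F4, kk P ∈ S := by
      intro P hP
      exact mem_filter.2 ⟨mem_range.2 (hkK P), (mem_filter.1 hP).2⟩
    have htwo : (F4.card : ℝ) ≤ ∑ k ∈ S, (1 + g ^ 4 + 4 * (g + g ^ 3) * (1 / ρ k ^ 3) +
        6 * g ^ 2 * (1 / ρ k ^ 4)) := by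
      rw [card_eq_sum_card_fiberwise hmaps]
      push_cast
      refine sum_le_sum fun k hk => ?_
      have hkK' : k < K := mem_range.1 (mem_filter.1 hk).1
      have hcop' : IsCoprime ((p k : ℕ) : ℤ) ((q k : ℕ) : ℤ) := hcop _ hkK'
      refine fibre hR hRM hκ0 hκ2 hK hcop' (k := k) rfl (hρpos k hkK') (hρ1 k hkK') hg _ s m ?_
      intro P hP
      obtain ⟨hP1, hP2⟩ := mem_filter.1 hP
      have hPF := (mem_filter.1 (mem_filter.1 hP1).1).1
      refine ⟨hs1 P hPF, hs2 P hPF, hs3 P hPF, ?_⟩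
      have := hpos P
      rwa [hP2] at this
    obtain ⟨t4, t3⟩ := sum_arcs (S := S) (ρ := ρ) (ρ0 := ρ0) (Kr := K) hρ00 hρ01
      (fun k hk => ⟨(not_le.1 (mem_filter.1 hk).2).le, hρ1 k (mem_range.1 (mem_filter.1 hk).1)⟩)
      (by
        intro r hr hr1
        refine arc_count hκ0 hκ2 hr _ ?_
        intro k hk
        obtain ⟨hk1, hk2⟩ := mem_filter.1 hk
        have hkK' : k < K := mem_range.1 (mem_filter.1 hk1).1
        refine ⟨p k, q k, hq1 k hkK', hpq k hkK', ?_, ?_⟩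
        · exact (div_le_iff₀ hκ0).1 ((hρa k).trans hk2)
        · have e : |(q k : ℝ) * ((k : ℝ) / K) - (p k : ℝ)| =
              |κ * ((q k : ℝ) * ((k : ℝ) / K) - (p k : ℝ))| / κ := by
            rw [abs_mul, abs_of_pos hκ0]; field_simp
          rw [e]
          exact div_le_div_of_nonneg_right ((hρb k).trans hk2) hκ0.le) hKpos.le
    have hScard : (S.card : ℝ) ≤ K := by
      have : S.card ≤ (range K).card := card_filter_le _ _
      rw [card_range] at this
      exact_mod_cast this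
    have hsum : ∑ k ∈ S, (1 + g ^ 4 + 4 * (g + g ^ 3) * (1 / ρ k ^ 3) +
        6 * g ^ 2 * (1 / ρ k ^ 4)) ≤ K * (1 + g ^ 4) + 4 * (g + g ^ 3) * (96 * K / ρ0) +
          6 * g ^ 2 * (128 * K / ρ0 ^ 2) := by
      rw [sum_add_distrib, sum_add_distrib, sum_const, nsmul_eq_mul, ← mul_sum, ← mul_sum]
      refine add_le_add (add_le_add ?_ ?_) ?_
      · exact mul_le_mul_of_nonneg_right hScard (by positivity)
      · exact mul_le_mul_of_nonneg_left t3 (by positivity)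
      · exact mul_le_mul_of_nonneg_left t4 (by positivity)
    have e1 : 4 * (g + g ^ 3) * (96 * K / ρ0) = 384 * K * (g ^ 2 + g ^ 4) := by
      rw [hρ0e]; field_simp; ring
    have e2 : 6 * g ^ 2 * (128 * K / ρ0 ^ 2) = 768 * (K * g ^ 4) := by
      rw [hρ0e]; field_simp; ring
    have g4 : 1 ≤ g ^ 4 := one_le_pow₀ hg1.le
    have g24 : g ^ 2 ≤ g ^ 4 := pow_le_pow_right₀ hg1.le (by norm_num)
    calc (F4.card : ℝ) ≤ K * (1 + g ^ 4) + 384 * K * (g ^ 2 + g ^ 4) + 768 * (K * g ^ 4) := by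
          rw [← e1, ← e2]; exact htwo.trans hsum
      _ ≤ 1538 * (K * g ^ 4) := by
          have u1 : K * (1 + g ^ 4) ≤ 2 * (K * g ^ 4) := by nlinarith
          have u2 : K * (g ^ 2 + g ^ 4) ≤ 2 * (K * g ^ 4) := by nlinarith
          linarith
      _ ≤ _ := by linarith
  -- the arcs close to fractions with small denominators
  set A : ℝ := 3600 * κ * R * (1 + Real.log κ) ^ 4 with hA
  have hlogκ : 0 ≤ Real.log κ := Real.log_nonneg hκ1
  have hA0 : 0 ≤ A := by positivity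
  have hthree : (F3.card : ℝ) ≤ 128 * A * (1 + g) := by
    set S := (range K).filter fun k => ρ k ≤ ρ0 with hS
    have hmaps : ∀ P ∈ F3, kk P ∈ S := by
      intro P hP
      exact mem_filter.2 ⟨mem_range.2 (hkK P), (mem_filter.1 hP).2⟩
    set T : ℕ → Finset ℤ := fun k => (F3.filter fun P => kk P = k).image nn with hT
    have hTprop : ∀ k, ∀ z ∈ T k, z ≠ 0 ∧ |(z : ℝ)| ≤ 200 * R * ρ k ^ 4 ∧
        (q k : ℤ) ∣ (p k : ℤ) ^ 4 - z := by
      intro k z hz
      obtain ⟨P, hP, rfl⟩ := mem_image.1 hz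
      obtain ⟨hP1, hP2⟩ := mem_filter.1 hP
      obtain ⟨hP3, -⟩ := mem_filter.1 hP1
      obtain ⟨hPF, hP4⟩ := mem_filter.1 hP3
      refine ⟨hP4, ?_, ?_⟩
      · have := (hval P hPF).2
        rwa [hP2] at this
      · simp only [hnn, hP2]
        rw [NN]
        refine ⟨-((dd (m P) P.1 P.2.2.1 P.2.2.2).1 * (p k : ℤ) ^ 3 +
          (dd (m P) P.1 P.2.2.1 P.2.2.2).2.1 * (p k : ℤ) ^ 2 * (q k : ℤ) +
          (dd (m P) P.1 P.2.2.1 P.2.2.2).2.2.1 * (p k : ℤ) * (q k : ℤ) ^ 2 +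
          (dd (m P) P.1 P.2.2.1 P.2.2.2).2.2.2 * (q k : ℤ) ^ 3), ?_⟩
        ring
    have htwo : (F3.card : ℝ) ≤ ∑ k ∈ S, ((T k).card : ℝ) *
        ((1 + g * ρ k) * ((1 + g / ρ k) * (1 + g / ρ k ^ 3))) := by
      rw [card_eq_sum_card_fiberwise hmaps]
      push_cast
      refine sum_le_sum fun k hk => ?_
      have hkK' : k < K := mem_range.1 (mem_filter.1 hk).1
      have hcop' : IsCoprime ((p k : ℕ) : ℤ) ((q k : ℕ) : ℤ) := hcop _ hkK'
      refine fibre2 hR hRM hκ0 hκ2 hK (by exact_mod_cast hq1 k hkK') hcop' (k := k) rfl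
        (hρpos k hkK') (hρ1 k hkK') hg _ s m ?_ (T k) ?_
      · intro P hP
        obtain ⟨hP1, hP2⟩ := mem_filter.1 hP
        have hPF := (mem_filter.1 (mem_filter.1 hP1).1).1
        refine ⟨hs1 P hPF, hs2 P hPF, hs3 P hPF, ?_⟩
        have := hpos P
        rwa [hP2] at this
      · intro P hP
        have hP2 := (mem_filter.1 hP).2
        refine mem_image.2 ⟨P, hP, ?_⟩
        simp only [hnn, hP2]
    have hstep : ∀ k ∈ S, ((T k).card : ℝ) *
        ((1 + g * ρ k) * ((1 + g / ρ k) * (1 + g / ρ k ^ 3))) ≤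
        2 * (1 + g) ^ 2 * (((T k).card : ℝ) * (1 / ρ k ^ 4)) := by
      intro k hk
      obtain ⟨hk1, hk2⟩ := mem_filter.1 hk
      have hkK' : k < K := mem_range.1 hk1
      have r0 := hρpos k hkK'
      have r1 := hρ1 k hkK'
      obtain ⟨z, hz⟩ : ∃ z, z = 1 / ρ k := ⟨_, rfl⟩
      have hz1 : 1 ≤ z := by rw [hz, le_div_iff₀ r0]; linarith
      have e1 : g / ρ k = g * z := by rw [hz]; ring
      have e3 : g / ρ k ^ 3 = g * z ^ 3 := by rw [hz]; field_simp
      have e4 : 1 / ρ k ^ 4 = z ^ 4 := by rw [hz]; field_simp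
      have a1 : 1 + g * ρ k ≤ 2 := by
        have : g * ρ k ≤ g * ρ0 := mul_le_mul_of_nonneg_left hk2 hg0.le
        linarith
      have a2 : (1 + g * z) * (1 + g * z ^ 3) ≤ (1 + g) ^ 2 * z ^ 4 := by
        have b1 : 1 + g * z ≤ (1 + g) * z := by nlinarith
        have b2 : 1 + g * z ^ 3 ≤ (1 + g) * z ^ 3 := by
          have : 1 ≤ z ^ 3 := one_le_pow₀ hz1
          nlinarith
        calc (1 + g * z) * (1 + g * z ^ 3) ≤ ((1 + g) * z) * ((1 + g) * z ^ 3) :=
              mul_le_mul b1 b2 (by positivity) (by positivity)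
          _ = (1 + g) ^ 2 * z ^ 4 := by ring
      rw [e1, e3, e4]
      calc ((T k).card : ℝ) * ((1 + g * ρ k) * ((1 + g * z) * (1 + g * z ^ 3)))
          ≤ ((T k).card : ℝ) * (2 * ((1 + g) ^ 2 * z ^ 4)) := by
            refine mul_le_mul_of_nonneg_left ?_ (by positivity)
            exact mul_le_mul a1 a2 (by positivity) (by norm_num)
        _ = _ := by ring
    have hw := weighted (S := S) (ρ := ρ) (a := fun k => ((T k).card : ℝ)) (A := A) (ρ0 := ρ0) hA0
      hρ00 (fun k _ => by positivity)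
      (fun k hk => ⟨hρpos k (mem_range.1 (mem_filter.1 hk).1), (mem_filter.1 hk).2⟩)
      (by
        intro r hr hr1
        have h := arc_sum hκ1 hκ2 hr (hr1.trans hρ01) (Z := 200 * R * r ^ 4) (by positivity)
          (S.filter fun j => ρ j ≤ r) p q T
          (by
            intro k hk
            obtain ⟨hk1, hk2⟩ := mem_filter.1 hk
            have hkK' : k < K := mem_range.1 (mem_filter.1 hk1).1
            refine ⟨hq1 k hkK', hpq k hkK', hcop k hkK', ?_, ?_⟩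
            · exact (div_le_iff₀ hκ0).1 ((hρa k).trans hk2)
            · have e : |(q k : ℝ) * ((k : ℝ) / K) - (p k : ℝ)| =
                  |κ * ((q k : ℝ) * ((k : ℝ) / K) - (p k : ℝ))| / κ := by
                rw [abs_mul, abs_of_pos hκ0]; field_simp
              rw [e]
              exact div_le_div_of_nonneg_right ((hρb k).trans hk2) hκ0.le)
          (by
            intro k hk z hz
            obtain ⟨hk1, hk2⟩ := mem_filter.1 hk
            have hkK' : k < K := mem_range.1 (mem_filter.1 hk1).1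
            obtain ⟨z1, z2, z3⟩ := hTprop k z hz
            refine ⟨z1, z2.trans ?_, z3⟩
            exact mul_le_mul_of_nonneg_left (pow_le_pow_left₀ (hρpos k hkK').le hk2 4)
              (by positivity))
        refine h.trans (le_of_eq ?_)
        rw [hA]; ring)
    have hgρ : (1 + g) ^ 2 * ρ0 ≤ 2 * (1 + g) := by
      have : (1 + g) * ρ0 ≤ 2 := by nlinarith
      calc (1 + g) ^ 2 * ρ0 = (1 + g) * ((1 + g) * ρ0) := by ring
        _ ≤ (1 + g) * 2 := mul_le_mul_of_nonneg_left this (by positivity)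
        _ = 2 * (1 + g) := by ring
    calc (F3.card : ℝ) ≤ ∑ k ∈ S, 2 * (1 + g) ^ 2 * (((T k).card : ℝ) * (1 / ρ k ^ 4)) :=
          htwo.trans (sum_le_sum hstep)
      _ = 2 * (1 + g) ^ 2 * ∑ k ∈ S, ((T k).card : ℝ) * (1 / ρ k ^ 4) := by rw [mul_sum]
      _ ≤ 2 * (1 + g) ^ 2 * (32 * A * ρ0) := mul_le_mul_of_nonneg_left hw (by positivity)
      _ = 64 * A * ((1 + g) ^ 2 * ρ0) := by ring
      _ ≤ 64 * A * (2 * (1 + g)) := mul_le_mul_of_nonneg_left hgρ (by positivity)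
      _ = 128 * A * (1 + g) := by ring
  -- the size of this
  have hκR : κ * R ≤ 2 * √(M * R) := by
    have h1 : (κ * R) ^ 2 ≤ (2 * √(M * R)) ^ 2 := by
      rw [mul_pow, mul_pow, Real.sq_sqrt (by positivity), hκ2]
      calc (K : ℝ) * R ^ 2 ≤ 2 * (M / R) * R ^ 2 :=
            mul_le_mul_of_nonneg_right hK2 (by positivity)
        _ = 2 * (M * R) := by field_simp
        _ ≤ 2 ^ 2 * (M * R) := by nlinarith [mul_pos hM0 hR0]
    exact le_of_sq_le_sq h1 (by positivity)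
  have hκRg : κ * R * g ≤ 30721 * R ^ 2 := by
    have h1 : (κ * R * g) ^ 2 ≤ (30721 * R ^ 2) ^ 2 := by
      have e : (κ * R * g) ^ 2 = K * R ^ 2 * g ^ 2 := by rw [← hκ2]; ring
      rw [e]
      calc (K : ℝ) * R ^ 2 * g ^ 2 ≤ 2 * (M / R) * R ^ 2 * (C1 * (R ^ 3 / M)) :=
            mul_le_mul (mul_le_mul_of_nonneg_right hK2 (by positivity)) hg2 (by positivity)
              (by positivity)
        _ = 2 * C1 * R ^ 4 := by field_simp
        _ ≤ 30721 ^ 2 * R ^ 4 := by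
            refine mul_le_mul_of_nonneg_right ?_ (by positivity)
            rw [hC1]; norm_num
        _ = (30721 * R ^ 2) ^ 2 := by ring
    exact le_of_sq_le_sq h1 (by positivity)
  have hκM : κ ≤ M := by
    refine le_of_sq_le_sq ?_ hM0.le
    rw [hκ2]
    calc (K : ℝ) ≤ 2 * (M / R) := hK2
      _ ≤ 2 * M := by
          refine mul_le_mul_of_nonneg_left ?_ (by norm_num)
          exact div_le_self hM0.le hR
      _ ≤ M ^ 2 := by nlinarith
  have hlog : (1 + Real.log κ) ^ 4 ≤ (1 + Real.log M) ^ 4 := by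
    have := Real.log_le_log hκ0 hκM
    exact pow_le_pow_left₀ (by linarith) (by linarith) 4
  have hthree' : (F3.card : ℝ) ≤ 460800 * 30721 * V := by
    calc (F3.card : ℝ) ≤ 128 * A * (1 + g) := hthree
      _ = 460800 * ((κ * R + κ * R * g) * (1 + Real.log κ) ^ 4) := by rw [hA]; ring
      _ ≤ 460800 * ((2 * √(M * R) + 30721 * R ^ 2) * (1 + Real.log M) ^ 4) := by
          refine mul_le_mul_of_nonneg_left ?_ (by norm_num)
          exact mul_le_mul (add_le_add hκR hκRg) hlog (by positivity) (by positivity)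
      _ ≤ 460800 * ((30721 * (R ^ 2 + √(M * R))) * (1 + Real.log M) ^ 4) := by
          refine mul_le_mul_of_nonneg_left ?_ (by norm_num)
          refine mul_le_mul_of_nonneg_right ?_ (by positivity)
          have := Real.sqrt_nonneg (M * R)
          linarith
      _ = 460800 * 30721 * V := by rw [hV]; ring
  rw [hsplit, hsplit2]
  push_cast
  have c1 : 0 ≤ C0 * (R ^ 5 / M) := by positivity
  have c2 : 0 ≤ C0 * V := by positivity
  have c3 : 0 ≤ C1 ^ 2 * V := by positivity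
  nlinarith

end Pool.Agent.H83HL
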