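import Pool.Agent.H83HL.Fin
import Pool.Agent.H83HL.Upper2

/-!
# The number of integral points in an interval on curves of height `R`
-/

set_option autoImplicit false

namespace Pool.Agent.H83HL

open Finset

/-- The integral points `(x, y)`, `X ≤ x ≤ Y`, of the elliptic curves `y ^ 2 = x ^ 3 + A x + B`
with `|A| ≤ R ^ 2`, `|B| ≤ R ^ 3`, as quadruples `(A, B, x, y)`. -/
def pts (R X Y : ℝ) : Set (ℤ × ℤ × ℤ × ℤ) :=
  {P | |(P.1 : ℝ)| ≤ R ^ 2 ∧ |(P.2.1 : ℝ)| ≤ R ^ 3 ∧ 4 * P.1 ^ 3 + 27 * P.2.1 ^ 2 ≠ 0 ∧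
    P.2.2.2 ^ 2 = P.2.2.1 ^ 3 + P.1 * P.2.2.1 + P.2.1 ∧
    X ≤ (P.2.2.1 : ℝ) ∧ (P.2.2.1 : ℝ) ≤ Y}

theorem pts_finite {R X Y : ℝ} (hR : 1 ≤ R) (hX : R ^ 2 ≤ X) : (pts R X Y).Finite := by
  have hR0 : 0 < R := by linarith
  have hX1 : 1 ≤ X := by nlinarith
  set W : ℝ := (2 * max X Y) ^ 3 + R ^ 2 * (2 * max X Y) + R ^ 3 with hW
  have hm0 : 0 ≤ max X Y := le_trans (by linarith) (le_max_left X Y)
  have hfin : ((Icc (-⌊R ^ 2⌋) ⌊R ^ 2⌋ ×ˢ (Icc (-⌊R ^ 3⌋) ⌊R ^ 3⌋ ×ˢ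
      (Icc (-⌊2 * max X Y⌋) ⌊2 * max X Y⌋ ×ˢ Icc (-⌊W⌋) ⌊W⌋)) : Finset (ℤ × ℤ × ℤ × ℤ)) :
      Set (ℤ × ℤ × ℤ × ℤ)).Finite := Finset.finite_toSet _
  refine hfin.subset ?_
  rintro ⟨A, B, x, y⟩ ⟨hA, hB, -, he, hx1, hx2'⟩
  simp only at hA hB he hx1 hx2'
  have hx2 : (x : ℝ) ≤ 2 * max X Y := by
    have := le_max_right X Y
    linarith
  rw [mem_coe, mem_product, mem_product, mem_product]
  refine ⟨mem_Icc_of_abs hA, mem_Icc_of_abs hB, mem_Icc_of_abs ?_, mem_Icc_of_abs ?_⟩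
  · rw [abs_le]; constructor <;> linarith
  · have hx0 : (0 : ℝ) ≤ x := by linarith
    have e : (y : ℝ) ^ 2 = (x : ℝ) ^ 3 + A * x + B := by exact_mod_cast he
    have e1 : (y : ℝ) ^ 2 ≤ W := by
      rw [e, hW]
      have h1 : (x : ℝ) ^ 3 ≤ (2 * max X Y) ^ 3 := pow_le_pow_left₀ hx0 hx2 3
      have h2 : (A : ℝ) * x ≤ R ^ 2 * (2 * max X Y) :=
        calc (A : ℝ) * x ≤ |(A : ℝ)| * x := mul_le_mul_of_nonneg_right (le_abs_self _) hx0
          _ ≤ R ^ 2 * (2 * max X Y) := mul_le_mul hA hx2 hx0 (by positivity)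
      have h3 := le_abs_self (B : ℝ)
      linarith
    have e2 : |(y : ℝ)| ≤ (y : ℝ) ^ 2 := by
      have : |y| ≤ y ^ 2 := by
        rw [← sq_abs]
        rcases eq_or_ne y 0 with h | h
        · rw [h]; simp
        · have := Int.one_le_abs h; nlinarith
      exact_mod_cast this
    exact e2.trans e1

/-- a dyadic interval -/
theorem dyadic : ∃ C : ℝ, 0 < C ∧ ∀ R X Y : ℝ, 1 ≤ R → R ^ 2 ≤ X → Y ≤ 2 * X →
    ((pts R X Y).ncard : ℝ) ≤ C * (R ^ 5 / √X + (R ^ 2 + √(R * √X)) * (1 + Real.log X) ^ 4) := by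
  classical
  obtain ⟨C, hC, hup⟩ := upper2
  refine ⟨2 * C, by positivity, ?_⟩
  intro R X Y hR hX hYX
  have hR0 : 0 < R := by linarith
  have hX1 : 1 ≤ X := by nlinarith
  have hX0 : 0 < X := by linarith
  have hfin := pts_finite (Y := Y) hR hX
  have hM0 : 0 < √X := Real.sqrt_pos.2 hX0
  have hM2 : √X ^ 2 = X := Real.sq_sqrt hX0.le
  have hRM : R ≤ √X := Real.le_sqrt_of_sq_le hX
  rw [Set.ncard_eq_toFinset_card _ hfin]
  set F := hfin.toFinset with hF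
  have hmem : ∀ P ∈ F, P ∈ pts R X Y := fun P hP => by
    rw [hF, Set.Finite.mem_toFinset] at hP; exact hP
  set F1 := F.filter fun P => 0 ≤ P.2.2.2 with hF1
  set F2 := (F.filter fun P => ¬ 0 ≤ P.2.2.2).image
    (fun P : ℤ × ℤ × ℤ × ℤ => ((P.1, P.2.1, P.2.2.1, -P.2.2.2) : ℤ × ℤ × ℤ × ℤ)) with hF2
  have c2 : F2.card = (F.filter fun P => ¬ 0 ≤ P.2.2.2).card := by
    rw [hF2]
    refine card_image_of_injective _ ?_
    rintro ⟨a, b, x, y⟩ ⟨a', b', x', y'⟩ h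
    simp only [Prod.mk.injEq, neg_inj] at h
    simp only [Prod.mk.injEq]
    exact h
  have hsum : F.card = F1.card + F2.card := by
    rw [c2, hF1]
    exact (card_filter_add_card_filter_not _).symm
  have hs : ∀ x : ℤ, X ≤ (x : ℝ) → (x : ℝ) ≤ Y → √X ≤ √(x : ℝ) ∧ √(x : ℝ) ≤ 3 / 2 * √X := by
    intro x h1 h2
    refine ⟨Real.sqrt_le_sqrt h1, ?_⟩
    refine Real.sqrt_le_iff.2 ⟨by positivity, ?_⟩
    rw [mul_pow, hM2]
    nlinarith
  have key : ∀ A B x y : ℤ, (A, B, x, y) ∈ pts R X Y → ∀ y' : ℤ, 0 ≤ y' → y' ^ 2 = y ^ 2 →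
      ∃ s, Pt R s A B x y' ∧ √X ≤ s ∧ s ≤ 3 / 2 * √X ∧ 4 * A ^ 3 + 27 * B ^ 2 ≠ 0 := by
    rintro A B x y ⟨hA, hB, hD, he, hx1, hx2⟩ y' hy0 hyy
    simp only at hA hB hD he hx1 hx2
    obtain ⟨s1, s2⟩ := hs x hx1 hx2
    refine ⟨√(x : ℝ), ⟨hR, hRM.trans s1, Real.sq_sqrt (by linarith), hy0, hyy.trans he, hA, hB⟩,
      s1, s2, hD⟩
  have u1 := hup R (√X) hR hRM F1 (by
    intro P hP
    rw [hF1, mem_filter] at hP
    exact key P.1 P.2.1 P.2.2.1 P.2.2.2 (hmem P hP.1) _ hP.2 rfl)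
  have u2 := hup R (√X) hR hRM F2 (by
    intro P hP
    rw [hF2, mem_image] at hP
    obtain ⟨P', hP', rfl⟩ := hP
    rw [mem_filter] at hP'
    exact key P'.1 P'.2.1 P'.2.2.1 P'.2.2.2 (hmem P' hP'.1) (-P'.2.2.2)
      (by have := hP'.2; omega) (by ring))
  have hlog : (1 + Real.log √X) ^ 4 ≤ (1 + Real.log X) ^ 4 := by
    have h1 : Real.log √X = Real.log X / 2 := Real.log_sqrt hX0.le
    have h2 := Real.log_nonneg hX1
    exact pow_le_pow_left₀ (by rw [h1]; linarith) (by rw [h1]; linarith) 4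
  have hfinal : R ^ 5 / √X + (R ^ 2 + √(√X * R)) * (1 + Real.log √X) ^ 4 ≤
      R ^ 5 / √X + (R ^ 2 + √(R * √X)) * (1 + Real.log X) ^ 4 := by
    rw [mul_comm (√X) R]
    have := mul_le_mul_of_nonneg_left hlog (by positivity : 0 ≤ R ^ 2 + √(R * √X))
    linarith
  rw [hsum]
  push_cast
  calc (F1.card : ℝ) + F2.card ≤ C * (R ^ 5 / √X + (R ^ 2 + √(√X * R)) * (1 + Real.log √X) ^ 4) +
        C * (R ^ 5 / √X + (R ^ 2 + √(√X * R)) * (1 + Real.log √X) ^ 4) := add_le_add u1 u2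
    _ = 2 * C * (R ^ 5 / √X + (R ^ 2 + √(√X * R)) * (1 + Real.log √X) ^ 4) := by ring
    _ ≤ _ := mul_le_mul_of_nonneg_left hfinal (by positivity)

/-- an arbitrary interval -/
theorem total : ∃ C : ℝ, 0 < C ∧ ∀ R X Y : ℝ, 1 ≤ R → R ^ 2 ≤ X → X ≤ Y →
    (pts R X Y).Finite ∧
    ((pts R X Y).ncard : ℝ) ≤ C * (R ^ 5 / √X + (R ^ 2 + √(R * √Y)) * (1 + Real.log Y) ^ 5) := by
  classical
  obtain ⟨C, hC, hdy⟩ := dyadic
  refine ⟨7 * C, by positivity, ?_⟩
  intro R X Y hR hX hXY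
  refine ⟨pts_finite hR hX, ?_⟩
  have hR0 : 0 < R := by linarith
  have hX1 : 1 ≤ X := by nlinarith
  have hX0 : 0 < X := by linarith
  have key : ∀ n : ℕ, ∀ Y : ℝ, X ≤ Y → Y ≤ 2 ^ (n + 1) * X →
      ((pts R X Y).ncard : ℝ) ≤ C * (R ^ 5 * (5 / √X - 4 / √Y) +
        ((n + 1) * R ^ 2 + 7 * √(R * √Y)) * (1 + Real.log Y) ^ 4) := by
    intro n
    induction n with
    | zero =>
      intro Y hXY hY
      have hY0 : 0 < Y := by linarith
      have h := hdy R X Y hR hX (by simpa using hY)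
      refine h.trans (mul_le_mul_of_nonneg_left ?_ hC.le)
      have h1 : R ^ 5 / √X ≤ R ^ 5 * (5 / √X - 4 / √Y) := by
        have : 1 / √Y ≤ 1 / √X := one_div_le_one_div_of_le (Real.sqrt_pos.2 hX0)
          (Real.sqrt_le_sqrt hXY)
        have e : R ^ 5 * (5 / √X - 4 / √Y) - R ^ 5 / √X = R ^ 5 * (4 * (1 / √X - 1 / √Y)) := by ring
        have : 0 ≤ R ^ 5 * (4 * (1 / √X - 1 / √Y)) := by
          refine mul_nonneg (by positivity) ?_
          linarith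
        linarith
      have hlX := Real.log_nonneg hX1
      have hl : Real.log X ≤ Real.log Y := Real.log_le_log hX0 hXY
      have h2 : (R ^ 2 + √(R * √X)) * (1 + Real.log X) ^ 4 ≤
          (((0 : ℕ) + 1) * R ^ 2 + 7 * √(R * √Y)) * (1 + Real.log Y) ^ 4 := by
        have h3 : √(R * √X) ≤ √(R * √Y) :=
          Real.sqrt_le_sqrt (mul_le_mul_of_nonneg_left (Real.sqrt_le_sqrt hXY) hR0.le)
        have h4 := Real.sqrt_nonneg (R * √X)
        refine mul_le_mul ?_ (pow_le_pow_left₀ (by linarith) (by linarith) 4) (by positivity)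
          (by positivity)
        push_cast
        linarith
      exact add_le_add h1 h2
    | succ n ih =>
      intro Y hXY hY
      have hY0 : 0 < Y := by linarith
      have hY1 : 1 ≤ Y := by linarith
      rcases le_or_gt Y (2 * X) with hc | hc
      · refine (ih Y hXY ?_).trans ?_
        · refine hc.trans (mul_le_mul_of_nonneg_right ?_ hX0.le)
          calc (2 : ℝ) = 2 ^ 1 := (pow_one 2).symm
            _ ≤ 2 ^ (n + 1) := pow_le_pow_right₀ (by norm_num) (by omega)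
        · refine mul_le_mul_of_nonneg_left ?_ hC.le
          have hlY := Real.log_nonneg hY1
          have : ((n : ℝ) + 1) * R ^ 2 + 7 * √(R * √Y) ≤
              (((n + 1 : ℕ) : ℝ) + 1) * R ^ 2 + 7 * √(R * √Y) := by
            push_cast
            nlinarith [sq_nonneg R]
          have := mul_le_mul_of_nonneg_right this (by positivity : 0 ≤ (1 + Real.log Y) ^ 4)
          linarith
      · have hXH : X ≤ Y / 2 := by linarith
        have h1 := ih (Y / 2) hXH (by rw [pow_succ] at hY; linarith)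
        have h2 := hdy R (Y / 2) Y hR (by linarith) (by linarith)
        have hH0 : 0 < Y / 2 := by linarith
        have hH1 : 1 ≤ Y / 2 := by linarith
        have hsub : pts R X Y ⊆ pts R X (Y / 2) ∪ pts R (Y / 2) Y := by
          rintro P ⟨a1, a2, a3, a4, a5, a6⟩
          rcases le_or_gt (P.2.2.1 : ℝ) (Y / 2) with h | h
          · exact Or.inl ⟨a1, a2, a3, a4, a5, h⟩
          · exact Or.inr ⟨a1, a2, a3, a4, h.le, a6⟩
        have hcard : (pts R X Y).ncard ≤ (pts R X (Y / 2)).ncard + (pts R (Y / 2) Y).ncard :=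
          (Set.ncard_le_ncard hsub ((pts_finite hR hX).union (pts_finite hR (by linarith)))).trans
            (Set.ncard_union_le _ _)
        have hcard' : ((pts R X Y).ncard : ℝ) ≤
            (pts R X (Y / 2)).ncard + (pts R (Y / 2) Y).ncard := by exact_mod_cast hcard
        refine hcard'.trans ((add_le_add h1 h2).trans ?_)
        rw [← mul_add]
        refine mul_le_mul_of_nonneg_left ?_ hC.le
        -- logs
        have hlH := Real.log_nonneg hH1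
        have hll : Real.log (Y / 2) ≤ Real.log Y := Real.log_le_log hH0 (by linarith)
        have hL : (1 + Real.log (Y / 2)) ^ 4 ≤ (1 + Real.log Y) ^ 4 :=
          pow_le_pow_left₀ (by linarith) (by linarith) 4
        -- first term
        have hsY : 0 < √Y := Real.sqrt_pos.2 hY0
        have hsH : 0 < √(Y / 2) := Real.sqrt_pos.2 hH0
        have t1 : 4 / √Y ≤ 3 / √(Y / 2) := by
          rw [div_le_div_iff₀ hsY hsH]
          refine le_of_sq_le_sq ?_ (by positivity)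
          rw [mul_pow, mul_pow, Real.sq_sqrt hH0.le, Real.sq_sqrt hY0.le]
          linarith
        have t2 : R ^ 5 * (5 / √X - 4 / √(Y / 2)) + R ^ 5 / √(Y / 2) ≤
            R ^ 5 * (5 / √X - 4 / √Y) := by
          have e : R ^ 5 * (5 / √X - 4 / √Y) -
              (R ^ 5 * (5 / √X - 4 / √(Y / 2)) + R ^ 5 / √(Y / 2)) =
              R ^ 5 * (3 / √(Y / 2) - 4 / √Y) := by ring
          have : 0 ≤ R ^ 5 * (3 / √(Y / 2) - 4 / √Y) :=
            mul_nonneg (by positivity) (by linarith)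
          linarith
        -- third term
        have t3 : √(R * √(Y / 2)) ≤ 17 / 20 * √(R * √Y) := by
          refine Real.sqrt_le_iff.2 ⟨by positivity, ?_⟩
          rw [mul_pow, Real.sq_sqrt (by positivity)]
          have : √(Y / 2) ≤ (17 / 20) ^ 2 * √Y := by
            refine Real.sqrt_le_iff.2 ⟨by positivity, ?_⟩
            rw [mul_pow, Real.sq_sqrt hY0.le]
            nlinarith
          calc R * √(Y / 2) ≤ R * ((17 / 20) ^ 2 * √Y) := mul_le_mul_of_nonneg_left this hR0.le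
            _ = (17 / 20) ^ 2 * (R * √Y) := by ring
        have t4 : ((n + 1) * R ^ 2 + 7 * √(R * √(Y / 2))) * (1 + Real.log (Y / 2)) ^ 4 +
            (R ^ 2 + √(R * √(Y / 2))) * (1 + Real.log (Y / 2)) ^ 4 ≤
            (((n + 1 : ℕ) + 1) * R ^ 2 + 7 * √(R * √Y)) * (1 + Real.log Y) ^ 4 := by
          rw [← add_mul]
          refine mul_le_mul ?_ hL (by positivity) (by positivity)
          push_cast
          have := Real.sqrt_nonneg (R * √Y)
          linarith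
        linarith
  have hY0 : 0 < Y := by linarith
  have hY1 : 1 ≤ Y := by linarith
  have hlY := Real.log_nonneg hY1
  -- the number of steps
  obtain ⟨n, hn1, hn2⟩ : ∃ n : ℕ, Y ≤ 2 ^ (n + 1) * X ∧ ((n : ℝ) + 1) ≤ 7 * (1 + Real.log Y) := by
    refine ⟨⌊2 * Real.log Y⌋₊, ?_, ?_⟩
    · set n := ⌊2 * Real.log Y⌋₊ with hn
      have h1 : 2 * Real.log Y < n + 1 := Nat.lt_floor_add_one _
      have h2 : Real.log Y ≤ Real.log (2 ^ (n + 1)) := by
        rw [Real.log_pow]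
        push_cast
        have := Real.log_two_gt_d9
        nlinarith
      have h3 : Y ≤ 2 ^ (n + 1) := (Real.log_le_log_iff hY0 (by positivity)).1 h2
      calc Y ≤ 2 ^ (n + 1) := h3
        _ = 2 ^ (n + 1) * 1 := (mul_one _).symm
        _ ≤ 2 ^ (n + 1) * X := mul_le_mul_of_nonneg_left hX1 (by positivity)
    · have := Nat.floor_le (by positivity : 0 ≤ 2 * Real.log Y)
      linarith
  have h := key n Y hXY hn1
  refine h.trans ?_
  have hL1 : 1 ≤ 1 + Real.log Y := by linarith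
  have hL45 : (1 + Real.log Y) ^ 4 ≤ (1 + Real.log Y) ^ 5 := pow_le_pow_right₀ hL1 (by norm_num)
  have e1 : R ^ 5 * (5 / √X - 4 / √Y) ≤ 7 * (R ^ 5 / √X) := by
    have h1 : 0 ≤ R ^ 5 * (4 / √Y) := by positivity
    have h2 : 0 ≤ R ^ 5 / √X := by positivity
    have e : R ^ 5 * (5 / √X - 4 / √Y) = 5 * (R ^ 5 / √X) - R ^ 5 * (4 / √Y) := by ring
    rw [e]; linarith
  have e2 : (((n : ℝ) + 1) * R ^ 2 + 7 * √(R * √Y)) * (1 + Real.log Y) ^ 4 ≤
      7 * ((R ^ 2 + √(R * √Y)) * (1 + Real.log Y) ^ 5) := by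
    have f1 : ((n : ℝ) + 1) * R ^ 2 * (1 + Real.log Y) ^ 4 ≤
        7 * (R ^ 2 * (1 + Real.log Y) ^ 5) := by
      calc ((n : ℝ) + 1) * R ^ 2 * (1 + Real.log Y) ^ 4 ≤
          7 * (1 + Real.log Y) * R ^ 2 * (1 + Real.log Y) ^ 4 :=
            mul_le_mul_of_nonneg_right (mul_le_mul_of_nonneg_right hn2 (by positivity))
              (by positivity)
        _ = _ := by ring
    have f2 : 7 * √(R * √Y) * (1 + Real.log Y) ^ 4 ≤ 7 * (√(R * √Y) * (1 + Real.log Y) ^ 5) := by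
      have := mul_le_mul_of_nonneg_left hL45 (by positivity : 0 ≤ 7 * √(R * √Y))
      linarith
    calc _ = ((n : ℝ) + 1) * R ^ 2 * (1 + Real.log Y) ^ 4 +
          7 * √(R * √Y) * (1 + Real.log Y) ^ 4 := by ring
      _ ≤ _ := by linarith
  calc C * (R ^ 5 * (5 / √X - 4 / √Y) +
        (((n : ℝ) + 1) * R ^ 2 + 7 * √(R * √Y)) * (1 + Real.log Y) ^ 4)
      ≤ C * (7 * (R ^ 5 / √X) + 7 * ((R ^ 2 + √(R * √Y)) * (1 + Real.log Y) ^ 5)) :=
        mul_le_mul_of_nonneg_left (add_le_add e1 e2) hC.le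
    _ = _ := by ring

theorem main2 : ∃ c C : ℝ, 0 < c ∧ 0 < C ∧ ∀ R X Y : ℝ, 1 ≤ R → R ^ 2 ≤ X → X ≤ Y →
    (pts R X Y).Finite ∧
    ((pts R X Y).ncard : ℝ) ≤ C * (R ^ 5 / √X + (R ^ 2 + √(R * √Y)) * (1 + Real.log Y) ^ 5) ∧
    (X ≤ c * R ^ 6 → 2 * X ≤ Y → c * (R ^ 5 / √X) ≤ ((pts R X Y).ncard : ℝ)) := by
  obtain ⟨C, hC, htot⟩ := total
  obtain ⟨c, C', hc, -, hmain⟩ := main
  refine ⟨c, C, hc, hC, ?_⟩
  intro R X Y hR hX hXY
  obtain ⟨h1, h2⟩ := htot R X Y hR hX hXY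
  refine ⟨h1, h2, ?_⟩
  intro hXR hY
  obtain ⟨-, -, h3⟩ := hmain R X hR hX
  refine (h3 hXR).trans ?_
  have hsub : points R X ⊆ pts R X Y := by
    rintro P ⟨a1, a2, a3, a4, a5, a6⟩
    exact ⟨a1, a2, a3, a4, a5, a6.trans hY⟩
  exact_mod_cast Set.ncard_le_ncard hsub h1

end Pool.Agent.H83HL
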