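import Pool.Agent.H83HL.Basic
import Pool.Agent.H83HL.Cub

/-!
# Construction of integral points: algebra
-/

set_option autoImplicit false

namespace Pool.Agent.H83HL

open Finset

/-- the inverse of `cc` -/
def ic (p q p' q' : ℤ) (g : ℤ × ℤ × ℤ × ℤ) : ℤ × ℤ × ℤ × ℤ :=
  (g.1 * q' ^ 3 - g.2.1 * q' ^ 2 * q + g.2.2.1 * q' * q ^ 2 - g.2.2.2 * q ^ 3,
   -3 * g.1 * q' ^ 2 * p' + g.2.1 * (2 * q' * p' * q + q' ^ 2 * p) -
        g.2.2.1 * (p' * q ^ 2 + 2 * p * q * q') + 3 * g.2.2.2 * q ^ 2 * p,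
   3 * g.1 * q' * p' ^ 2 - g.2.1 * (p' ^ 2 * q + 2 * p * p' * q') +
        g.2.2.1 * (q' * p ^ 2 + 2 * p * p' * q) - 3 * g.2.2.2 * q * p ^ 2,
   -g.1 * p' ^ 3 + g.2.1 * p' ^ 2 * p - g.2.2.1 * p' * p ^ 2 + g.2.2.2 * p ^ 3)

theorem cc_ic {p q p' q' : ℤ} (hdet : p * q' - p' * q = 1) (g : ℤ × ℤ × ℤ × ℤ) :
    cc p q p' q' (ic p q p' q' g) = g := by
  obtain ⟨g0, g1, g2, g3⟩ := g
  have h3 : (p * q' - p' * q) ^ 3 = 1 := by rw [hdet]; norm_num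
  simp only [cc, ic, Prod.mk.injEq]
  refine ⟨?_, ?_, ?_, ?_⟩
  · have : g0 = g0 * (p * q' - p' * q) ^ 3 := by rw [h3, mul_one]
    conv_rhs => rw [this]
    ring
  · have : g1 = g1 * (p * q' - p' * q) ^ 3 := by rw [h3, mul_one]
    conv_rhs => rw [this]
    ring
  · have : g2 = g2 * (p * q' - p' * q) ^ 3 := by rw [h3, mul_one]
    conv_rhs => rw [this]
    ring
  · have : g3 = g3 * (p * q' - p' * q) ^ 3 := by rw [h3, mul_one]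
    conv_rhs => rw [this]
    ring

theorem ic_inj {p q p' q' : ℤ} (hdet : p * q' - p' * q = 1) {g h : ℤ × ℤ × ℤ × ℤ}
    (e : ic p q p' q' g = ic p q p' q' h) : g = h := by
  rw [← cc_ic hdet g, ← cc_ic hdet h, e]

/-- the point attached to a cubic -/
def px (a : ℤ × ℤ × ℤ × ℤ) : ℤ := 36 * a.1 ^ 2 - 4 * a.2.1
def py (a : ℤ × ℤ × ℤ × ℤ) : ℤ := 216 * a.1 ^ 3 - 36 * a.2.1 * a.1 + 3 * a.2.2.1
def pA (a : ℤ × ℤ × ℤ × ℤ) : ℤ := 36 * a.2.2.1 * a.1 - 12 * a.2.1 ^ 2 + 1 - 6 * a.2.2.2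
def pB (a : ℤ × ℤ × ℤ × ℤ) : ℤ := py a ^ 2 - px a ^ 3 - pA a * px a

theorem dd_p (a : ℤ × ℤ × ℤ × ℤ) : dd (6 * a.1) (pA a) (px a) (py a) =
    (24 * a.1, 24 * a.2.1, 24 * a.2.2.1, 24 * a.2.2.2 - 4) := by
  simp only [dd, jj, tt, vv, pA, px, py, Prod.mk.injEq]
  refine ⟨by ring, by ring, by ring, by ring⟩

theorem disc_ne (a : ℤ × ℤ × ℤ × ℤ) : 4 * pA a ^ 3 + 27 * pB a ^ 2 ≠ 0 := by
  intro h
  have h1 : (4 * pA a ^ 3 + 27 * pB a ^ 2) % 3 = 1 := by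
    have : pA a = 3 * (12 * a.2.2.1 * a.1 - 4 * a.2.1 ^ 2 - 2 * a.2.2.2) + 1 := by
      unfold pA; ring
    rw [this]
    set k := 12 * a.2.2.1 * a.1 - 4 * a.2.1 ^ 2 - 2 * a.2.2.2
    have e : 4 * (3 * k + 1) ^ 3 + 27 * pB a ^ 2 =
        3 * (36 * k ^ 3 + 36 * k ^ 2 + 12 * k + 1 + 9 * pB a ^ 2) + 1 := by ring
    rw [e]
    omega
  rw [h] at h1
  norm_num at h1

theorem pt_eq (a : ℤ × ℤ × ℤ × ℤ) : py a ^ 2 = px a ^ 3 + pA a * px a + pB a := by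
  unfold pB; ring

theorem p_inj {a b : ℤ × ℤ × ℤ × ℤ} (h1 : a.1 = b.1) (hA : pA a = pA b) (hx : px a = px b)
    (hy : py a = py b) : a = b := by
  obtain ⟨a1, a2, a3, a4⟩ := a
  obtain ⟨b1, b2, b3, b4⟩ := b
  simp only [pA, px, py] at *
  subst h1
  have e2 : a2 = b2 := by linarith
  subst e2
  have e3 : a3 = b3 := by linarith
  subst e3
  have e4 : a4 = b4 := by linarith
  subst e4
  rfl

/-- the three values at `m + θ` determine the point -/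
theorem solve {U x y A B e0 e1 e2 : ℝ} (h2 : e2 = 6 * U ^ 2 - 6 * x)
    (h1 : e1 = 4 * U ^ 3 - 12 * x * U + 8 * y)
    (h0 : e0 = U ^ 4 - 6 * x * U ^ 2 + 8 * y * U - 4 * A - 3 * x ^ 2)
    (hB : B = y ^ 2 - x ^ 3 - A * x) :
    x = U ^ 2 - e2 / 6 ∧ 4 * A = e1 * U - e2 ^ 2 / 12 - e0 ∧
    B = e0 * U ^ 2 / 4 - e1 * e2 * U / 48 + e1 ^ 2 / 64 + e2 ^ 3 / 864 - e0 * e2 / 24 := by
  have hx : x = U ^ 2 - e2 / 6 := by linarith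
  have hy : y = U ^ 3 - e2 * U / 4 + e1 / 8 := by
    have : 8 * y = e1 - 4 * U ^ 3 + 12 * x * U := by linarith
    rw [hx] at this
    linarith
  have hA : 4 * A = e1 * U - e2 ^ 2 / 12 - e0 := by
    have : 4 * A = U ^ 4 - 6 * x * U ^ 2 + 8 * y * U - 3 * x ^ 2 - e0 := by linarith
    rw [this, hx, hy]; ring
  have hA' : A = (e1 * U - e2 ^ 2 / 12 - e0) / 4 := by linarith
  refine ⟨hx, hA, ?_⟩
  rw [hB, hx, hy, hA']
  ring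

/-- the values in terms of the coefficients -/
theorem vals {p q p' q' g0 g1 g2 g3 : ℤ} (hdet : p * q' - p' * q = 1) (hq : (0 : ℝ) < q)
    {a : ℤ × ℤ × ℤ × ℤ} (ha : a = ic p q p' q' (g0, g1, g2, g3)) :
    ((p : ℝ) / q) ^ 4 + tau0 (dd (6 * a.1) (pA a) (px a) (py a)) (p / q) =
      24 / q ^ 3 * (g0 - (q : ℝ) ^ 3 * (4 - ((p : ℝ) / q) ^ 4) / 24) ∧
    4 * ((p : ℝ) / q) ^ 3 + tau1 (dd (6 * a.1) (pA a) (px a) (py a)) (p / q) =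
      -(24 / q) * (g1 - ((q : ℝ) ^ 2 * ((p : ℝ) / q) ^ 3 / 6 + 3 * g0 * q') / q) ∧
    6 * ((p : ℝ) / q) ^ 2 + tau2 (dd (6 * a.1) (pA a) (px a) (py a)) (p / q) =
      24 * q * (g2 + (((p : ℝ) / q) ^ 2 * q / 4 + 3 * g0 * q' ^ 2 - 2 * g1 * q * q') / q ^ 2) ∧
    ∀ M : ℝ, (6 * a.1 : ℝ) - 6 / 5 * M =
      -(6 * q ^ 3) * (g3 - (g0 * q' ^ 3 - g1 * q' ^ 2 * q + g2 * q' * q ^ 2 - M / 5) / q ^ 3) := by
  have hdr : (p : ℝ) * q' - p' * q = 1 := by exact_mod_cast hdet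
  have k0 : (a.1 : ℝ) * p ^ 3 + a.2.1 * p ^ 2 * q + a.2.2.1 * p * q ^ 2 + a.2.2.2 * q ^ 3 = g0 := by
    have : (g0 : ℝ) = g0 * ((p : ℝ) * q' - p' * q) ^ 3 := by rw [hdr]; ring
    rw [this, ha]; simp only [ic]; push_cast; ring
  have k1 : 3 * (a.1 : ℝ) * p ^ 2 + 2 * a.2.1 * p * q + a.2.2.1 * q ^ 2 = 3 * g0 * q' - g1 * q := by
    have : 3 * (g0 : ℝ) * q' - g1 * q = (3 * g0 * q' - g1 * q) * ((p : ℝ) * q' - p' * q) ^ 2 := by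
      rw [hdr]; ring
    rw [this, ha]; simp only [ic]; push_cast; ring
  have k2 : 3 * (a.1 : ℝ) * p + a.2.1 * q = 3 * g0 * q' ^ 2 - 2 * g1 * q' * q + g2 * q ^ 2 := by
    have : 3 * (g0 : ℝ) * q' ^ 2 - 2 * g1 * q' * q + g2 * q ^ 2 =
        (3 * g0 * q' ^ 2 - 2 * g1 * q' * q + g2 * q ^ 2) * ((p : ℝ) * q' - p' * q) := by
      rw [hdr]; ring
    rw [this, ha]; simp only [ic]; push_cast; ring
  rw [dd_p]
  refine ⟨?_, ?_, ?_, ?_⟩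
  · simp only [tau0]; push_cast
    rw [← k0]
    field_simp
    ring
  · simp only [tau1]; push_cast
    have : (g1 : ℝ) * q = 3 * g0 * q' -
      (3 * (a.1 : ℝ) * p ^ 2 + 2 * a.2.1 * p * q + a.2.2.1 * q ^ 2) := by linarith
    field_simp
    linear_combination 144 * q ^ 1 * this
  · simp only [tau2]; push_cast
    have : (g2 : ℝ) * q ^ 2 = 3 * (a.1 : ℝ) * p + a.2.1 * q - 3 * g0 * q' ^ 2 +
      2 * g1 * q' * q := by linarith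
    field_simp
    linear_combination -96 * q ^ 1 * this
  · intro M
    rw [ha]; simp only [ic]; push_cast
    field_simp
    ring

end Pool.Agent.H83HL
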