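import Pool.Agent.H83HL.LowA

/-!
# Construction of integral points: bounds
-/

set_option autoImplicit false

namespace Pool.Agent.H83HL

open Finset

theorem AB_bounds {R t U x y A B e0 e1 e2 : ℝ} (hR : 1 ≤ R) (ht : 1 ≤ t)
    (hU : U ≤ 27 / 20 * (R * t ^ 2)) (hU' : 11 / 10 * (R * t ^ 2) ≤ U)
    (h2 : e2 = 6 * U ^ 2 - 6 * x)
    (h1 : e1 = 4 * U ^ 3 - 12 * x * U + 8 * y)
    (h0 : e0 = U ^ 4 - 6 * x * U ^ 2 + 8 * y * U - 4 * A - 3 * x ^ 2)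
    (hB : B = y ^ 2 - x ^ 3 - A * x)
    (b0 : |e0| * t ^ 4 ≤ R / 50) (b1 : |e1| * t ^ 2 ≤ R / 100) (b2 : |e2| ≤ R / 40) :
    |A| ≤ R ^ 2 ∧ |B| ≤ R ^ 3 ∧ (R * t ^ 2) ^ 2 ≤ x ∧ x ≤ 2 * (R * t ^ 2) ^ 2 ∧
      |√x - U| * (480 * t ^ 2) ≤ 1 := by
  obtain ⟨sx, sA, sB⟩ := solve h2 h1 h0 hB
  have hR0 : 0 < R := by linarith
  have ht0 : 0 < t := by linarith
  have ht2 : 1 ≤ t ^ 2 := one_le_pow₀ ht
  have ht4 : 1 ≤ t ^ 4 := one_le_pow₀ ht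
  have hRt : R ≤ R * t ^ 2 := le_mul_of_one_le_right hR0.le ht2
  have hM1 : 1 ≤ R * t ^ 2 := hR.trans hRt
  have hU0 : 0 < U := by linarith
  have hUa : |U| = U := abs_of_pos hU0
  have a0 : |e0| ≤ R / 50 := (le_mul_of_one_le_right (abs_nonneg _) ht4).trans b0
  have a1 : |e1| ≤ R / 100 := (le_mul_of_one_le_right (abs_nonneg _) ht2).trans b1
  have n0 := abs_nonneg e0
  have n1 := abs_nonneg e1
  have n2 := abs_nonneg e2
  have c1 : |e1| * U ≤ R ^ 2 / 50 := by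
    calc |e1| * U ≤ |e1| * (27 / 20 * (R * t ^ 2)) := mul_le_mul_of_nonneg_left hU n1
      _ = 27 / 20 * R * (|e1| * t ^ 2) := by ring
      _ ≤ 27 / 20 * R * (R / 100) := mul_le_mul_of_nonneg_left b1 (by positivity)
      _ ≤ R ^ 2 / 50 := by nlinarith
  have c0 : |e0| * U ^ 2 ≤ R ^ 3 / 25 := by
    have hU2 : U ^ 2 ≤ (27 / 20 * (R * t ^ 2)) ^ 2 := pow_le_pow_left₀ hU0.le hU 2
    calc |e0| * U ^ 2 ≤ |e0| * (27 / 20 * (R * t ^ 2)) ^ 2 := mul_le_mul_of_nonneg_left hU2 n0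
      _ = (27 / 20) ^ 2 * R ^ 2 * (|e0| * t ^ 4) := by ring
      _ ≤ (27 / 20) ^ 2 * R ^ 2 * (R / 50) := mul_le_mul_of_nonneg_left b0 (by positivity)
      _ ≤ R ^ 3 / 25 := by
        have : 0 < R ^ 3 := by positivity
        nlinarith
  have R2 : R ≤ R ^ 2 := by nlinarith
  have R3 : R ^ 2 ≤ R ^ 3 := by nlinarith [sq_nonneg R]
  have d2 : |e2| ^ 2 ≤ R ^ 2 / 1600 := by
    calc |e2| ^ 2 ≤ (R / 40) ^ 2 := pow_le_pow_left₀ n2 b2 2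
      _ = R ^ 2 / 1600 := by ring
  have d3 : |e2| ^ 3 ≤ R ^ 3 / 64000 := by
    calc |e2| ^ 3 ≤ (R / 40) ^ 3 := pow_le_pow_left₀ n2 b2 3
      _ = R ^ 3 / 64000 := by ring
  have d1 : |e1| ^ 2 ≤ R ^ 2 / 10000 := by
    calc |e1| ^ 2 ≤ (R / 100) ^ 2 := pow_le_pow_left₀ n1 a1 2
      _ = R ^ 2 / 10000 := by ring
  have d02 : |e0| * |e2| ≤ R ^ 2 / 2000 := by
    calc |e0| * |e2| ≤ (R / 50) * (R / 40) := mul_le_mul a0 b2 n2 (by positivity)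
      _ = R ^ 2 / 2000 := by ring
  have d12 : |e1| * |e2| * U ≤ R ^ 3 / 2000 := by
    calc |e1| * |e2| * U = |e1| * U * |e2| := by ring
      _ ≤ (R ^ 2 / 50) * (R / 40) := mul_le_mul c1 b2 n2 (by positivity)
      _ = R ^ 3 / 2000 := by ring
  have hA : |A| ≤ R ^ 2 := by
    have : |4 * A| ≤ 4 * R ^ 2 := by
      rw [sA]
      calc |e1 * U - e2 ^ 2 / 12 - e0| ≤ |e1 * U - e2 ^ 2 / 12| + |e0| := abs_sub _ _
        _ ≤ |e1 * U| + |e2 ^ 2 / 12| + |e0| := add_le_add (abs_sub _ _) le_rfl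
        _ = |e1| * U + |e2| ^ 2 / 12 + |e0| := by
            rw [abs_mul, hUa, abs_div, abs_pow, abs_of_pos (by norm_num : (0 : ℝ) < 12)]
        _ ≤ 4 * R ^ 2 := by linarith
    rw [abs_mul, abs_of_pos (by norm_num : (0 : ℝ) < 4)] at this
    linarith
  have hB' : |B| ≤ R ^ 3 := by
    rw [sB]
    have t1 : |e0 * U ^ 2 / 4| = |e0| * U ^ 2 / 4 := by
      rw [abs_div, abs_mul, abs_pow, hUa, abs_of_pos (by norm_num : (0 : ℝ) < 4)]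
    have t2 : |e1 * e2 * U / 48| = |e1| * |e2| * U / 48 := by
      rw [abs_div, abs_mul, abs_mul, hUa, abs_of_pos (by norm_num : (0 : ℝ) < 48)]
    have t3 : |e1 ^ 2 / 64| = |e1| ^ 2 / 64 := by
      rw [abs_div, abs_pow, abs_of_pos (by norm_num : (0 : ℝ) < 64)]
    have t4 : |e2 ^ 3 / 864| = |e2| ^ 3 / 864 := by
      rw [abs_div, abs_pow, abs_of_pos (by norm_num : (0 : ℝ) < 864)]
    have t5 : |e0 * e2 / 24| = |e0| * |e2| / 24 := by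
      rw [abs_div, abs_mul, abs_of_pos (by norm_num : (0 : ℝ) < 24)]
    calc |e0 * U ^ 2 / 4 - e1 * e2 * U / 48 + e1 ^ 2 / 64 + e2 ^ 3 / 864 - e0 * e2 / 24|
        ≤ |e0 * U ^ 2 / 4 - e1 * e2 * U / 48 + e1 ^ 2 / 64 + e2 ^ 3 / 864| + |e0 * e2 / 24| :=
          abs_sub _ _
      _ ≤ |e0 * U ^ 2 / 4| + |e1 * e2 * U / 48| + |e1 ^ 2 / 64| + |e2 ^ 3 / 864| +
          |e0 * e2 / 24| := by
          refine add_le_add ((abs_add_le _ _).trans (add_le_add ((abs_add_le _ _).trans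
            (add_le_add (abs_sub _ _) le_rfl)) le_rfl)) le_rfl
      _ ≤ R ^ 3 := by
          rw [t1, t2, t3, t4, t5]
          have : 0 < R ^ 3 := by positivity
          linarith
  have q2 := abs_le.1 b2
  have MM : R * t ^ 2 ≤ (R * t ^ 2) ^ 2 := by nlinarith
  have hx1 : (R * t ^ 2) ^ 2 ≤ x := by
    rw [sx]
    have : (11 / 10 * (R * t ^ 2)) ^ 2 ≤ U ^ 2 := pow_le_pow_left₀ (by positivity) hU' 2
    nlinarith
  have hx2 : x ≤ 2 * (R * t ^ 2) ^ 2 := by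
    rw [sx]
    have : U ^ 2 ≤ (27 / 20 * (R * t ^ 2)) ^ 2 := pow_le_pow_left₀ hU0.le hU 2
    nlinarith
  refine ⟨hA, hB', hx1, hx2, ?_⟩
  have hx0 : 0 ≤ x := le_trans (by positivity) hx1
  have hs : R * t ^ 2 ≤ √x := Real.le_sqrt_of_sq_le hx1
  have hss : √x ^ 2 = x := Real.sq_sqrt hx0
  have key : |√x - U| * (√x + U) ≤ R / 240 := by
    have hp : 0 < √x + U := by linarith
    calc |√x - U| * (√x + U) = |(√x - U) * (√x + U)| := by rw [abs_mul, abs_of_pos hp]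
      _ = |e2 / 6| := by
          have : (√x - U) * (√x + U) = -(e2 / 6) := by
            have : (√x - U) * (√x + U) = √x ^ 2 - U ^ 2 := by ring
            rw [this, hss, sx]; ring
          rw [this, abs_neg]
      _ = |e2| / 6 := by rw [abs_div, abs_of_pos (by norm_num : (0 : ℝ) < 6)]
      _ ≤ R / 240 := by linarith
  have key2 : |√x - U| * (2 * (R * t ^ 2)) ≤ R / 240 := by
    refine le_trans (mul_le_mul_of_nonneg_left ?_ (abs_nonneg _)) key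
    linarith
  have : |√x - U| * (480 * t ^ 2) * R ≤ 1 * R := by nlinarith
  exact le_of_mul_le_mul_right this hR0

theorem point_bounds {R t : ℝ} {Q N : ℕ} (hR : 1 ≤ R) (ht : 1 ≤ t) (hM : 20 ≤ R * t ^ 2)
    (hQ1 : 3 * t ≤ Q) (hQ2 : (Q : ℝ) ≤ 4 * t) (hN : (N : ℝ) * t ≤ R / 4000)
    {p q p' q' : ℤ} (hdet : p * q' - p' * q = 1) (hq1 : (Q : ℝ) ≤ 4 * q) (hq2 : (q : ℝ) ≤ Q)
    (hp0 : 0 ≤ p) (hpq : p < q) {g0 g1 g2 g3 : ℤ}
    (h0 : |(g0 : ℝ) - (q : ℝ) ^ 3 * (4 - ((p : ℝ) / q) ^ 4) / 24| ≤ (N : ℝ))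
    (h1 : |(g1 : ℝ) - ((q : ℝ) ^ 2 * ((p : ℝ) / q) ^ 3 / 6 + 3 * g0 * q') / q| ≤ (N : ℝ))
    (h2 : |(g2 : ℝ) + (((p : ℝ) / q) ^ 2 * q / 4 + 3 * g0 * q' ^ 2 - 2 * g1 * q * q') / q ^ 2|
      ≤ (N : ℝ))
    (h3 : |(g3 : ℝ) - (g0 * q' ^ 3 - g1 * q' ^ 2 * q + g2 * q' * q ^ 2 - R * t ^ 2 / 5) / q ^ 3|
      ≤ (N : ℝ)) {a : ℤ × ℤ × ℤ × ℤ} (ha : a = ic p q p' q' (g0, g1, g2, g3)) :
    |(pA a : ℝ)| ≤ R ^ 2 ∧ |(pB a : ℝ)| ≤ R ^ 3 ∧ (R * t ^ 2) ^ 2 ≤ px a ∧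
      (px a : ℝ) ≤ 2 * (R * t ^ 2) ^ 2 ∧
      |√(px a : ℝ) - (6 * a.1 + (p : ℝ) / q)| * (480 * t ^ 2) ≤ 1 := by
  have ht0 : 0 < t := by linarith
  have hR0 : 0 < R := by linarith
  have hq : (0 : ℝ) < q := by linarith
  have hq34 : 3 / 4 * t ≤ q := by linarith
  have hq4 : (q : ℝ) ≤ 4 * t := hq2.trans hQ2
  have hN0 : (0 : ℝ) ≤ N := Nat.cast_nonneg N
  obtain ⟨v0, v1, v2, v3⟩ := vals hdet hq ha
  have v3 := v3 (R * t ^ 2)
  rw [val0] at v0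
  rw [val1] at v1
  rw [val2] at v2
  push_cast at v0 v1 v2
  set θ : ℝ := (p : ℝ) / q with hθ
  have hθ0 : 0 ≤ θ := by rw [hθ]; positivity
  have hθ1 : θ ≤ 1 := by
    rw [hθ, div_le_one hq]; exact_mod_cast hpq.le
  set U : ℝ := 6 * (a.1 : ℝ) + θ with hU
  have w3 : |(6 * a.1 : ℝ) - 6 / 5 * (R * t ^ 2)| ≤ R * t ^ 2 / 10 := by
    rw [v3, abs_mul, abs_neg, abs_of_pos (by positivity : (0 : ℝ) < 6 * q ^ 3)]
    have hq3 : (q : ℝ) ^ 3 ≤ (4 * t) ^ 3 := pow_le_pow_left₀ hq.le hq4 3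
    calc 6 * (q : ℝ) ^ 3 * _ ≤ 6 * (q : ℝ) ^ 3 * N := mul_le_mul_of_nonneg_left h3 (by positivity)
      _ ≤ 6 * (4 * t) ^ 3 * N := by
          refine mul_le_mul_of_nonneg_right ?_ hN0
          linarith
      _ = 384 * t ^ 2 * (N * t) := by ring
      _ ≤ 384 * t ^ 2 * (R / 4000) := mul_le_mul_of_nonneg_left hN (by positivity)
      _ ≤ R * t ^ 2 / 10 := by nlinarith [mul_pos hR0 (pow_pos ht0 2)]
  have w3' := abs_le.1 w3
  have hUl : 11 / 10 * (R * t ^ 2) ≤ U := by linarith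
  have hUu : U ≤ 27 / 20 * (R * t ^ 2) := by linarith
  have b0 : |24 / (q : ℝ) ^ 3 * (g0 - (q : ℝ) ^ 3 * (4 - θ ^ 4) / 24)| * t ^ 4 ≤ R / 50 := by
    rw [abs_mul, abs_of_pos (by positivity : (0 : ℝ) < 24 / (q : ℝ) ^ 3)]
    have e1 : 24 / (q : ℝ) ^ 3 ≤ 24 / (3 / 4 * t) ^ 3 :=
      div_le_div_of_nonneg_left (by norm_num) (by positivity)
        (pow_le_pow_left₀ (by positivity) hq34 3)
    calc 24 / (q : ℝ) ^ 3 * _ * t ^ 4 ≤ 24 / (3 / 4 * t) ^ 3 * N * t ^ 4 := by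
          refine mul_le_mul_of_nonneg_right (mul_le_mul e1 h0 (abs_nonneg _) (by positivity))
            (by positivity)
      _ = 24 * 64 / 27 * (N * t) := by field_simp; ring
      _ ≤ 24 * 64 / 27 * (R / 4000) := mul_le_mul_of_nonneg_left hN (by norm_num)
      _ ≤ R / 50 := by linarith
  have b1 : |-(24 / (q : ℝ)) * (g1 - ((q : ℝ) ^ 2 * θ ^ 3 / 6 + 3 * g0 * q') / q)| * t ^ 2 ≤
      R / 100 := by
    rw [abs_mul, abs_neg, abs_of_pos (by positivity : (0 : ℝ) < 24 / (q : ℝ))]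
    have e1 : 24 / (q : ℝ) ≤ 24 / (3 / 4 * t) :=
      div_le_div_of_nonneg_left (by norm_num) (by positivity) hq34
    calc 24 / (q : ℝ) * _ * t ^ 2 ≤ 24 / (3 / 4 * t) * N * t ^ 2 := by
          refine mul_le_mul_of_nonneg_right (mul_le_mul e1 h1 (abs_nonneg _) (by positivity))
            (by positivity)
      _ = 32 * (N * t) := by field_simp; ring
      _ ≤ 32 * (R / 4000) := mul_le_mul_of_nonneg_left hN (by norm_num)
      _ ≤ R / 100 := by linarith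
  have b2 : |24 * (q : ℝ) * (g2 + (θ ^ 2 * q / 4 + 3 * g0 * q' ^ 2 - 2 * g1 * q * q') / q ^ 2)| ≤
      R / 40 := by
    rw [abs_mul, abs_of_pos (by positivity : (0 : ℝ) < 24 * (q : ℝ))]
    calc 24 * (q : ℝ) * _ ≤ 24 * (4 * t) * N := by
          refine mul_le_mul (by linarith) h2 (abs_nonneg _) (by positivity)
      _ = 96 * (N * t) := by ring
      _ ≤ 96 * (R / 4000) := mul_le_mul_of_nonneg_left hN (by norm_num)
      _ ≤ R / 40 := by linarith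
  rw [← v0] at b0
  rw [← v1] at b1
  rw [← v2] at b2
  refine AB_bounds (A := (pA a : ℝ)) (B := (pB a : ℝ)) (x := (px a : ℝ)) (y := (py a : ℝ))
    (U := U) hR ht hUu hUl rfl rfl rfl ?_ b0 b1 b2
  unfold pB
  push_cast
  ring

end Pool.Agent.H83HL
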