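import Pool.Agent.H83HL.LowB

/-!
# Construction of integral points: counting
-/

set_option autoImplicit false

namespace Pool.Agent.H83HL

open Finset

/-- the coefficients, chosen one after the other -/
noncomputable def k0 (p q : ℤ) (n : ℕ) : ℤ :=
  ⌊(q : ℝ) ^ 3 * (4 - ((p : ℝ) / q) ^ 4) / 24⌋ + n
noncomputable def k1 (p q q' g0 : ℤ) (n : ℕ) : ℤ :=
  ⌊((q : ℝ) ^ 2 * ((p : ℝ) / q) ^ 3 / 6 + 3 * g0 * q') / q⌋ + n
noncomputable def k2 (p q q' g0 g1 : ℤ) (n : ℕ) : ℤ :=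
  ⌊-((((p : ℝ) / q) ^ 2 * q / 4 + 3 * g0 * q' ^ 2 - 2 * g1 * q * q') / q ^ 2)⌋ + n
noncomputable def k3 (M : ℝ) (q q' g0 g1 g2 : ℤ) (n : ℕ) : ℤ :=
  ⌊(g0 * q' ^ 3 - g1 * q' ^ 2 * q + g2 * q' * q ^ 2 - M / 5) / q ^ 3⌋ + n

noncomputable def gg (M : ℝ) (p q q' : ℤ) (n : ℕ × ℕ × ℕ × ℕ) : ℤ × ℤ × ℤ × ℤ :=
  (k0 p q n.1, k1 p q q' (k0 p q n.1) n.2.1,
    k2 p q q' (k0 p q n.1) (k1 p q q' (k0 p q n.1) n.2.1) n.2.2.1,
    k3 M q q' (k0 p q n.1) (k1 p q q' (k0 p q n.1) n.2.1)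
      (k2 p q q' (k0 p q n.1) (k1 p q q' (k0 p q n.1) n.2.1) n.2.2.1) n.2.2.2)

theorem gg_inj {M : ℝ} {p q q' : ℤ} {n n' : ℕ × ℕ × ℕ × ℕ} (h : gg M p q q' n = gg M p q q' n') :
    n = n' := by
  obtain ⟨n0, n1, n2, n3⟩ := n
  obtain ⟨m0, m1, m2, m3⟩ := n'
  simp only [gg, Prod.mk.injEq] at h
  obtain ⟨h0, h1, h2, h3⟩ := h
  have e0 : n0 = m0 := by
    simp only [k0] at h0; omega
  subst e0
  have e1 : n1 = m1 := by
    have : (n1 : ℤ) = m1 := add_left_cancel h1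
    exact_mod_cast this
  subst e1
  have e2 : n2 = m2 := by
    have : (n2 : ℤ) = m2 := add_left_cancel h2
    exact_mod_cast this
  subst e2
  have e3 : n3 = m3 := by
    have : (n3 : ℤ) = m3 := add_left_cancel h3
    exact_mod_cast this
  subst e3
  rfl

theorem fl_bound {c : ℝ} {n N : ℕ} (h : n < N) : |((⌊c⌋ + n : ℤ) : ℝ) - c| ≤ (N : ℝ) := by
  have h1 := Int.floor_le c
  have h2 := Int.lt_floor_add_one c
  have h3 : (n : ℝ) + 1 ≤ N := by exact_mod_cast h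
  have h4 : (0 : ℝ) ≤ n := Nat.cast_nonneg n
  push_cast
  rw [abs_le]
  constructor <;> linarith

/-- pairs of coprime integers -/
def prs (Q : ℕ) : Finset (Σ _ : ℕ, ℕ) :=
  (Ioc (Q / 4) Q).sigma fun q => (range q).filter q.Coprime

theorem sum_phi (Q : ℕ) : ∑ d ∈ Ioc 0 Q, d.totient * (Q / d) = ∑ n ∈ Ioc 0 Q, n := by
  have h1 : ∀ n ∈ Ioc 0 Q, n = ∑ d ∈ Ioc 0 Q, if d ∣ n then d.totient else 0 := by
    intro n hn
    rw [mem_Ioc] at hn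
    rw [← sum_filter]
    have : (Ioc 0 Q).filter (· ∣ n) = n.divisors := by
      ext d
      simp only [mem_filter, mem_Ioc, Nat.mem_divisors]
      constructor
      · rintro ⟨_, h⟩; exact ⟨h, by omega⟩
      · rintro ⟨h, _⟩
        exact ⟨⟨Nat.pos_of_dvd_of_pos h (by omega), (Nat.le_of_dvd (by omega) h).trans hn.2⟩, h⟩
    rw [this, Nat.sum_totient]
  rw [sum_congr rfl h1, sum_comm]
  refine sum_congr rfl fun d hd => ?_
  rw [← sum_filter, sum_const, Nat.Ioc_filter_dvd_card_eq_div, smul_eq_mul, mul_comm]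

theorem prs_card (Q : ℕ) : Q ^ 2 ≤ 16 * (prs Q).card := by
  have hc : (prs Q).card = ∑ q ∈ Ioc (Q / 4) Q, q.totient := by
    unfold prs
    rw [card_sigma]
    rfl
  rw [hc]
  have h1 := sum_phi Q
  have h2 : ∑ n ∈ Ioc 0 Q, n = Q * (Q + 1) / 2 := by
    have : ∑ n ∈ Ioc 0 Q, n = ∑ n ∈ range (Q + 1), n := by
      rw [range_eq_Ico, sum_eq_sum_Ico_succ_bot (by omega)]
      simp only [zero_add]
      refine sum_congr ?_ fun _ _ => rfl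
      ext n; simp only [mem_Ioc, mem_Ico]; omega
    rw [this, sum_range_id]
    congr 1
    rw [mul_comm]; simp
  have h3 : Ioc 0 Q = Ioc 0 (Q / 4) ∪ Ioc (Q / 4) Q := by
    ext n; simp only [mem_Ioc, mem_union]; omega
  have hd : Disjoint (Ioc 0 (Q / 4)) (Ioc (Q / 4) Q) := by
    rw [disjoint_left]; intro n; simp only [mem_Ioc]; omega
  rw [h2, h3, sum_union hd] at h1
  have h4 : ∑ d ∈ Ioc 0 (Q / 4), d.totient * (Q / d) ≤ (Q / 4) * Q := by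
    calc ∑ d ∈ Ioc 0 (Q / 4), d.totient * (Q / d) ≤ ∑ d ∈ Ioc 0 (Q / 4), Q := by
          refine sum_le_sum fun d hd => ?_
          calc d.totient * (Q / d) ≤ d * (Q / d) := Nat.mul_le_mul_right _ (Nat.totient_le d)
            _ ≤ Q := Nat.mul_div_le Q d
      _ = (Q / 4) * Q := by rw [sum_const, Nat.card_Ioc, smul_eq_mul, Nat.sub_zero]
  have h5 : ∑ d ∈ Ioc (Q / 4) Q, d.totient * (Q / d) ≤ 4 * ∑ d ∈ Ioc (Q / 4) Q, d.totient := by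
    rw [mul_sum]
    refine sum_le_sum fun d hd => ?_
    rw [mem_Ioc] at hd
    rw [mul_comm]
    refine Nat.mul_le_mul_right _ ?_
    have : Q / d < 4 := by
      rw [Nat.div_lt_iff_lt_mul (by omega)]
      omega
    omega
  have h6 : Q * Q ≤ 2 * (Q * (Q + 1) / 2) := by
    have : 2 ∣ Q * (Q + 1) := (Nat.even_mul_succ_self Q).two_dvd
    rw [Nat.mul_div_cancel' this]
    nlinarith
  have h7 : 4 * ((Q / 4) * Q) ≤ Q * Q := by
    have := Nat.mul_div_le Q 4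
    nlinarith
  have h8 : Q ^ 2 = Q * Q := sq Q
  omega

/-- the point attached to a pair and a quadruple -/
noncomputable def ax (M : ℝ) (w : (Σ _ : ℕ, ℕ) × (ℕ × ℕ × ℕ × ℕ)) : ℤ × ℤ × ℤ × ℤ :=
  ic w.1.2 w.1.1 (-Nat.gcdB w.1.2 w.1.1) (Nat.gcdA w.1.2 w.1.1)
    (gg M w.1.2 w.1.1 (Nat.gcdA w.1.2 w.1.1) w.2)

noncomputable def pt (M : ℝ) (w : (Σ _ : ℕ, ℕ) × (ℕ × ℕ × ℕ × ℕ)) : ℤ × ℤ × ℤ × ℤ :=
  (pA (ax M w), pB (ax M w), px (ax M w), py (ax M w))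

theorem lower_count {R t : ℝ} {Q N : ℕ} (hR : 1 ≤ R) (ht : 1 ≤ t) (hM : 20 ≤ R * t ^ 2)
    (hQ1 : 3 * t ≤ Q) (hQ2 : (Q : ℝ) ≤ 4 * t) (hN : (N : ℝ) * t ≤ R / 4000) :
    ∃ F : Finset (ℤ × ℤ × ℤ × ℤ), (∀ P ∈ F, |(P.1 : ℝ)| ≤ R ^ 2 ∧ |(P.2.1 : ℝ)| ≤ R ^ 3 ∧
      (R * t ^ 2) ^ 2 ≤ (P.2.2.1 : ℝ) ∧ (P.2.2.1 : ℝ) ≤ 2 * (R * t ^ 2) ^ 2 ∧
      P.2.2.2 ^ 2 = P.2.2.1 ^ 3 + P.1 * P.2.2.1 + P.2.1 ∧ 4 * P.1 ^ 3 + 27 * P.2.1 ^ 2 ≠ 0) ∧
      F.card = (prs Q).card * N ^ 4 := by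
  classical
  set D := prs Q ×ˢ (range N ×ˢ (range N ×ˢ (range N ×ˢ range N))) with hD
  have ht0 : 0 < t := by linarith
  have hdet : ∀ w ∈ D, (w.1.2 : ℤ) * Nat.gcdA w.1.2 w.1.1 - -Nat.gcdB w.1.2 w.1.1 * w.1.1 = 1 := by
    intro w hw
    rw [hD, mem_product] at hw
    have hw1 := hw.1
    rw [prs, mem_sigma, mem_filter] at hw1
    have hc : Nat.gcd w.1.2 w.1.1 = 1 := hw1.2.2.symm
    have := Nat.gcd_eq_gcd_ab w.1.2 w.1.1
    rw [hc] at this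
    push_cast at this
    linarith
  have hb : ∀ w ∈ D, (w.1.2 < w.1.1) ∧ (w.1.1 ≤ Q) ∧ Nat.Coprime w.1.1 w.1.2 ∧
      |(pA (ax (R * t ^ 2) w) : ℝ)| ≤ R ^ 2 ∧ |(pB (ax (R * t ^ 2) w) : ℝ)| ≤ R ^ 3 ∧
      (R * t ^ 2) ^ 2 ≤ px (ax (R * t ^ 2) w) ∧
      (px (ax (R * t ^ 2) w) : ℝ) ≤ 2 * (R * t ^ 2) ^ 2 ∧
      |√(px (ax (R * t ^ 2) w) : ℝ) - (6 * (ax (R * t ^ 2) w).1 + ((w.1.2 : ℕ) : ℝ) / (w.1.1 : ℕ))| *
        (480 * t ^ 2) ≤ 1 := by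
    intro w hw
    have hd := hdet w hw
    rw [hD, mem_product, mem_product, mem_product, mem_product] at hw
    obtain ⟨hw1, hn0, hn1, hn2, hn3⟩ := hw
    rw [mem_range] at hn0 hn1 hn2 hn3
    rw [prs, mem_sigma, mem_filter, mem_Ioc, mem_range] at hw1
    obtain ⟨⟨hq1, hq2⟩, hpq, hco⟩ := hw1
    refine ⟨hpq, hq2, hco, ?_⟩
    have key := point_bounds (R := R) (t := t) (Q := Q) (N := N) hR ht hM hQ1 hQ2 hN
      (p := w.1.2) (q := w.1.1) (p' := -Nat.gcdB w.1.2 w.1.1) (q' := Nat.gcdA w.1.2 w.1.1) hd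
      (by
        have : Q ≤ 4 * w.1.1 := by omega
        have : (Q : ℝ) ≤ ((4 * w.1.1 : ℕ) : ℝ) := by exact_mod_cast this
        push_cast at this ⊢
        exact this)
      (by push_cast; exact_mod_cast hq2) (Int.natCast_nonneg _) (by exact_mod_cast hpq)
      (g0 := _) (g1 := _) (g2 := _) (g3 := _)
      (fl_bound hn0) (fl_bound hn1)
      (by
        have := fl_bound (c := -(((((w.1.2 : ℤ) : ℝ) / ((w.1.1 : ℤ) : ℝ)) ^ 2 * ((w.1.1 : ℤ) : ℝ) / 4 +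
          3 * ((k0 w.1.2 w.1.1 w.2.1 : ℤ) : ℝ) * ((Nat.gcdA w.1.2 w.1.1 : ℤ) : ℝ) ^ 2 -
          2 * ((k1 w.1.2 w.1.1 (Nat.gcdA w.1.2 w.1.1) (k0 w.1.2 w.1.1 w.2.1) w.2.2.1 : ℤ) : ℝ) *
          ((w.1.1 : ℤ) : ℝ) * ((Nat.gcdA w.1.2 w.1.1 : ℤ) : ℝ)) / ((w.1.1 : ℤ) : ℝ) ^ 2)) hn2
        rw [sub_neg_eq_add] at this
        exact this)
      (fl_bound hn3) (a := ax (R * t ^ 2) w) rfl
    push_cast at key
    exact key
  have hinj : Set.InjOn (pt (R * t ^ 2)) D := by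
    intro w hw w' hw' h
    rw [mem_coe] at hw hw'
    obtain ⟨hpq, hq, hco, -, -, -, -, hs⟩ := hb w hw
    obtain ⟨hpq', hq', hco', -, -, -, -, hs'⟩ := hb w' hw'
    simp only [pt, Prod.mk.injEq] at h
    obtain ⟨eA, -, ex, ey⟩ := h
    rw [ex] at hs
    set a := ax (R * t ^ 2) w with ha
    set a' := ax (R * t ^ 2) w' with ha'
    set s : ℝ := √(px a' : ℝ) with hsdef
    obtain ⟨⟨q, p⟩, n⟩ := w
    obtain ⟨⟨Q', P'⟩, n'⟩ := w'
    simp only at hpq hq hco hpq' hq' hco' hs hs'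
    have hq0 : (0 : ℝ) < q := by exact_mod_cast (by omega : 0 < q)
    have hQ0 : (0 : ℝ) < Q' := by exact_mod_cast (by omega : 0 < Q')
    have hqQ : (q : ℝ) ≤ 4 * t := le_trans (by exact_mod_cast hq) hQ2
    have hQQ : (Q' : ℝ) ≤ 4 * t := le_trans (by exact_mod_cast hq') hQ2
    have d1 : |((6 * a.1 : ℝ) + (p : ℝ) / q) - (6 * a'.1 + (P' : ℝ) / Q')| * (480 * t ^ 2) ≤ 2 := by
      have : |((6 * a.1 : ℝ) + (p : ℝ) / q) - (6 * a'.1 + (P' : ℝ) / Q')| ≤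
          |s - ((6 * a.1 : ℝ) + (p : ℝ) / q)| + |s - (6 * a'.1 + (P' : ℝ) / Q')| := by
        have e : ((6 * a.1 : ℝ) + (p : ℝ) / q) - (6 * a'.1 + (P' : ℝ) / Q') =
          (s - (6 * a'.1 + (P' : ℝ) / Q')) - (s - ((6 * a.1 : ℝ) + (p : ℝ) / q)) := by ring
        rw [e, add_comm (|s - ((6 * a.1 : ℝ) + (p : ℝ) / q)|)]
        exact abs_sub (s - (6 * (a'.1 : ℝ) + (P' : ℝ) / Q')) (s - ((6 * a.1 : ℝ) + (p : ℝ) / q))
      nlinarith [mul_le_mul_of_nonneg_right this (by positivity : 0 ≤ 480 * t ^ 2)]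
    -- the integer
    set k : ℤ := 6 * (a.1 - a'.1) * q * Q' + p * Q' - P' * q with hk
    have hk0 : k = 0 := by
      have e : (k : ℝ) = (((6 * a.1 : ℝ) + (p : ℝ) / q) - (6 * a'.1 + (P' : ℝ) / Q')) * (q * Q') := by
        rw [hk]; push_cast; field_simp; ring
      have h1 : |(k : ℝ)| * (480 * t ^ 2) ≤ 2 * (q * Q') := by
        rw [e, abs_mul, abs_of_pos (by positivity : (0 : ℝ) < q * Q')]
        calc _ = |((6 * a.1 : ℝ) + (p : ℝ) / q) - (6 * a'.1 + (P' : ℝ) / Q')| * (480 * t ^ 2) *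
              (q * Q') := by ring
          _ ≤ 2 * (q * Q') := mul_le_mul_of_nonneg_right d1 (by positivity)
      have h2 : (q : ℝ) * Q' ≤ (4 * t) * (4 * t) := mul_le_mul hqQ hQQ hQ0.le (by positivity)
      have h3 : |(k : ℝ)| < 1 := by
        by_contra hcon
        have hcon := not_lt.1 hcon
        have : 1 * (480 * t ^ 2) ≤ |(k : ℝ)| * (480 * t ^ 2) :=
          mul_le_mul_of_nonneg_right hcon (by positivity)
        nlinarith [pow_pos ht0 2]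
      have h4 : |k| < 1 := by exact_mod_cast h3
      exact Int.abs_lt_one_iff.1 h4
    have hpqz : (p : ℤ) < q := by exact_mod_cast hpq
    have hpqz' : (P' : ℤ) < Q' := by exact_mod_cast hpq'
    have p0 : (0 : ℤ) ≤ p := Int.natCast_nonneg p
    have p0' : (0 : ℤ) ≤ P' := Int.natCast_nonneg P'
    have hd0 : a.1 - a'.1 = 0 := by
      by_contra hne
      have e1 : 6 * (a.1 - a'.1) * (q * Q') = P' * q - p * Q' := by linarith [hk ▸ hk0]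
      have e2 : |(P' : ℤ) * q - p * Q'| < q * Q' := by
        rw [abs_lt]; constructor <;> nlinarith
      have e3 : (1 : ℤ) ≤ |a.1 - a'.1| := Int.one_le_abs hne
      rw [← e1, abs_mul, abs_mul, abs_of_pos (by nlinarith : (0 : ℤ) < q * Q')] at e2
      have : (0 : ℤ) < q * Q' := by nlinarith
      norm_num at e2
      nlinarith
    have e1 : (P' : ℤ) * q = p * Q' := by
      have : k = 6 * (a.1 - a'.1) * q * Q' + p * Q' - P' * q := hk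
      rw [hd0, hk0] at this
      linarith
    have e2 : P' * q = p * Q' := by exact_mod_cast e1
    have f1 : q ∣ Q' := hco.dvd_of_dvd_mul_left (Dvd.intro_left P' e2)
    have f2 : Q' ∣ q := hco'.dvd_of_dvd_mul_left (Dvd.intro_left p e2.symm)
    have f3 : q = Q' := Nat.dvd_antisymm f1 f2
    subst f3
    have f4 : P' = p := Nat.eq_of_mul_eq_mul_right (by omega) e2
    subst f4
    have g1 : a = a' := p_inj (by linarith) eA ex ey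
    have g2 := ic_inj (hdet _ hw) (show ic _ _ _ _ _ = ic _ _ _ _ _ from g1)
    have g3 := gg_inj g2
    simp only at g3
    rw [g3]
  refine ⟨D.image (pt (R * t ^ 2)), ?_, ?_⟩
  · intro P hP
    rw [mem_image] at hP
    obtain ⟨w, hw, rfl⟩ := hP
    obtain ⟨-, -, -, b1, b2, b3, b4, -⟩ := hb w hw
    exact ⟨b1, b2, b3, b4, pt_eq _, disc_ne _⟩
  · rw [card_image_of_injOn hinj, hD, card_product, card_product, card_product, card_product,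
      card_range]
    ring

theorem lower : ∃ c : ℝ, 0 < c ∧ ∃ c1 : ℝ, 0 < c1 ∧ ∀ R M : ℝ, 1 ≤ R → R ≤ M → M ≤ c1 * R ^ 3 →
    ∃ F : Finset (ℤ × ℤ × ℤ × ℤ), (∀ P ∈ F, |(P.1 : ℝ)| ≤ R ^ 2 ∧ |(P.2.1 : ℝ)| ≤ R ^ 3 ∧
      M ^ 2 ≤ (P.2.2.1 : ℝ) ∧ (P.2.2.1 : ℝ) ≤ 2 * M ^ 2 ∧
      P.2.2.2 ^ 2 = P.2.2.1 ^ 3 + P.1 * P.2.2.1 + P.2.1 ∧ 4 * P.1 ^ 3 + 27 * P.2.1 ^ 2 ≠ 0) ∧
      c * (R ^ 5 / M) ≤ F.card := by
  refine ⟨9 / 16 / 8000 ^ 4, by norm_num, 1 / 4000 ^ 2, by norm_num, ?_⟩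
  intro R M hR hRM hM
  have hR0 : 0 < R := by linarith
  have hM0 : 0 < M := by linarith
  have hR4 : 4000 ≤ R := by
    have h1 : R * 4000 ^ 2 ≤ R ^ 3 := by
      have : R ≤ 1 / 4000 ^ 2 * R ^ 3 := hRM.trans hM
      linarith
    have h2 : (4000 : ℝ) ^ 2 ≤ R ^ 2 := by
      have : R * 4000 ^ 2 ≤ R * R ^ 2 := by nlinarith
      exact le_of_mul_le_mul_left this hR0
    exact le_of_sq_le_sq h2 hR0.le
  obtain ⟨t, htdef⟩ : ∃ t, t = √(M / R) := ⟨_, rfl⟩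
  have ht2 : t ^ 2 = M / R := by rw [htdef, Real.sq_sqrt (by positivity)]
  have ht0 : 0 ≤ t := by rw [htdef]; exact Real.sqrt_nonneg _
  have ht1 : 1 ≤ t := by
    rw [htdef, Real.one_le_sqrt, one_le_div hR0]; exact hRM
  have hRt : R * t ^ 2 = M := by rw [ht2]; field_simp
  have htp : 0 < t := by linarith
  have htR : t ≤ R / 4000 := by
    refine le_of_sq_le_sq ?_ (by positivity)
    rw [ht2, div_le_iff₀ hR0]
    calc M ≤ 1 / 4000 ^ 2 * R ^ 3 := hM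
      _ = (R / 4000) ^ 2 * R := by ring
  obtain ⟨Q, hQ⟩ : ∃ Q : ℕ, Q = ⌊4 * t⌋₊ := ⟨_, rfl⟩
  obtain ⟨N, hN⟩ : ∃ N : ℕ, N = ⌊R / (4000 * t)⌋₊ := ⟨_, rfl⟩
  have hQ2 : (Q : ℝ) ≤ 4 * t := by rw [hQ]; exact Nat.floor_le (by positivity)
  have hQ1 : 3 * t ≤ Q := by
    have := Nat.lt_floor_add_one (4 * t)
    rw [← hQ] at this
    linarith
  have hz : 1 ≤ R / (4000 * t) := by
    rw [one_le_div (by positivity)]; linarith
  have hN1 : (N : ℝ) ≤ R / (4000 * t) := by rw [hN]; exact Nat.floor_le (by positivity)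
  have hN2 : R / (8000 * t) ≤ N := by
    have h1 := Nat.lt_floor_add_one (R / (4000 * t))
    have h2 : 1 ≤ ⌊R / (4000 * t)⌋₊ := Nat.le_floor (by exact_mod_cast hz)
    rw [← hN] at h1 h2
    have h3 : (1 : ℝ) ≤ N := by exact_mod_cast h2
    have h4 : R / (8000 * t) = R / (4000 * t) / 2 := by field_simp; ring
    rw [h4]; linarith
  have hNt : (N : ℝ) * t ≤ R / 4000 := by
    calc (N : ℝ) * t ≤ R / (4000 * t) * t := mul_le_mul_of_nonneg_right hN1 ht0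
      _ = R / 4000 := by field_simp
  obtain ⟨F, hF, hFc⟩ := lower_count hR ht1 (by rw [hRt]; linarith) hQ1 hQ2 hNt
  rw [hRt] at hF
  refine ⟨F, hF, ?_⟩
  rw [hFc]
  push_cast
  have h1 : (9 * t ^ 2) / 16 ≤ (prs Q).card := by
    have := prs_card Q
    have h2 : ((Q ^ 2 : ℕ) : ℝ) ≤ ((16 * (prs Q).card : ℕ) : ℝ) := by exact_mod_cast this
    push_cast at h2
    have h3 : (3 * t) ^ 2 ≤ (Q : ℝ) ^ 2 := pow_le_pow_left₀ (by positivity) hQ1 2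
    nlinarith
  calc 9 / 16 / 8000 ^ 4 * (R ^ 5 / M) = (9 * t ^ 2) / 16 * (R / (8000 * t)) ^ 4 := by
        rw [← hRt]; field_simp
    _ ≤ (prs Q).card * (N : ℝ) ^ 4 :=
        mul_le_mul h1 (pow_le_pow_left₀ (by positivity) hN2 4) (by positivity) (by positivity)

end Pool.Agent.H83HL
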