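import Pool.Agent.H83HL.Basic

set_option autoImplicit false

namespace Pool.Agent.H83HL

/-- the hypotheses on a point -/
structure Pt (R : ℝ) (s : ℝ) (A B x y : ℤ) : Prop where
  R1 : 1 ≤ R
  Rs : R ≤ s
  sx : s ^ 2 = x
  y0 : 0 ≤ y
  eq : y ^ 2 = x ^ 3 + A * x + B
  hA : |(A : ℝ)| ≤ R ^ 2
  hB : |(B : ℝ)| ≤ R ^ 3

theorem Pt.eta {R s : ℝ} {A B x y : ℤ} (P : Pt R s A B x y) :
    |(y : ℝ) - s ^ 3| ≤ 2 * R ^ 2 / s ∧ |8 * ((y : ℝ) - s ^ 3) * s - 4 * A| ≤ 16 * R ^ 3 / s ^ 2 := by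
  refine eta_bound (A := A) (B := B) (x := x) (P.R1.trans P.Rs) P.sx ?_ ?_ P.hA P.hB
    (by linarith [P.R1]) P.Rs
  · exact_mod_cast P.y0
  · exact_mod_cast P.eq

theorem Pt.near {R s : ℝ} {A B x y : ℤ} (P : Pt R s A B x y) (m : ℤ) {θ h : ℝ} (h0 : 0 ≤ h)
    (hs : h ≤ s) (hh : |(m : ℝ) + θ - s| ≤ h) :
    |θ ^ 4 + tau0 (dd m A x y) θ| ≤ 5 * s * h ^ 3 + 16 * R ^ 2 * h / s + 16 * R ^ 3 / s ^ 2 ∧
    |4 * θ ^ 3 + tau1 (dd m A x y) θ| ≤ 16 * s * h ^ 2 + 16 * R ^ 2 / s ∧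
    |6 * θ ^ 2 + tau2 (dd m A x y) θ| ≤ 18 * s * h := by
  obtain ⟨e1, e2⟩ := P.eta
  have hR := P.R1
  have hRs := P.Rs
  have hs0 : 0 < s := by linarith
  have hx := P.sx
  rw [val0, val1, val2, ← hx]
  set U : ℝ := (m : ℝ) + θ with hU
  set η : ℝ := (y : ℝ) - s ^ 3 with hη
  have hy : (y : ℝ) = s ^ 3 + η := by rw [hη]; ring
  have hUs := abs_le.1 hh
  have w3 : |U + 3 * s| ≤ 5 * s := by rw [abs_le]; constructor <;> linarith
  have w2 : |U + 2 * s| ≤ 4 * s := by rw [abs_le]; constructor <;> linarith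
  have w1 : |U + s| ≤ 3 * s := by rw [abs_le]; constructor <;> linarith
  refine ⟨?_, ?_, ?_⟩
  · have e : U ^ 4 - 6 * s ^ 2 * U ^ 2 + 8 * (y : ℝ) * U - 4 * A - 3 * (s ^ 2) ^ 2 =
        (U - s) ^ 3 * (U + 3 * s) + 8 * η * (U - s) + (8 * η * s - 4 * A) := by
      rw [hy]; ring
    rw [e]
    have b1 : |(U - s) ^ 3 * (U + 3 * s)| ≤ 5 * s * h ^ 3 := by
      rw [abs_mul, abs_pow]
      calc |U - s| ^ 3 * |U + 3 * s| ≤ h ^ 3 * (5 * s) :=
            mul_le_mul (pow_le_pow_left₀ (abs_nonneg _) hh 3) w3 (abs_nonneg _) (by positivity)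
        _ = 5 * s * h ^ 3 := by ring
    have b2 : |8 * η * (U - s)| ≤ 16 * R ^ 2 * h / s := by
      rw [abs_mul, abs_mul, abs_of_pos (by norm_num : (0 : ℝ) < 8)]
      calc 8 * |η| * |U - s| ≤ 8 * (2 * R ^ 2 / s) * h :=
            mul_le_mul (mul_le_mul_of_nonneg_left e1 (by norm_num)) hh (abs_nonneg _) (by positivity)
        _ = 16 * R ^ 2 * h / s := by ring
    calc |(U - s) ^ 3 * (U + 3 * s) + 8 * η * (U - s) + (8 * η * s - 4 * A)|
        ≤ |(U - s) ^ 3 * (U + 3 * s) + 8 * η * (U - s)| + |8 * η * s - 4 * A| := abs_add_le _ _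
      _ ≤ |(U - s) ^ 3 * (U + 3 * s)| + |8 * η * (U - s)| + |8 * η * s - 4 * A| :=
          add_le_add (abs_add_le _ _) le_rfl
      _ ≤ _ := by linarith
  · have e : 4 * U ^ 3 - 12 * s ^ 2 * U + 8 * (y : ℝ) = 4 * (U - s) ^ 2 * (U + 2 * s) + 8 * η := by
      rw [hy]; ring
    rw [e]
    have b1 : |4 * (U - s) ^ 2 * (U + 2 * s)| ≤ 16 * s * h ^ 2 := by
      rw [abs_mul, abs_mul, abs_pow, abs_of_pos (by norm_num : (0 : ℝ) < 4)]
      calc 4 * |U - s| ^ 2 * |U + 2 * s| ≤ 4 * h ^ 2 * (4 * s) :=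
            mul_le_mul (mul_le_mul_of_nonneg_left (pow_le_pow_left₀ (abs_nonneg _) hh 2)
              (by norm_num)) w2 (abs_nonneg _) (by positivity)
        _ = 16 * s * h ^ 2 := by ring
    have b2 : |8 * η| ≤ 16 * R ^ 2 / s := by
      rw [abs_mul, abs_of_pos (by norm_num : (0 : ℝ) < 8)]
      calc 8 * |η| ≤ 8 * (2 * R ^ 2 / s) := mul_le_mul_of_nonneg_left e1 (by norm_num)
        _ = 16 * R ^ 2 / s := by ring
    exact (abs_add_le _ _).trans (add_le_add b1 b2)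
  · have e : 6 * U ^ 2 - 6 * s ^ 2 = 6 * (U - s) * (U + s) := by ring
    rw [e, abs_mul, abs_mul, abs_of_pos (by norm_num : (0 : ℝ) < 6)]
    calc 6 * |U - s| * |U + s| ≤ 6 * h * (3 * s) :=
          mul_le_mul (mul_le_mul_of_nonneg_left hh (by norm_num)) w1 (abs_nonneg _) (by positivity)
      _ = 18 * s * h := by ring

/-- two points whose square roots are near `m + θ` and `m' + θ` -/
theorem diff_bound {R M K : ℝ} {A B x y A' B' x' y' : ℤ} {s s' : ℝ}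
    (P : Pt R s A B x y) (P' : Pt R s' A' B' x' y') {m m' : ℤ} {θ : ℝ}
    (hM : M ≤ s) (hM' : M ≤ s') (hs : s ≤ 3 / 2 * M) (hs' : s' ≤ 3 / 2 * M)
    (hRM : R ≤ M) (hK : M / R ≤ K) (hK1 : 1 ≤ K)
    (hh : |(m : ℝ) + θ - s| ≤ 1 / K) (hh' : |(m' : ℝ) + θ - s'| ≤ 1 / K) :
    |tau0 (dd m A x y - dd m' A' x' y') θ| ≤ 80 * (R ^ 3 / M ^ 2) ∧
    |tau1 (dd m A x y - dd m' A' x' y') θ| ≤ 80 * (R ^ 3 / M ^ 2) * K ∧
    |tau2 (dd m A x y - dd m' A' x' y') θ| ≤ 80 * (R ^ 3 / M ^ 2) * K ^ 2 ∧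
    |tau3 (dd m A x y - dd m' A' x' y')| ≤ 80 * (R ^ 3 / M ^ 2) * K ^ 3 := by
  have hR := P.R1
  have hR0 : 0 < R := by linarith
  have hM0 : 0 < M := by linarith
  have hM1 : 1 ≤ M := by linarith
  have hK0 : 0 < K := by linarith
  have hKR : M ≤ K * R := (div_le_iff₀ hR0).1 hK
  have hi : 1 / K ≤ R / M := by
    rw [div_le_div_iff₀ hK0 hM0]; linarith
  have hi0 : (0 : ℝ) ≤ R / M := by positivity
  have hRM1 : R / M ≤ 1 := by rw [div_le_one hM0]; exact hRM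
  have key : ∀ {s : ℝ} {A B x y : ℤ} (_ : Pt R s A B x y) {m : ℤ}, M ≤ s → s ≤ 3 / 2 * M →
      |(m : ℝ) + θ - s| ≤ 1 / K →
      |θ ^ 4 + tau0 (dd m A x y) θ| ≤ 40 * (R ^ 3 / M ^ 2) ∧
      |4 * θ ^ 3 + tau1 (dd m A x y) θ| ≤ 40 * (R ^ 2 / M) ∧
      |6 * θ ^ 2 + tau2 (dd m A x y) θ| ≤ 40 * R := by
    intro s A B x y P m hM hs hh
    have hs0 : 0 < s := by linarith
    obtain ⟨c0, c1, c2⟩ := P.near m (θ := θ) (h := R / M) hi0 (by linarith) (hh.trans hi)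
    refine ⟨c0.trans ?_, c1.trans ?_, c2.trans ?_⟩
    · have g1 : 5 * s * (R / M) ^ 3 ≤ 8 * (R ^ 3 / M ^ 2) := by
        have : 5 * s * (R / M) ^ 3 ≤ 5 * (3 / 2 * M) * (R / M) ^ 3 :=
          mul_le_mul_of_nonneg_right (by linarith) (by positivity)
        have e : 5 * (3 / 2 * M) * (R / M) ^ 3 = 15 / 2 * (R ^ 3 / M ^ 2) := by
          field_simp; ring
        have : 0 ≤ R ^ 3 / M ^ 2 := by positivity
        linarith
      have g2 : 16 * R ^ 2 * (R / M) / s ≤ 16 * (R ^ 3 / M ^ 2) := by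
        rw [div_le_iff₀ hs0]
        have e : 16 * (R ^ 3 / M ^ 2) * M = 16 * R ^ 2 * (R / M) := by field_simp
        rw [← e]
        exact mul_le_mul_of_nonneg_left hM (by positivity)
      have g3 : 16 * R ^ 3 / s ^ 2 ≤ 16 * (R ^ 3 / M ^ 2) := by
        rw [mul_div_assoc]
        refine mul_le_mul_of_nonneg_left ?_ (by norm_num)
        exact div_le_div_of_nonneg_left (by positivity) (by positivity)
          (pow_le_pow_left₀ hM0.le hM 2)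
      linarith
    · have g1 : 16 * s * (R / M) ^ 2 ≤ 24 * (R ^ 2 / M) := by
        have h1 : 16 * s * (R / M) ^ 2 ≤ 16 * (3 / 2 * M) * (R / M) ^ 2 :=
          mul_le_mul_of_nonneg_right (by linarith) (by positivity)
        have e : 16 * (3 / 2 * M) * (R / M) ^ 2 = 24 * (R ^ 2 / M) := by
          field_simp; ring
        linarith
      have g2 : 16 * R ^ 2 / s ≤ 16 * (R ^ 2 / M) := by
        rw [mul_div_assoc]
        refine mul_le_mul_of_nonneg_left ?_ (by norm_num)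
        exact div_le_div_of_nonneg_left (by positivity) hM0 hM
      linarith
    · have h1 : 18 * s * (R / M) ≤ 18 * (3 / 2 * M) * (R / M) :=
        mul_le_mul_of_nonneg_right (by linarith) hi0
      have e : 18 * (3 / 2 * M) * (R / M) = 27 * R := by field_simp; ring
      linarith
  obtain ⟨a0, a1, a2⟩ := key P hM hs hh
  obtain ⟨b0, b1, b2⟩ := key P' hM' hs' hh'
  have p1 : R ^ 2 / M ≤ R ^ 3 / M ^ 2 * K := by
    rw [div_mul_eq_mul_div, div_le_div_iff₀ hM0 (by positivity)]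
    have : R ^ 2 * M * M ≤ R ^ 2 * M * (K * R) := mul_le_mul_of_nonneg_left hKR (by positivity)
    nlinarith
  have p2 : R ≤ R ^ 3 / M ^ 2 * K ^ 2 := by
    rw [div_mul_eq_mul_div, le_div_iff₀ (by positivity)]
    have : R * M ^ 2 ≤ R * (K * R) ^ 2 :=
      mul_le_mul_of_nonneg_left (pow_le_pow_left₀ hM0.le hKR 2) hR0.le
    nlinarith
  have p3 : M ≤ R ^ 3 / M ^ 2 * K ^ 3 := by
    rw [div_mul_eq_mul_div, le_div_iff₀ (by positivity)]
    have : M ^ 3 ≤ (K * R) ^ 3 := pow_le_pow_left₀ hM0.le hKR 3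
    nlinarith
  have s0 : tau0 (dd m A x y - dd m' A' x' y') θ =
      (θ ^ 4 + tau0 (dd m A x y) θ) - (θ ^ 4 + tau0 (dd m' A' x' y') θ) := by
    simp only [tau0, Prod.fst_sub, Prod.snd_sub]; push_cast; ring
  have s1 : tau1 (dd m A x y - dd m' A' x' y') θ =
      (4 * θ ^ 3 + tau1 (dd m A x y) θ) - (4 * θ ^ 3 + tau1 (dd m' A' x' y') θ) := by
    simp only [tau1, Prod.fst_sub, Prod.snd_sub]; push_cast; ring
  have s2 : tau2 (dd m A x y - dd m' A' x' y') θ =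
      (6 * θ ^ 2 + tau2 (dd m A x y) θ) - (6 * θ ^ 2 + tau2 (dd m' A' x' y') θ) := by
    simp only [tau2, Prod.fst_sub, Prod.snd_sub]; push_cast; ring
  refine ⟨?_, ?_, ?_, ?_⟩
  · rw [s0]
    refine (abs_sub _ _).trans ?_
    linarith
  · rw [s1]
    refine (abs_sub _ _).trans ?_
    have := p1
    nlinarith [p1]
  · rw [s2]
    refine (abs_sub _ _).trans ?_
    nlinarith [p2]
  · simp only [tau3, dd, Prod.fst_sub]
    push_cast
    have q1 := abs_le.1 hh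
    have q2 := abs_le.1 hh'
    have q3 : 1 / K ≤ 1 := by rw [div_le_one hK0]; exact hK1
    have : |(m : ℝ) - m'| ≤ 5 / 2 * M := by
      rw [abs_le]; constructor <;> linarith
    calc |4 * (m : ℝ) - 4 * m'| = 4 * |(m : ℝ) - m'| := by
          rw [← mul_sub, abs_mul, abs_of_pos (by norm_num : (0 : ℝ) < 4)]
      _ ≤ 80 * (R ^ 3 / M ^ 2) * K ^ 3 := by nlinarith [p3]

end Pool.Agent.H83HL
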